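import Mathlib

section
/-!
MP_1fb68e_nt, local shuffles: a residue class is the class of few factorials `n!`, `n < p`.
-/
set_option autoImplicit false

namespace MP1fb.LS

open Finset Polynomial

/-- the `n` with `1 ≤ n < p` and `n! = a` modulo `p`. -/
def facHits (p : ℕ) (a : ZMod p) : Finset ℕ :=
  (Finset.Ico 1 p).filter (fun n => ((n.factorial : ℕ) : ZMod p) = a)

lemma shift_card_le (p : ℕ) [hp : Fact p.Prime] (a : ZMod p) (k : ℕ) (hk : 0 < k) :
    ((facHits p a).filter (fun n => n + k ∈ facHits p a)).card ≤ k := by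
  classical
  set P : (ZMod p)[X] := ∏ i ∈ Finset.range k, (X + C ((i : ZMod p) + 1)) - C 1 with hP
  have hmon : (∏ i ∈ Finset.range k, (X + C ((i : ZMod p) + 1))).Monic :=
    monic_prod_of_monic _ _ (fun i _ => monic_X_add_C _)
  have hdeg : (∏ i ∈ Finset.range k, (X + C ((i : ZMod p) + 1))).natDegree = k := by
    rw [natDegree_prod_of_monic _ _ (fun i _ => monic_X_add_C _),
      Finset.sum_congr rfl (fun i _ => natDegree_X_add_C _)]
    simp
  have hPdeg : P.natDegree = k := by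
    rw [hP, natDegree_sub_C, hdeg]
  have hP0 : P ≠ 0 := by
    intro h
    rw [h, natDegree_zero] at hPdeg
    omega
  have hinj : Set.InjOn (fun n : ℕ => (n : ZMod p))
      ((facHits p a).filter (fun n => n + k ∈ facHits p a) : Finset ℕ) := by
    intro x hx y hy hxy
    simp only [coe_filter, facHits, Finset.mem_filter, Finset.mem_Ico, Set.mem_ofPred_eq] at hx hy
    have h1 := (ZMod.natCast_eq_natCast_iff x y p).mp hxy
    exact Nat.ModEq.eq_of_lt_of_lt h1 hx.1.1.2 hy.1.1.2
  have hsub : ((facHits p a).filter (fun n => n + k ∈ facHits p a)).image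
      (fun n : ℕ => (n : ZMod p)) ⊆ P.roots.toFinset := by
    intro z hz
    rw [Finset.mem_image] at hz
    obtain ⟨n, hn, rfl⟩ := hz
    simp only [facHits, Finset.mem_filter, Finset.mem_Ico] at hn
    rw [Multiset.mem_toFinset, mem_roots hP0, IsRoot.def, hP]
    simp only [eval_sub, eval_prod, eval_add, eval_X, eval_C]
    have h1 : ((n + k).factorial : ZMod p) =
        (n.factorial : ZMod p) * ∏ i ∈ Finset.range k, ((n : ZMod p) + ((i : ZMod p) + 1)) := by
      rw [← Nat.factorial_mul_ascFactorial, Nat.ascFactorial_eq_prod_range]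
      push_cast
      congr 1
      apply Finset.prod_congr rfl
      intro i _
      ring
    have h2 : (n.factorial : ZMod p) ≠ 0 := by
      intro h
      rw [ZMod.natCast_eq_zero_iff, hp.out.dvd_factorial] at h
      omega
    have h3 : (n.factorial : ZMod p) * ∏ i ∈ Finset.range k, ((n : ZMod p) + ((i : ZMod p) + 1)) =
        (n.factorial : ZMod p) * 1 := by
      rw [← h1, mul_one, hn.2.2, hn.1.2]
    rw [mul_left_cancel₀ h2 h3, sub_self]
  calc _ = (((facHits p a).filter (fun n => n + k ∈ facHits p a)).image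
        (fun n : ℕ => (n : ZMod p))).card := (Finset.card_image_of_injOn hinj).symm
    _ ≤ P.roots.toFinset.card := Finset.card_le_card hsub
    _ ≤ Multiset.card P.roots := Multiset.toFinset_card_le _
    _ ≤ P.natDegree := card_roots' P
    _ = k := hPdeg

/-- a class contains at most `K ^ 2 + p / (K + 1) + 1` of the factorials `n!`, `n < p`. -/
theorem facHits_card_le (p : ℕ) [hp : Fact p.Prime] (a : ZMod p) (K : ℕ) :
    (facHits p a).card ≤ K ^ 2 + p / (K + 1) + 1 := by
  classical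
  set A := facHits p a with hA
  set A1 := A.filter (fun n => ∃ k ∈ Finset.Icc 1 K, n + k ∈ A) with hA1
  set A2 := A.filter (fun n => ¬ ∃ k ∈ Finset.Icc 1 K, n + k ∈ A) with hA2
  have hsplit : A.card = A1.card + A2.card := (Finset.card_filter_add_card_filter_not _).symm
  have h1 : A1.card ≤ K ^ 2 := by
    have hsub : A1 ⊆ (Finset.Icc 1 K).biUnion (fun k => A.filter (fun n => n + k ∈ A)) := by
      intro n hn
      rw [hA1, Finset.mem_filter] at hn
      obtain ⟨hn1, k, hk, hk2⟩ := hn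
      rw [Finset.mem_biUnion]
      exact ⟨k, hk, Finset.mem_filter.mpr ⟨hn1, hk2⟩⟩
    calc A1.card ≤ _ := Finset.card_le_card hsub
      _ ≤ ∑ k ∈ Finset.Icc 1 K, (A.filter (fun n => n + k ∈ A)).card := Finset.card_biUnion_le
      _ ≤ ∑ _k ∈ Finset.Icc 1 K, K := by
          apply Finset.sum_le_sum
          intro k hk
          rw [Finset.mem_Icc] at hk
          exact le_trans (shift_card_le p a k hk.1) hk.2
      _ = K ^ 2 := by simp [sq]
  have h2 : A2.card ≤ p / (K + 1) + 1 := by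
    have hinj : Set.InjOn (fun n : ℕ => n / (K + 1)) (A2 : Finset ℕ) := by
      have aux : ∀ x ∈ A2, ∀ y ∈ A2, x / (K + 1) = y / (K + 1) → ¬ x < y := by
        intro x hx y hy hxy hlt
        rw [hA2, Finset.mem_filter] at hx hy
        apply hx.2
        refine ⟨y - x, ?_, ?_⟩
        · rw [Finset.mem_Icc]
          have e1 := Nat.div_add_mod x (K + 1)
          have e2 := Nat.div_add_mod y (K + 1)
          have e3 := Nat.mod_lt y (show 0 < K + 1 by omega)
          rw [hxy] at e1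
          constructor
          · omega
          · have : y < x + (K + 1) := by
              calc y = (K + 1) * (y / (K + 1)) + y % (K + 1) := e2.symm
                _ < (K + 1) * (y / (K + 1)) + (K + 1) := by omega
                _ ≤ x + (K + 1) := by omega
            omega
        · rw [show x + (y - x) = y by omega]
          exact hy.1
      intro x hx y hy hxy
      rcases lt_trichotomy x y with h | h | h
      · exact absurd h (aux x hx y hy hxy)
      · exact h
      · exact absurd h (aux y hy x hx hxy.symm)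
    calc A2.card = (A2.image (fun n : ℕ => n / (K + 1))).card :=
          (Finset.card_image_of_injOn hinj).symm
      _ ≤ (Finset.range (p / (K + 1) + 1)).card := by
          apply Finset.card_le_card
          intro m hm
          rw [Finset.mem_image] at hm
          obtain ⟨n, hn, rfl⟩ := hm
          rw [hA2, Finset.mem_filter, hA, facHits, Finset.mem_filter, Finset.mem_Ico] at hn
          rw [Finset.mem_range]
          have : n / (K + 1) ≤ p / (K + 1) := Nat.div_le_div_right hn.1.1.2.le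
          omega
      _ = _ := by simp
  omega

end MP1fb.LS
end

section
/-!
MP_1fb68e_nt, local shuffles: products of random `j`-subsets of a set of residues are
equidistributed modulo `p`.
-/
set_option autoImplicit false

namespace MP1fb.LS

open Finset

/-- the terms of `(j + (n - j)) ^ n` are largest at `j`. -/
lemma term_le (n j : ℕ) (hj : j ≤ n) : ∀ i, i ≤ n →
    n.choose i * j ^ i * (n - j) ^ (n - i) ≤ n.choose j * j ^ j * (n - j) ^ (n - j) := by
  -- `a (i+1) (i+1) (n-j) = a i (n-i) j`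
  have step : ∀ i, i < n → (n.choose (i + 1) * j ^ (i + 1) * (n - j) ^ (n - (i + 1))) *
      ((i + 1) * (n - j)) = (n.choose i * j ^ i * (n - j) ^ (n - i)) * ((n - i) * j) := by
    intro i hi
    have h1 := Nat.choose_succ_right_eq n i
    have h2 : n - i = (n - (i + 1)) + 1 := by omega
    have h3 : (n - j) ^ (n - i) = (n - j) ^ (n - (i + 1)) * (n - j) := by
      rw [← pow_succ]; congr 1
    rw [h3, pow_succ]
    calc _ = (n.choose (i + 1) * (i + 1)) * (j ^ i * j * (n - j) ^ (n - (i + 1)) * (n - j)) := by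
          ring
      _ = _ := by rw [h1]; ring
  have up : ∀ d, j + d ≤ n → n.choose (j + d) * j ^ (j + d) * (n - j) ^ (n - (j + d)) ≤
      n.choose j * j ^ j * (n - j) ^ (n - j) := by
    intro d
    induction d with
    | zero => intro _; simp
    | succ d ih =>
      intro hd
      refine le_trans ?_ (ih (by omega))
      have hi : j + d < n := by omega
      have hs := step (j + d) hi
      have hc : 0 < (j + d + 1) * (n - j) := by
        apply Nat.mul_pos <;> omega
      refine Nat.le_of_mul_le_mul_right ?_ hc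
      rw [show j + (d + 1) = j + d + 1 by ring, hs]
      apply Nat.mul_le_mul_left
      have h1 : n - (j + d) ≤ n - j := by omega
      have h2 : j ≤ j + d + 1 := by omega
      calc (n - (j + d)) * j ≤ (n - j) * (j + d + 1) := Nat.mul_le_mul h1 h2
        _ = _ := by ring
  have down : ∀ d, d ≤ j → n.choose (j - d) * j ^ (j - d) * (n - j) ^ (n - (j - d)) ≤
      n.choose j * j ^ j * (n - j) ^ (n - j) := by
    intro d
    induction d with
    | zero => intro _; simp
    | succ d ih =>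
      intro hd
      refine le_trans ?_ (ih (by omega))
      set i := j - (d + 1) with hi
      have hi1 : j - d = i + 1 := by omega
      have hin : i < n := by omega
      have hs := step i hin
      have hc : 0 < (n - i) * j := by
        apply Nat.mul_pos <;> omega
      refine Nat.le_of_mul_le_mul_right ?_ hc
      rw [hi1, ← hs]
      apply Nat.mul_le_mul_left
      have h1 : n - j ≤ n - i := by omega
      have h2 : i + 1 ≤ j := by omega
      calc (i + 1) * (n - j) ≤ j * (n - i) := Nat.mul_le_mul h2 h1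
        _ = _ := by ring
  intro i hi
  rcases le_total j i with h | h
  · obtain ⟨d, rfl⟩ := Nat.exists_eq_add_of_le h
    exact up d hi
  · have := down (j - i) (by omega)
    rwa [show j - (j - i) = i by omega] at this

lemma mode (n j : ℕ) (hj : j ≤ n) :
    n ^ n ≤ (n + 1) * (n.choose j * j ^ j * (n - j) ^ (n - j)) := by
  have h := add_pow j (n - j) n
  rw [show j + (n - j) = n by omega] at h
  rw [h]
  calc _ ≤ ∑ _m ∈ range (n + 1), n.choose j * j ^ j * (n - j) ^ (n - j) := by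
        apply Finset.sum_le_sum
        intro i hi
        have := term_le n j hj i (by rw [Finset.mem_range] at hi; omega)
        calc _ = n.choose i * j ^ i * (n - j) ^ (n - i) := by push_cast; ring
          _ ≤ _ := this
    _ = _ := by simp

lemma mode_real (n j : ℕ) (hn : 0 < n) (hj : j ≤ n) :
    1 ≤ ((n : ℝ) + 1) * n.choose j * (((j : ℝ) / n) ^ j * (((n : ℝ) - j) / n) ^ (n - j)) := by
  have h := mode n j hj
  have h' : ((n : ℝ)) ^ n ≤ (n + 1) * (n.choose j * (j : ℝ) ^ j * ((n : ℝ) - j) ^ (n - j)) := by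
    have : ((n ^ n : ℕ) : ℝ) ≤ (((n + 1) * (n.choose j * j ^ j * (n - j) ^ (n - j)) : ℕ) : ℝ) := by
      exact_mod_cast h
    push_cast [Nat.cast_sub hj] at this
    exact this
  have hn' : (0 : ℝ) < (n : ℝ) ^ n := by positivity
  rw [div_pow, div_pow]
  have e : (n : ℝ) ^ j * (n : ℝ) ^ (n - j) = (n : ℝ) ^ n := by
    rw [← pow_add]; congr 1; omega
  calc (1 : ℝ) = (n : ℝ) ^ n / (n : ℝ) ^ n := by field_simp
    _ ≤ ((n + 1) * (n.choose j * (j : ℝ) ^ j * ((n : ℝ) - j) ^ (n - j))) / (n : ℝ) ^ n := by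
        gcongr
    _ = _ := by
        rw [← e]
        have h1 : (n : ℝ) ^ j ≠ 0 := by positivity
        have h2 : (n : ℝ) ^ (n - j) ≠ 0 := by positivity
        field_simp

/-- one factor of the generating function -/
lemma norm_factor (r : ℝ) (hr0 : 0 ≤ r) (hr1 : r ≤ 1) (z : ℂ) (hz : ‖z‖ = 1) :
    ‖((1 - r : ℝ) : ℂ) + (r : ℂ) * z‖ ≤ Real.exp (-(r * (1 - r)) * (1 - z.re)) := by
  have h1 : ‖((1 - r : ℝ) : ℂ) + (r : ℂ) * z‖ ^ 2 = 1 - 2 * (r * (1 - r)) * (1 - z.re) := by
    rw [← Complex.normSq_eq_norm_sq, Complex.normSq_apply]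
    have h2 : z.re * z.re + z.im * z.im = 1 := by
      have := Complex.normSq_eq_norm_sq z
      rw [Complex.normSq_apply, hz] at this
      simpa using this
    simp only [Complex.add_re, Complex.ofReal_re, Complex.mul_re, Complex.ofReal_im, zero_mul,
      sub_zero, Complex.add_im, Complex.mul_im, add_zero, zero_add]
    have h3 : (1 - r + r * z.re) * (1 - r + r * z.re) + r * z.im * (r * z.im) =
        (1 - r) ^ 2 + 2 * r * (1 - r) * z.re + r ^ 2 * (z.re * z.re + z.im * z.im) := by ring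
    rw [h3, h2]
    ring
  have h3 : ‖((1 - r : ℝ) : ℂ) + (r : ℂ) * z‖ ^ 2 ≤
      (Real.exp (-(r * (1 - r)) * (1 - z.re))) ^ 2 := by
    rw [h1, ← Real.exp_nat_mul]
    have := Real.add_one_le_exp (((2 : ℕ) : ℝ) * (-(r * (1 - r)) * (1 - z.re)))
    refine le_trans (le_of_eq ?_) this
    push_cast; ring
  exact le_of_sq_le_sq h3 (Real.exp_pos _).le

/-- bound for elementary symmetric functions of unimodular numbers with a small sum. -/
theorem esymm_bound {α : Type*} [DecidableEq α] (B : Finset α) (hB : 0 < B.card) (f : α → ℂ)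
    (hf : ∀ b ∈ B, ‖f b‖ = 1) (κ : ℝ) (hκ : ‖∑ b ∈ B, f b‖ ≤ κ * B.card) (j : ℕ)
    (hj : j ≤ B.card) :
    ‖∑ S ∈ B.powersetCard j, ∏ b ∈ S, f b‖ ≤ (B.card.choose j : ℝ) *
      (((B.card : ℝ) + 1) * Real.exp (-((1 - κ) * (j * ((B.card : ℝ) - j) / B.card)))) := by
  set n := B.card with hn
  set r : ℝ := (j : ℝ) / n with hr
  have hn0 : (0 : ℝ) < n := by exact_mod_cast hB
  have hjn : (j : ℝ) ≤ n := by exact_mod_cast hj
  have hr0 : 0 ≤ r := by positivity
  have hr1 : r ≤ 1 := by rw [hr, div_le_one hn0]; exact hjn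
  have hs : 1 - r = ((n : ℝ) - j) / n := by rw [hr]; field_simp
  set E : ℝ := Real.exp (-((1 - κ) * (j * ((n : ℝ) - j) / n))) with hE
  set F : ℂ → ℂ := fun w => ∏ b ∈ B, (((1 - r : ℝ) : ℂ) + (r : ℂ) * (w * f b)) with hF
  -- size of `F` on the unit circle
  have hFle : ∀ w : ℂ, ‖w‖ = 1 → ‖F w‖ ≤ E := by
    intro w hw
    rw [hF]
    simp only [norm_prod]
    calc _ ≤ ∏ b ∈ B, Real.exp (-(r * (1 - r)) * (1 - (w * f b).re)) := by
          apply Finset.prod_le_prod (fun _ _ => norm_nonneg _)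
          intro b hb
          apply norm_factor r hr0 hr1
          rw [norm_mul, hw, hf b hb, one_mul]
      _ = Real.exp (∑ b ∈ B, (-(r * (1 - r)) * (1 - (w * f b).re))) := (Real.exp_sum _ _).symm
      _ ≤ E := by
          rw [hE]
          apply Real.exp_le_exp.mpr
          rw [← Finset.mul_sum, Finset.sum_sub_distrib]
          simp only [sum_const, nsmul_eq_mul, mul_one]
          have h1 : ∑ b ∈ B, (w * f b).re ≤ κ * n := by
            rw [← Complex.re_sum, ← Finset.mul_sum]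
            refine le_trans (Complex.re_le_norm _) ?_
            rw [norm_mul, hw, one_mul]
            exact hκ
          have h2 : 0 ≤ r * (1 - r) := mul_nonneg hr0 (by linarith)
          have h3 : (j : ℝ) * ((n : ℝ) - j) / n = r * (1 - r) * n := by
            rw [hs, hr]; field_simp
          rw [h3, ← hn]
          nlinarith [mul_le_mul_of_nonneg_left h1 h2]
  -- expansion
  have hFexp : ∀ w : ℂ, F w = ∑ S ∈ B.powerset, ((r : ℂ) ^ S.card *
      ((1 - r : ℝ) : ℂ) ^ (n - S.card) * ∏ b ∈ S, f b) * w ^ S.card := by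
    intro w
    rw [hF]
    simp only
    have : ∀ b ∈ B, (((1 - r : ℝ) : ℂ) + (r : ℂ) * (w * f b)) =
        (r : ℂ) * (w * f b) + ((1 - r : ℝ) : ℂ) := fun b _ => add_comm _ _
    rw [Finset.prod_congr rfl this, Finset.prod_add]
    apply Finset.sum_congr rfl
    intro S hS
    rw [Finset.mem_powerset] at hS
    rw [Finset.prod_mul_distrib, Finset.prod_mul_distrib, Finset.prod_const, Finset.prod_const,
      Finset.prod_const, Finset.card_sdiff_of_subset hS]
    ring
  -- root of unity filter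
  set N := n + 1 with hN
  have hNpos : 0 < N := by omega
  set ζ : ℂ := Complex.exp (2 * Real.pi * Complex.I / N) with hζ
  have hprim : IsPrimitiveRoot ζ N := Complex.isPrimitiveRoot_exp N (by omega)
  have hζnorm : ‖ζ‖ = 1 := hprim.norm'_eq_one (by omega)
  have hfilter : ∑ k ∈ range N, ζ ^ (k * (N - j)) * F (ζ ^ k) =
      (N : ℂ) * ((r : ℂ) ^ j * ((1 - r : ℝ) : ℂ) ^ (n - j) *
        ∑ S ∈ B.powersetCard j, ∏ b ∈ S, f b) := by
    have h1 : ∀ k, ζ ^ (k * (N - j)) * F (ζ ^ k) = ∑ S ∈ B.powerset, ((r : ℂ) ^ S.card *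
      ((1 - r : ℝ) : ℂ) ^ (n - S.card) * ∏ b ∈ S, f b) * (ζ ^ (N - j + S.card)) ^ k := by
      intro k
      rw [hFexp, Finset.mul_sum]
      apply Finset.sum_congr rfl
      intro S _
      rw [← pow_mul, ← pow_mul, add_mul, pow_add]
      rw [mul_comm k (N - j), mul_comm k S.card]
      ring
    rw [Finset.sum_congr rfl (fun k _ => h1 k), Finset.sum_comm]
    have h2 : ∀ S ∈ B.powerset, ∑ k ∈ range N, ((r : ℂ) ^ S.card *
        ((1 - r : ℝ) : ℂ) ^ (n - S.card) * ∏ b ∈ S, f b) * (ζ ^ (N - j + S.card)) ^ k =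
        if S.card = j then (N : ℂ) * ((r : ℂ) ^ j * ((1 - r : ℝ) : ℂ) ^ (n - j) *
          ∏ b ∈ S, f b) else 0 := by
      intro S hS
      rw [← Finset.mul_sum]
      have hSn : S.card ≤ n := Finset.card_le_card (Finset.mem_powerset.mp hS)
      split_ifs with h
      · rw [h]
        have : ζ ^ (N - j + j) = 1 := by
          rw [show N - j + j = N by omega]; exact hprim.pow_eq_one
        rw [this]
        simp only [one_pow, sum_const, card_range, nsmul_eq_mul, mul_one]
        ring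
      · have hne : ζ ^ (N - j + S.card) ≠ 1 := by
          intro h1
          have := (hprim.pow_eq_one_iff_dvd _).mp h1
          obtain ⟨c, hc⟩ := this
          have h4 : 0 < N - j + S.card := by omega
          have h5 : N - j + S.card < 2 * N := by omega
          have h6 : c = 1 := by
            have : 0 < c := by
              rcases Nat.eq_zero_or_pos c with h0 | h0
              · rw [h0] at hc; omega
              · exact h0
            have : c < 2 := by
              by_contra hcon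
              push Not at hcon
              have : 2 * N ≤ N * c := by nlinarith
              omega
            omega
          rw [h6] at hc
          omega
        have hg : ∑ k ∈ range N, (ζ ^ (N - j + S.card)) ^ k = 0 := by
          have h7 := mul_neg_geom_sum (ζ ^ (N - j + S.card)) N
          have h8 : (ζ ^ (N - j + S.card)) ^ N = 1 := by
            rw [← pow_mul, mul_comm, pow_mul, hprim.pow_eq_one, one_pow]
          rw [h8, sub_self] at h7
          rcases mul_eq_zero.mp h7 with h9 | h9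
          · exact absurd (sub_eq_zero.mp h9).symm hne
          · exact h9
        rw [hg, mul_zero]
    rw [Finset.sum_congr rfl h2, ← Finset.sum_filter]
    have h3 : B.powerset.filter (fun S => S.card = j) = B.powersetCard j := by
      ext S; simp [Finset.mem_powersetCard]
    rw [h3, Finset.mul_sum, Finset.mul_sum]
  -- hence the bound
  have hle : (r ^ j * (1 - r) ^ (n - j)) * ‖∑ S ∈ B.powersetCard j, ∏ b ∈ S, f b‖ ≤ E := by
    have h1 : ‖∑ k ∈ range N, ζ ^ (k * (N - j)) * F (ζ ^ k)‖ ≤ N * E := by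
      refine le_trans (norm_sum_le _ _) ?_
      calc _ ≤ ∑ _k ∈ range N, E := by
            apply Finset.sum_le_sum
            intro k _
            rw [norm_mul, norm_pow, hζnorm, one_pow, one_mul]
            exact hFle _ (by rw [norm_pow, hζnorm, one_pow])
        _ = _ := by simp
    rw [hfilter, norm_mul, norm_mul, norm_mul, norm_pow, norm_pow, Complex.norm_natCast,
      Complex.norm_real, Complex.norm_real, Real.norm_of_nonneg hr0,
      Real.norm_of_nonneg (by linarith)] at h1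
    have hN' : (0 : ℝ) < N := by exact_mod_cast hNpos
    exact le_of_mul_le_mul_left h1 hN'
  have hm := mode_real n j hB hj
  rw [← hs, ← hr] at hm
  set e := ‖∑ S ∈ B.powersetCard j, ∏ b ∈ S, f b‖ with he
  have he0 : 0 ≤ e := norm_nonneg _
  calc e = e * 1 := (mul_one _).symm
    _ ≤ e * (((n : ℝ) + 1) * n.choose j * (r ^ j * (1 - r) ^ (n - j))) := by gcongr
    _ = (n.choose j : ℝ) * ((n : ℝ) + 1) * ((r ^ j * (1 - r) ^ (n - j)) * e) := by ring
    _ ≤ (n.choose j : ℝ) * ((n : ℝ) + 1) * E := by gcongr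
    _ = _ := by ring

/-- number of the `j`-subsets of `B` with product `c` -/
def cnt {p : ℕ} (B : Finset (ZMod p)) (j : ℕ) (c : ZMod p) : ℕ :=
  ((B.powersetCard j).filter (fun S => ∏ b ∈ S, b = c)).card

/-- **Equidistribution** of the products of the `j`-subsets of `B`. -/
theorem cnt_bound {p : ℕ} [hp : Fact p.Prime] (B : Finset (ZMod p)) (hB : 0 < B.card)
    (h0 : (0 : ZMod p) ∉ B) (κ : ℝ)
    (hκ : ∀ χ : DirichletCharacter ℂ p, χ ≠ 1 → ‖∑ b ∈ B, χ b‖ ≤ κ * B.card) (j : ℕ)
    (hj : j ≤ B.card) (c : ZMod p) (hc : c ≠ 0) :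
    |(cnt B j c : ℝ) - (B.card.choose j : ℝ) / (p - 1)| ≤ (B.card.choose j : ℝ) *
      (((B.card : ℝ) + 1) * Real.exp (-((1 - κ) * (j * ((B.card : ℝ) - j) / B.card)))) := by
  classical
  set Bd := (B.card.choose j : ℝ) *
      (((B.card : ℝ) + 1) * Real.exp (-((1 - κ) * (j * ((B.card : ℝ) - j) / B.card)))) with hBd
  have hcu : IsUnit c := isUnit_iff_ne_zero.mpr hc
  have hp1 : 1 < p := hp.out.one_lt
  have hBd0 : 0 ≤ Bd := by positivity
  have hval : ∀ χ : DirichletCharacter ℂ p, ∀ b ∈ B, ‖χ b‖ = 1 := by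
    intro χ b hb
    have hb0 : b ≠ 0 := fun h => h0 (h ▸ hb)
    have hu : IsUnit b := isUnit_iff_ne_zero.mpr hb0
    obtain ⟨u, rfl⟩ := hu
    exact χ.unit_norm_eq_one u
  -- count by characters
  have key : ((p : ℂ) - 1) * (cnt B j c : ℂ) = ∑ χ : DirichletCharacter ℂ p,
      χ c⁻¹ * ∑ S ∈ B.powersetCard j, ∏ b ∈ S, χ b := by
    have h1 : ∀ S ∈ B.powersetCard j, ∑ χ : DirichletCharacter ℂ p, χ c⁻¹ * ∏ b ∈ S, χ b =
        if (∏ b ∈ S, b) = c then ((p : ℂ) - 1) else 0 := by
      intro S _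
      have h2 := DirichletCharacter.sum_char_inv_mul_char_eq ℂ hcu (∏ b ∈ S, b)
      rw [Nat.totient_prime hp.out] at h2
      simp only [map_prod] at h2
      rw [h2]
      rw [Nat.cast_sub hp.out.one_le]
      simp only [Nat.cast_one, eq_comm]
    calc ((p : ℂ) - 1) * (cnt B j c : ℂ) = ∑ S ∈ B.powersetCard j,
          if (∏ b ∈ S, b) = c then ((p : ℂ) - 1) else 0 := by
          rw [cnt, ← Finset.sum_filter, Finset.sum_const, nsmul_eq_mul]
          ring
      _ = ∑ S ∈ B.powersetCard j, ∑ χ : DirichletCharacter ℂ p, χ c⁻¹ * ∏ b ∈ S, χ b :=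
          Finset.sum_congr rfl (fun S hS => (h1 S hS).symm)
      _ = _ := by
          rw [Finset.sum_comm]
          apply Finset.sum_congr rfl
          intro χ _
          rw [Finset.mul_sum]
  have hone : (1 : DirichletCharacter ℂ p) c⁻¹ * ∑ S ∈ B.powersetCard j,
      ∏ b ∈ S, (1 : DirichletCharacter ℂ p) b = (B.card.choose j : ℂ) := by
    have h1 : (1 : DirichletCharacter ℂ p) c⁻¹ = 1 := by
      apply MulChar.one_apply
      exact isUnit_iff_ne_zero.mpr (inv_ne_zero hc)
    have h2 : ∀ S ∈ B.powersetCard j, ∏ b ∈ S, (1 : DirichletCharacter ℂ p) b = 1 := by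
      intro S hS
      apply Finset.prod_eq_one
      intro b hb
      apply MulChar.one_apply
      have hb0 : b ≠ 0 := fun h => h0 (h ▸ (Finset.mem_powersetCard.mp hS).1 hb)
      exact isUnit_iff_ne_zero.mpr hb0
    rw [h1, one_mul, Finset.sum_congr rfl h2]
    simp [Finset.card_powersetCard]
  rw [← Finset.add_sum_erase _ _ (Finset.mem_univ (1 : DirichletCharacter ℂ p)), hone] at key
  set R := ∑ χ ∈ Finset.univ.erase (1 : DirichletCharacter ℂ p),
      χ c⁻¹ * ∑ S ∈ B.powersetCard j, ∏ b ∈ S, χ b with hR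
  have hRle : ‖R‖ ≤ ((p : ℝ) - 1) * Bd := by
    rw [hR]
    refine le_trans (norm_sum_le _ _) ?_
    calc _ ≤ ∑ _χ ∈ Finset.univ.erase (1 : DirichletCharacter ℂ p), Bd := by
          apply Finset.sum_le_sum
          intro χ hχ
          rw [norm_mul]
          have h1 : ‖χ c⁻¹‖ ≤ 1 := χ.norm_le_one _
          have h2 := esymm_bound B hB (fun b => χ b) (hval χ) κ
            (hκ χ (Finset.ne_of_mem_erase hχ)) j hj
          calc _ ≤ 1 * Bd := by
                apply mul_le_mul h1 h2 (norm_nonneg _) zero_le_one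
            _ = Bd := one_mul _
      _ = ((Finset.univ.erase (1 : DirichletCharacter ℂ p)).card : ℝ) * Bd := by simp
      _ ≤ ((p : ℝ) - 1) * Bd := by
          apply mul_le_mul_of_nonneg_right _ hBd0
          rw [Finset.card_erase_of_mem (Finset.mem_univ _), Finset.card_univ]
          have h3 : Fintype.card (DirichletCharacter ℂ p) = p.totient := by
            rw [← Nat.card_eq_fintype_card]
            exact DirichletCharacter.card_eq_totient_of_hasEnoughRootsOfUnity ℂ p
          rw [h3, Nat.totient_prime hp.out]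
          have : ((p - 1 - 1 : ℕ) : ℝ) ≤ ((p - 1 : ℕ) : ℝ) := by
            exact_mod_cast Nat.sub_le _ _
          rw [Nat.cast_sub hp.out.one_le] at this
          simpa using this
  have hpR : (0 : ℝ) < (p : ℝ) - 1 := by
    have : (1 : ℝ) < p := by exact_mod_cast hp1
    linarith
  have h5 : ((((p : ℝ) - 1) * ((cnt B j c : ℝ) - (B.card.choose j : ℝ) / (p - 1)) : ℝ) : ℂ) = R := by
    have : ((p : ℝ) - 1) * ((cnt B j c : ℝ) - (B.card.choose j : ℝ) / (p - 1)) =
        ((p : ℝ) - 1) * (cnt B j c : ℝ) - (B.card.choose j : ℝ) := by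
      field_simp
    rw [this]
    push_cast
    rw [key]
    ring
  have h6 : ((p : ℝ) - 1) * |(cnt B j c : ℝ) - (B.card.choose j : ℝ) / (p - 1)| ≤
      ((p : ℝ) - 1) * Bd := by
    rw [← abs_of_pos hpR, ← abs_mul, abs_of_pos hpR]
    rw [← Real.norm_eq_abs, ← Complex.norm_real, h5]
    exact hRle
  exact le_of_mul_le_mul_left h6 hpR

end MP1fb.LS
end

section
/-!
MP_1fb68e_nt, local shuffles: products over sets of places of a uniformly random permutation.
-/
set_option autoImplicit false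

namespace MP1fb.LS

open Finset

variable {β : Type*} [Fintype β] [DecidableEq β]

/-- a permutation which carries `I₁` to `J₁` and `I₂` to `J₂`. -/
lemma exists_perm_two (I₁ I₂ J₁ J₂ : Finset β) (hI : Disjoint I₁ I₂) (hJ : Disjoint J₁ J₂)
    (h1 : I₁.card = J₁.card) (h2 : I₂.card = J₂.card) :
    ∃ g : Equiv.Perm β, (∀ i, g i ∈ J₁ ↔ i ∈ I₁) ∧ (∀ i, g i ∈ J₂ ↔ i ∈ I₂) := by
  classical
  let lam : Finset β → Finset β → β → Fin 3 := fun A B i => if i ∈ A then 0 else if i ∈ B then 1 else 2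
  have hcard : ∀ k : Fin 3, Fintype.card {i // lam I₁ I₂ i = k} =
      Fintype.card {i // lam J₁ J₂ i = k} := by
    have c0 : ∀ A B : Finset β, Fintype.card {i // lam A B i = 0} = A.card := by
      intro A B
      rw [Fintype.card_subtype]
      congr 1
      ext i
      simp only [lam, mem_filter, mem_univ, true_and]
      split_ifs with ha hb <;> simp_all
    have c1 : ∀ A B : Finset β, Disjoint A B → Fintype.card {i // lam A B i = 1} = B.card := by
      intro A B hAB
      rw [Fintype.card_subtype]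
      congr 1
      ext i
      simp only [lam, mem_filter, mem_univ, true_and]
      have hdl : i ∈ A → i ∉ B := fun h => Finset.disjoint_left.mp hAB h
      split_ifs with ha hb <;> simp_all
    have c2 : ∀ A B : Finset β, Disjoint A B → Fintype.card {i // lam A B i = 2} =
        Fintype.card β - (A.card + B.card) := by
      intro A B hAB
      rw [Fintype.card_subtype, ← Finset.card_union_of_disjoint hAB, ← Finset.card_compl]
      congr 1
      ext i
      simp only [lam, mem_filter, mem_univ, true_and, mem_compl, mem_union]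
      split_ifs with ha hb <;> simp_all
    intro k
    fin_cases k
    · exact (c0 _ _).trans (h1.trans (c0 _ _).symm)
    · exact (c1 _ _ hI).trans (h2.trans (c1 _ _ hJ).symm)
    · refine (c2 _ _ hI).trans (Eq.trans ?_ (c2 _ _ hJ).symm)
      rw [h1, h2]
  let e : β ≃ β := (Equiv.sigmaFiberEquiv (lam I₁ I₂)).symm.trans
    ((Equiv.sigmaCongrRight fun k => Fintype.equivOfCardEq (hcard k)).trans
      (Equiv.sigmaFiberEquiv (lam J₁ J₂)))
  have he : ∀ i, lam J₁ J₂ (e i) = lam I₁ I₂ i := by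
    intro i
    exact ((Fintype.equivOfCardEq (hcard (lam I₁ I₂ i))) ⟨i, rfl⟩).2
  have z0 : ∀ (A B : Finset β) i, lam A B i = 0 ↔ i ∈ A := by
    intro A B i
    simp only [lam]
    split_ifs with ha hb <;> simp_all
  have z1 : ∀ (A B : Finset β), Disjoint A B → ∀ i, (lam A B i = 1 ↔ i ∈ B) := by
    intro A B hAB i
    have hdl : i ∈ A → i ∉ B := fun h => Finset.disjoint_left.mp hAB h
    simp only [lam]
    split_ifs with ha hb <;> simp_all
  refine ⟨e, fun i => ?_, fun i => ?_⟩
  · rw [← z0 J₁ J₂, he, z0]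
  · rw [← z1 J₁ J₂ hJ, he, z1 _ _ hI]

/-- number of permutations with two prescribed products of values. -/
def pairCount {R : Type*} [CommMonoid R] [DecidableEq R] (v : β → R) (I₁ I₂ : Finset β)
    (c₁ c₂ : R) : ℕ :=
  (univ.filter (fun π : Equiv.Perm β => ∏ i ∈ I₁, v (π i) = c₁ ∧ ∏ i ∈ I₂, v (π i) = c₂)).card

lemma pairCount_congr {R : Type*} [CommMonoid R] [DecidableEq R] (v : β → R)
    (I₁ I₂ J₁ J₂ : Finset β) (hI : Disjoint I₁ I₂) (hJ : Disjoint J₁ J₂)
    (h1 : I₁.card = J₁.card) (h2 : I₂.card = J₂.card) (c₁ c₂ : R) :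
    pairCount v I₁ I₂ c₁ c₂ = pairCount v J₁ J₂ c₁ c₂ := by
  obtain ⟨g, hg1, hg2⟩ := exists_perm_two I₁ I₂ J₁ J₂ hI hJ h1 h2
  have hprod : ∀ (I J : Finset β), (∀ i, g i ∈ J ↔ i ∈ I) → ∀ f : β → R,
      ∏ i ∈ I, f (g i) = ∏ j ∈ J, f j := by
    intro I J h f
    apply Finset.prod_bij (fun i _ => g i)
    · intro i hi; exact (h i).mpr hi
    · intro a _ b _ hab; exact g.injective hab
    · intro j hj
      refine ⟨g.symm j, ?_, by simp⟩
      rw [← h]; simpa using hj
    · intro i _; rfl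
  unfold pairCount
  apply Finset.card_bij (fun π _ => g.symm.trans π)
  · intro π hπ
    rw [Finset.mem_filter] at hπ ⊢
    refine ⟨mem_univ _, ?_, ?_⟩
    · rw [← hprod I₁ J₁ hg1]
      simpa using hπ.2.1
    · rw [← hprod I₂ J₂ hg2]
      simpa using hπ.2.2
  · intro a _ b _ hab
    have : g.trans (g.symm.trans a) = g.trans (g.symm.trans b) := by rw [hab]
    simpa [← Equiv.trans_assoc] using this
  · intro π hπ
    rw [Finset.mem_filter] at hπ
    refine ⟨g.trans π, ?_, ?_⟩
    · rw [Finset.mem_filter]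
      refine ⟨mem_univ _, ?_, ?_⟩
      · have := hprod I₁ J₁ hg1 (fun j => v (π j))
        simpa [this] using hπ.2.1
      · have := hprod I₂ J₂ hg2 (fun j => v (π j))
        simpa [this] using hπ.2.2
    · ext x; simp

/-- the pairs of disjoint sets with sizes `a`, `b` -/
def pairs (β : Type*) [Fintype β] [DecidableEq β] (a b : ℕ) : Finset (Finset β × Finset β) :=
  ((univ : Finset β).powersetCard a).biUnion (fun S => ((Sᶜ).powersetCard b).image (fun T => (S, T)))

lemma mem_pairs (a b : ℕ) (x : Finset β × Finset β) :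
    x ∈ pairs β a b ↔ x.1.card = a ∧ x.2.card = b ∧ Disjoint x.1 x.2 := by
  unfold pairs
  simp only [mem_biUnion, mem_powersetCard, subset_univ, true_and, mem_image]
  constructor
  · rintro ⟨S, hS, T, ⟨hT1, hT2⟩, rfl⟩
    refine ⟨hS, hT2, ?_⟩
    exact (Finset.disjoint_left.mpr (fun i hi hi2 => by
      have := hT1 hi2
      rw [mem_compl] at this
      exact this hi))
  · rintro ⟨h1, h2, h3⟩
    refine ⟨x.1, h1, x.2, ⟨?_, h2⟩, rfl⟩
    intro i hi
    rw [mem_compl]
    exact fun h => (Finset.disjoint_left.mp h3 h) hi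

lemma sum_pairs (a b : ℕ) (f : Finset β × Finset β → ℕ) :
    ∑ x ∈ pairs β a b, f x = ∑ S ∈ (univ : Finset β).powersetCard a,
      ∑ T ∈ (Sᶜ).powersetCard b, f (S, T) := by
  unfold pairs
  rw [Finset.sum_biUnion]
  · apply Finset.sum_congr rfl
    intro S _
    rw [Finset.sum_image]
    intro x _ y _ hxy
    exact (Prod.mk.inj hxy).2
  · intro S _ T _ hST
    rw [Function.onFun, Finset.disjoint_left]
    intro x hx hy
    simp only [mem_image] at hx hy
    obtain ⟨A, _, rfl⟩ := hx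
    obtain ⟨B, _, hB⟩ := hy
    exact hST (Prod.mk.inj hB).1.symm

lemma card_pairs (a b : ℕ) :
    (pairs β a b).card = (Fintype.card β).choose a * (Fintype.card β - a).choose b := by
  rw [Finset.card_eq_sum_ones, sum_pairs]
  have : ∀ S ∈ (univ : Finset β).powersetCard a, ∑ _T ∈ (Sᶜ).powersetCard b, 1 =
      (Fintype.card β - a).choose b := by
    intro S hS
    rw [← Finset.card_eq_sum_ones, Finset.card_powersetCard, Finset.card_compl,
      (Finset.mem_powersetCard.mp hS).2]
  rw [Finset.sum_congr rfl this, Finset.sum_const, Finset.card_powersetCard, Finset.card_univ,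
    smul_eq_mul]

/-- counting of permutations by counting of pairs of sets of values. -/
theorem pairCount_eq {R : Type*} [CommMonoid R] [DecidableEq R] (v : β → R) (I₁ I₂ : Finset β)
    (hI : Disjoint I₁ I₂) (c₁ c₂ : R) :
    pairCount v I₁ I₂ c₁ c₂ *
      ((Fintype.card β).choose I₁.card * (Fintype.card β - I₁.card).choose I₂.card) =
    (Fintype.card β).factorial * ∑ S ∈ ((univ : Finset β).powersetCard I₁.card).filter
      (fun S => ∏ i ∈ S, v i = c₁),
      (((Sᶜ).powersetCard I₂.card).filter (fun T => ∏ i ∈ T, v i = c₂)).card := by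
  classical
  set a := I₁.card with ha
  set b := I₂.card with hb
  -- left side as a double sum
  have e1 : pairCount v I₁ I₂ c₁ c₂ * ((Fintype.card β).choose a * (Fintype.card β - a).choose b) =
      ∑ x ∈ pairs β a b, pairCount v x.1 x.2 c₁ c₂ := by
    have : ∀ x ∈ pairs β a b, pairCount v x.1 x.2 c₁ c₂ = pairCount v I₁ I₂ c₁ c₂ := by
      intro x hx
      rw [mem_pairs] at hx
      exact pairCount_congr v x.1 x.2 I₁ I₂ hx.2.2 hI hx.1 hx.2.1 c₁ c₂
    rw [Finset.sum_congr rfl this, Finset.sum_const, card_pairs, smul_eq_mul, mul_comm]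
  rw [e1]
  have e2 : ∑ x ∈ pairs β a b, pairCount v x.1 x.2 c₁ c₂ =
      ∑ π : Equiv.Perm β, ∑ x ∈ pairs β a b,
        if (∏ i ∈ x.1, v (π i) = c₁ ∧ ∏ i ∈ x.2, v (π i) = c₂) then 1 else 0 := by
    rw [Finset.sum_comm]
    apply Finset.sum_congr rfl
    intro x _
    rw [pairCount, Finset.card_filter]
  rw [e2]
  have e3 : ∀ π : Equiv.Perm β, (∑ x ∈ pairs β a b,
        if (∏ i ∈ x.1, v (π i) = c₁ ∧ ∏ i ∈ x.2, v (π i) = c₂) then 1 else 0) =
      ∑ x ∈ pairs β a b, if (∏ i ∈ x.1, v i = c₁ ∧ ∏ i ∈ x.2, v i = c₂) then 1 else 0 := by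
    intro π
    apply Finset.sum_bij (fun x _ => (x.1.map π.toEmbedding, x.2.map π.toEmbedding))
    · intro x hx
      rw [mem_pairs] at hx ⊢
      refine ⟨by simpa using hx.1, by simpa using hx.2.1, ?_⟩
      simpa [Finset.disjoint_map] using hx.2.2
    · intro x _ y _ hxy
      have h1 := (Prod.mk.inj hxy).1
      have h2 := (Prod.mk.inj hxy).2
      exact Prod.ext (Finset.map_injective _ h1) (Finset.map_injective _ h2)
    · intro y hy
      rw [mem_pairs] at hy
      refine ⟨(y.1.map π.symm.toEmbedding, y.2.map π.symm.toEmbedding), ?_, ?_⟩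
      · rw [mem_pairs]
        refine ⟨by simpa using hy.1, by simpa using hy.2.1, ?_⟩
        simpa [Finset.disjoint_map] using hy.2.2
      · ext i <;> simp
    · intro x _
      simp
  rw [Finset.sum_congr rfl (fun π _ => e3 π), Finset.sum_const, Finset.card_univ,
    Fintype.card_perm, smul_eq_mul]
  congr 1
  rw [sum_pairs, Finset.sum_filter]
  apply Finset.sum_congr rfl
  intro S _
  by_cases hS : ∏ i ∈ S, v i = c₁
  · rw [if_pos hS, Finset.card_filter]
    apply Finset.sum_congr rfl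
    intro T _
    simp only [hS, true_and]
  · rw [if_neg hS]
    apply Finset.sum_eq_zero
    intro T _
    rw [if_neg (fun h => hS h.1)]

end MP1fb.LS
end

section
/-!
MP_1fb68e_nt, local shuffles: bounds for the number of `j`-subsets with a given product.
-/
set_option autoImplicit false

namespace MP1fb.LS

open Finset

variable {p : ℕ} [hp : Fact p.Prime]

omit hp in
lemma prod_ne_zero_of [Fact p.Prime] (B S : Finset (ZMod p)) (h0 : (0 : ZMod p) ∉ B) (hS : S ⊆ B) :
    ∏ b ∈ S, b ≠ 0 := by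
  rw [Finset.prod_ne_zero_iff]
  intro b hb h
  exact h0 (h ▸ hS hb)

/-- passage to the complement -/
lemma cnt_compl (B : Finset (ZMod p)) (h0 : (0 : ZMod p) ∉ B) (j : ℕ) (hj : j ≤ B.card)
    (c : ZMod p) (hc : c ≠ 0) :
    cnt B j c = cnt B (B.card - j) ((∏ b ∈ B, b) / c) := by
  unfold cnt
  have hBne : ∏ b ∈ B, b ≠ 0 := prod_ne_zero_of B B h0 Finset.Subset.rfl
  apply Finset.card_bij (fun S _ => B \ S)
  · intro S hS
    rw [Finset.mem_filter, Finset.mem_powersetCard] at hS ⊢
    obtain ⟨⟨hS1, hS2⟩, hS3⟩ := hS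
    refine ⟨⟨Finset.sdiff_subset, ?_⟩, ?_⟩
    · rw [Finset.card_sdiff_of_subset hS1, hS2]
    · have h1 := Finset.prod_sdiff (f := fun b : ZMod p => b) hS1
      rw [hS3] at h1
      rw [← h1]
      field_simp
  · intro S hS T hT hST
    rw [Finset.mem_filter, Finset.mem_powersetCard] at hS hT
    have h1 : B \ (B \ S) = B \ (B \ T) := by rw [hST]
    rwa [Finset.sdiff_sdiff_eq_self hS.1.1, Finset.sdiff_sdiff_eq_self hT.1.1] at h1
  · intro T hT
    rw [Finset.mem_filter, Finset.mem_powersetCard] at hT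
    obtain ⟨⟨hT1, hT2⟩, hT3⟩ := hT
    refine ⟨B \ T, ?_, Finset.sdiff_sdiff_eq_self hT1⟩
    rw [Finset.mem_filter, Finset.mem_powersetCard]
    refine ⟨⟨Finset.sdiff_subset, ?_⟩, ?_⟩
    · rw [Finset.card_sdiff_of_subset hT1, hT2]; omega
    · have h1 := Finset.prod_sdiff (f := fun b : ZMod p => b) hT1
      rw [hT3] at h1
      have h2 : (∏ b ∈ B \ T, b) * (∏ b ∈ B, b) = c * (∏ b ∈ B, b) := by
        have : (∏ b ∈ B \ T, b) * ((∏ b ∈ B, b) / c) * c = (∏ b ∈ B \ T, b) * (∏ b ∈ B, b) := by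
          field_simp
        rw [← this, h1, mul_comm]
      exact mul_right_cancel₀ hBne h2

lemma cnt_mul_le (B : Finset (ZMod p)) (h0 : (0 : ZMod p) ∉ B) (j : ℕ) (c : ZMod p) (hc : c ≠ 0) :
    (j + 1) * cnt B (j + 1) c ≤ B.card.choose j := by
  classical
  set F := (B.powersetCard (j + 1)).filter (fun S => ∏ b ∈ S, b = c) with hF
  have h1 : (F.sigma (fun S => S)).card = (j + 1) * F.card := by
    rw [Finset.card_sigma]
    rw [Finset.sum_congr rfl (g := fun _ => j + 1)]
    · rw [Finset.sum_const, smul_eq_mul, mul_comm]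
    · intro S hS
      rw [hF, Finset.mem_filter, Finset.mem_powersetCard] at hS
      exact hS.1.2
  have h2 : (F.sigma (fun S => S)).card ≤ (B.powersetCard j).card := by
    apply Finset.card_le_card_of_injOn (fun x => x.1.erase x.2)
    · rintro ⟨S, b⟩ hx
      simp only [Finset.coe_sigma, Set.mem_sigma_iff, Finset.mem_coe] at hx
      obtain ⟨hS, hb⟩ := hx
      rw [hF, Finset.mem_filter, Finset.mem_powersetCard] at hS
      rw [Finset.mem_coe, Finset.mem_powersetCard]
      refine ⟨?_, ?_⟩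
      · exact (Finset.erase_subset _ _).trans hS.1.1
      · rw [Finset.card_erase_of_mem hb, hS.1.2]; rfl
    · rintro ⟨S, b⟩ hx ⟨T, d⟩ hy hxy
      simp only [Finset.coe_sigma, Set.mem_sigma_iff, Finset.mem_coe] at hx hy
      obtain ⟨hS, hb⟩ := hx
      obtain ⟨hT, hd⟩ := hy
      rw [hF, Finset.mem_filter, Finset.mem_powersetCard] at hS hT
      simp only at hxy
      have e1 : b * ∏ x ∈ S.erase b, x = c := by
        rw [Finset.mul_prod_erase S (fun x => x) hb]; exact hS.2
      have e2 : d * ∏ x ∈ T.erase d, x = c := by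
        rw [Finset.mul_prod_erase T (fun x => x) hd]; exact hT.2
      have e3 : ∏ x ∈ S.erase b, x ≠ 0 :=
        prod_ne_zero_of B _ h0 ((Finset.erase_subset _ _).trans hS.1.1)
      have e4 : b = d := by
        rw [← hxy] at e2
        exact mul_right_cancel₀ e3 (e1.trans e2.symm)
      subst e4
      have e5 : S = T := by
        rw [← Finset.insert_erase hb, ← Finset.insert_erase hd, hxy]
      subst e5
      rfl
  rw [h1, Finset.card_powersetCard] at h2
  exact h2

lemma cnt_triv_low (B : Finset (ZMod p)) (h0 : (0 : ZMod p) ∉ B) (j : ℕ) (hj : 1 ≤ j)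
    (hj' : j ≤ B.card) (c : ZMod p) (hc : c ≠ 0) :
    cnt B j c * (B.card - j + 1) ≤ B.card.choose j := by
  obtain ⟨i, rfl⟩ : ∃ i, j = i + 1 := ⟨j - 1, by omega⟩
  have h1 := cnt_mul_le B h0 i c hc
  have h2 := Nat.choose_succ_right_eq B.card i
  -- choose (i+1) * (i+1) = choose i * (card - i)
  have h3 : B.card - (i + 1) + 1 = B.card - i := by omega
  rw [h3]
  have h4 : (i + 1) * (cnt B (i + 1) c * (B.card - i)) ≤ (i + 1) * B.card.choose (i + 1) := by
    calc (i + 1) * (cnt B (i + 1) c * (B.card - i))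
        = ((i + 1) * cnt B (i + 1) c) * (B.card - i) := by ring
      _ ≤ B.card.choose i * (B.card - i) := Nat.mul_le_mul_right _ h1
      _ = (i + 1) * B.card.choose (i + 1) := by rw [← h2]; ring
  exact Nat.le_of_mul_le_mul_left h4 (by omega)

/-- the trivial bound -/
theorem cnt_triv (B : Finset (ZMod p)) (h0 : (0 : ZMod p) ∉ B) (j : ℕ) (hj : 1 ≤ j)
    (hj' : j + 1 ≤ B.card) (c : ZMod p) (hc : c ≠ 0) :
    (cnt B j c : ℝ) ≤ 2 / B.card * (B.card.choose j : ℝ) := by
  have hBpos : (0 : ℝ) < B.card := by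
    have : 0 < B.card := by omega
    exact_mod_cast this
  have key : cnt B j c * B.card ≤ 2 * B.card.choose j := by
    rcases le_or_gt (2 * j) B.card with h | h
    · have h1 := cnt_triv_low B h0 j hj (by omega) c hc
      have h2 : B.card ≤ 2 * (B.card - j + 1) := by omega
      calc cnt B j c * B.card ≤ cnt B j c * (2 * (B.card - j + 1)) := Nat.mul_le_mul_left _ h2
        _ = 2 * (cnt B j c * (B.card - j + 1)) := by ring
        _ ≤ 2 * B.card.choose j := Nat.mul_le_mul_left _ h1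
    · have hBne : ∏ b ∈ B, b ≠ 0 := prod_ne_zero_of B B h0 Finset.Subset.rfl
      have h1 := cnt_triv_low B h0 (B.card - j) (by omega) (by omega) ((∏ b ∈ B, b) / c)
        (div_ne_zero hBne hc)
      rw [← cnt_compl B h0 j (by omega) c hc, Nat.choose_symm (by omega)] at h1
      have h2 : B.card ≤ 2 * (B.card - (B.card - j) + 1) := by omega
      calc cnt B j c * B.card ≤ cnt B j c * (2 * (B.card - (B.card - j) + 1)) :=
            Nat.mul_le_mul_left _ h2
        _ = 2 * (cnt B j c * (B.card - (B.card - j) + 1)) := by ring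
        _ ≤ 2 * B.card.choose j := Nat.mul_le_mul_left _ h1
  have key2 : (cnt B j c : ℝ) * B.card ≤ 2 * (B.card.choose j : ℝ) := by exact_mod_cast key
  rw [div_mul_eq_mul_div, le_div_iff₀ hBpos]
  exact key2

/-- the bound in the middle -/
theorem cnt_mid (hp3 : 3 ≤ p) (B : Finset (ZMod p)) (h0 : (0 : ZMod p) ∉ B)
    (hχ : ∀ χ : DirichletCharacter ℂ p, χ ≠ 1 → ‖∑ b ∈ B, χ b‖ ≤ 11 / 16 * B.card)
    (G : ℕ) (hG : 32 * Real.log p ≤ G) (j : ℕ) (hj : G ≤ j) (hj' : j + G ≤ B.card) (c : ZMod p)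
    (hc : c ≠ 0) :
    |(cnt B j c : ℝ) - (B.card.choose j : ℝ) / (p - 1)| ≤
      (B.card.choose j : ℝ) * (1 / (p : ℝ) ^ 4) := by
  have hp0 : (0 : ℝ) < p := by
    have : 0 < p := by omega
    exact_mod_cast this
  have hlog : 1 < Real.log p := by
    have h3 : (3 : ℝ) ≤ p := by exact_mod_cast hp3
    have h4 : Real.exp 1 < 3 := Real.exp_one_lt_three
    calc (1 : ℝ) = Real.log (Real.exp 1) := by simp
      _ < Real.log 3 := Real.log_lt_log (Real.exp_pos _) h4
      _ ≤ Real.log p := Real.log_le_log (by norm_num) h3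
  have hG1 : 1 ≤ G := by
    by_contra h
    have : G = 0 := by omega
    rw [this] at hG
    simp only [Nat.cast_zero] at hG
    linarith
  have hBpos : 0 < B.card := by omega
  have hBR : (0 : ℝ) < B.card := by exact_mod_cast hBpos
  have hBp : B.card + 1 ≤ p := by
    have h1 : (insert (0 : ZMod p) B).card ≤ Fintype.card (ZMod p) := Finset.card_le_univ _
    rw [Finset.card_insert_of_notMem h0, ZMod.card] at h1
    exact h1
  have hmain := cnt_bound B hBpos h0 (11 / 16) hχ j (by omega) c hc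
  refine hmain.trans ?_
  apply mul_le_mul_of_nonneg_left _ (by positivity)
  have hexp : 5 * Real.log p ≤ (1 - 11 / 16) * (j * ((B.card : ℝ) - j) / B.card) := by
    have hjR : (G : ℝ) ≤ j := by exact_mod_cast hj
    have hjR' : (G : ℝ) ≤ B.card - j := by
      have : (j : ℝ) + G ≤ B.card := by exact_mod_cast hj'
      linarith
    have hG0 : (0 : ℝ) ≤ G := by positivity
    have h1 : (G : ℝ) / 2 ≤ j * ((B.card : ℝ) - j) / B.card := by
      rw [le_div_iff₀ hBR]
      nlinarith [mul_nonneg (sub_nonneg.mpr hjR) (sub_nonneg.mpr hjR'),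
        mul_nonneg hG0 (sub_nonneg.mpr hjR), mul_nonneg hG0 (sub_nonneg.mpr hjR')]
    nlinarith
  calc ((B.card : ℝ) + 1) * Real.exp (-((1 - 11 / 16) * (j * ((B.card : ℝ) - j) / B.card)))
      ≤ p * Real.exp (-(5 * Real.log p)) := by
        apply mul_le_mul _ _ (Real.exp_pos _).le hp0.le
        · exact_mod_cast hBp
        · exact Real.exp_le_exp.mpr (by linarith)
    _ = 1 / (p : ℝ) ^ 4 := by
        rw [Real.exp_neg, show (5 : ℝ) * Real.log p = ((5 : ℕ) : ℝ) * Real.log p by norm_num,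
          Real.exp_nat_mul, Real.exp_log hp0]
        field_simp

end MP1fb.LS
end

section
/-!
MP_1fb68e_nt, local shuffles: probabilities of one and of two prescribed products.
-/
set_option autoImplicit false

namespace MP1fb.LS

open Finset

variable {p : ℕ} [hp : Fact p.Prime] {β : Type*} [Fintype β] [DecidableEq β]

omit hp [Fintype β] in
lemma img_cnt (v : β → ZMod p) (hv : Function.Injective v) (A : Finset β) (b : ℕ) (c : ZMod p) :
    ((A.powersetCard b).filter (fun T => ∏ i ∈ T, v i = c)).card = cnt (A.image v) b c := by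
  classical
  unfold cnt
  apply Finset.card_bij (fun T _ => T.image v)
  · intro T hT
    rw [Finset.mem_filter, Finset.mem_powersetCard] at hT ⊢
    refine ⟨⟨Finset.image_subset_image hT.1.1, ?_⟩, ?_⟩
    · rw [Finset.card_image_of_injective _ hv, hT.1.2]
    · rw [Finset.prod_image (fun x _ y _ h => hv h)]
      exact hT.2
  · intro S _ T _ hST
    exact Finset.image_injective hv hST
  · intro T' hT'
    rw [Finset.mem_filter, Finset.mem_powersetCard] at hT'
    have himg : (A.filter (fun i => v i ∈ T')).image v = T' := by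
      ext y
      simp only [Finset.mem_image, Finset.mem_filter]
      constructor
      · rintro ⟨i, ⟨_, hi⟩, rfl⟩; exact hi
      · intro hy
        have := hT'.1.1 hy
        rw [Finset.mem_image] at this
        obtain ⟨i, hi, rfl⟩ := this
        exact ⟨i, ⟨hi, hy⟩, rfl⟩
    refine ⟨A.filter (fun i => v i ∈ T'), ?_, himg⟩
    rw [Finset.mem_filter, Finset.mem_powersetCard]
    refine ⟨⟨Finset.filter_subset _ _, ?_⟩, ?_⟩
    · rw [← Finset.card_image_of_injective _ hv, himg, hT'.1.2]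
    · rw [← Finset.prod_image (f := fun y => y) (g := v) (fun x _ y _ h => hv h), himg]
      exact hT'.2

/-- number of the permutations with a prescribed product over the places in `I` -/
def oneCount (v : β → ZMod p) (I : Finset β) (c : ZMod p) : ℕ :=
  (univ.filter (fun π : Equiv.Perm β => ∏ i ∈ I, v (π i) = c)).card

omit hp in
lemma oneCount_eq (v : β → ZMod p) (hv : Function.Injective v) (I : Finset β) (c : ZMod p) :
    oneCount v I c * (Fintype.card β).choose I.card =
      (Fintype.card β).factorial * cnt (univ.image v) I.card c := by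
  classical
  have h1 := pairCount_eq v I ∅ (Finset.disjoint_empty_right I) c 1
  have h2 : pairCount v I ∅ c 1 = oneCount v I c := by
    unfold pairCount oneCount
    congr 1
    ext π
    simp
  rw [h2, Finset.card_empty, Nat.choose_zero_right, mul_one] at h1
  rw [h1]
  congr 1
  rw [← img_cnt v hv univ I.card c]
  refine (Finset.sum_congr rfl (fun S _ => ?_)).trans (Finset.card_eq_sum_ones _).symm
  rw [Finset.powersetCard_zero, Finset.filter_singleton, if_pos (by simp), Finset.card_singleton]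

omit hp in
lemma card_image_univ (v : β → ZMod p) (hv : Function.Injective v) :
    ((univ : Finset β).image v).card = Fintype.card β := by
  rw [Finset.card_image_of_injective _ hv, Finset.card_univ]

lemma zero_notMem_image (v : β → ZMod p) (h0 : ∀ i, v i ≠ 0) (A : Finset β) :
    (0 : ZMod p) ∉ A.image v := by
  rw [Finset.mem_image]
  rintro ⟨i, _, hi⟩
  exact h0 i hi

/-- the trivial bound for one product -/
theorem one_triv (v : β → ZMod p) (hv : Function.Injective v) (h0 : ∀ i, v i ≠ 0) (I : Finset β)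
    (h1 : 1 ≤ I.card) (h2 : I.card + 1 ≤ Fintype.card β) (c : ZMod p) (hc : c ≠ 0) :
    (oneCount v I c : ℝ) ≤ 2 / (Fintype.card β : ℝ) * (Fintype.card β).factorial := by
  have hch : (0 : ℝ) < ((Fintype.card β).choose I.card : ℝ) := by
    exact_mod_cast Nat.choose_pos (by omega)
  have e1 : (oneCount v I c : ℝ) * (Fintype.card β).choose I.card =
      (Fintype.card β).factorial * cnt (univ.image v) I.card c := by
    exact_mod_cast oneCount_eq v hv I c
  have e2 := cnt_triv (univ.image v) (zero_notMem_image v h0 univ) I.card h1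
    (by rw [card_image_univ v hv]; exact h2) c hc
  rw [card_image_univ v hv] at e2
  refine le_of_mul_le_mul_right ?_ hch
  rw [e1]
  calc ((Fintype.card β).factorial : ℝ) * cnt (univ.image v) I.card c
      ≤ (Fintype.card β).factorial * (2 / (Fintype.card β : ℝ) * (Fintype.card β).choose I.card) := by
        gcongr
    _ = _ := by ring

/-- one product, middle size -/
theorem one_mid (hp3 : 3 ≤ p) (v : β → ZMod p) (hv : Function.Injective v) (h0 : ∀ i, v i ≠ 0)
    (hχ : ∀ χ : DirichletCharacter ℂ p, χ ≠ 1 → ‖∑ i, χ (v i)‖ ≤ (Fintype.card β : ℝ) / 8)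
    (G : ℕ) (hG : 32 * Real.log p ≤ G) (I : Finset β)
    (h1 : G ≤ I.card) (h2 : I.card + G ≤ Fintype.card β) (c : ZMod p) (hc : c ≠ 0) :
    |(oneCount v I c : ℝ) - (Fintype.card β).factorial / (p - 1)| ≤
      (Fintype.card β).factorial * (1 / (p : ℝ) ^ 4) := by
  have hch : (0 : ℝ) < ((Fintype.card β).choose I.card : ℝ) := by
    exact_mod_cast Nat.choose_pos (by omega)
  have e1 : (oneCount v I c : ℝ) * (Fintype.card β).choose I.card =
      (Fintype.card β).factorial * cnt (univ.image v) I.card c := by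
    exact_mod_cast oneCount_eq v hv I c
  have e2 := cnt_mid hp3 (univ.image v) (zero_notMem_image v h0 univ) (by
    intro χ hχ1
    rw [card_image_univ v hv, Finset.sum_image (fun x _ y _ h => hv h)]
    have := hχ χ hχ1
    have h3 : (0 : ℝ) ≤ Fintype.card β := by positivity
    linarith) G hG I.card h1 (by rw [card_image_univ v hv]; exact h2) c hc
  rw [card_image_univ v hv] at e2
  refine le_of_mul_le_mul_right ?_ hch
  calc |(oneCount v I c : ℝ) - (Fintype.card β).factorial / (p - 1)| *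
        ((Fintype.card β).choose I.card : ℝ)
      = |((oneCount v I c : ℝ) - (Fintype.card β).factorial / (p - 1)) *
        ((Fintype.card β).choose I.card : ℝ)| := by
        rw [abs_mul, abs_of_pos hch]
    _ = |((Fintype.card β).factorial : ℝ) * ((cnt (univ.image v) I.card c : ℝ) -
        ((Fintype.card β).choose I.card : ℝ) / (p - 1))| := by
        congr 1
        rw [sub_mul, e1]; ring
    _ = ((Fintype.card β).factorial : ℝ) * |((cnt (univ.image v) I.card c : ℝ) -
        ((Fintype.card β).choose I.card : ℝ) / (p - 1))| := by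
        rw [abs_mul, Nat.abs_cast]
    _ ≤ ((Fintype.card β).factorial : ℝ) * (((Fintype.card β).choose I.card : ℝ) *
        (1 / (p : ℝ) ^ 4)) := by gcongr
    _ = _ := by ring

/-- size of the probability of a product over `a` places -/
noncomputable def bigF (p ℓ G a : ℕ) : ℝ := if a < G then 3 / (ℓ : ℝ) else 2 / ((p : ℝ) - 1)

lemma bigF_nonneg (hp3 : 3 ≤ p) (ℓ G a : ℕ) : 0 ≤ bigF p ℓ G a := by
  unfold bigF
  have : (3 : ℝ) ≤ p := by exact_mod_cast hp3
  split_ifs
  · positivity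
  · apply div_nonneg (by norm_num); linarith

/-- two products, the sizes being the two smaller ones -/
theorem pair_le_aux (hp3 : 3 ≤ p) (v : β → ZMod p) (hv : Function.Injective v)
    (h0 : ∀ i, v i ≠ 0)
    (hχ : ∀ χ : DirichletCharacter ℂ p, χ ≠ 1 → ‖∑ i, χ (v i)‖ ≤ (Fintype.card β : ℝ) / 8)
    (G : ℕ) (hG : 32 * Real.log p ≤ G) (I J : Finset β) (hIJ : Disjoint I J)
    (hI : 1 ≤ I.card) (hIJc : I.card ≤ J.card) (h3 : I.card + 2 * J.card ≤ Fintype.card β)
    (c d : ZMod p) (hc : c ≠ 0) (hd : d ≠ 0) :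
    (pairCount v I J c d : ℝ) ≤ (Fintype.card β).factorial *
      (bigF p (Fintype.card β) G I.card * bigF p (Fintype.card β) G J.card) := by
  classical
  set ℓ := Fintype.card β with hℓ
  set a := I.card with ha
  set b := J.card with hb
  have hp3R : (3 : ℝ) ≤ p := by exact_mod_cast hp3
  have hp4 : 1 / (p : ℝ) ^ 4 ≤ 1 / ((p : ℝ) - 1) := by
    apply one_div_le_one_div_of_le (by linarith)
    nlinarith [pow_nonneg (show (0 : ℝ) ≤ p by linarith) 3, pow_le_pow_left₀ (by norm_num) hp3R 3,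
      sq_nonneg (p : ℝ)]
  have hℓ0 : 0 < ℓ := by omega
  have hℓR : (0 : ℝ) < ℓ := by exact_mod_cast hℓ0
  have h3a : 3 * a ≤ ℓ := by omega
  have h3aR : 3 * (a : ℝ) ≤ ℓ := by exact_mod_cast h3a
  have habR : (a : ℝ) ≤ b := by exact_mod_cast hIJc
  have hF0 : ∀ x, 0 ≤ bigF p ℓ G x := fun x => bigF_nonneg hp3 ℓ G x
  -- bound for the first product
  have hfa : (cnt (univ.image v) a c : ℝ) ≤ bigF p ℓ G a * (ℓ.choose a : ℝ) := by
    unfold bigF
    split_ifs with hlt
    · have e2 := cnt_triv (univ.image v) (zero_notMem_image v h0 univ) a hI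
        (by rw [card_image_univ v hv]; omega) c hc
      rw [card_image_univ v hv] at e2
      refine e2.trans ?_
      apply mul_le_mul_of_nonneg_right _ (by positivity)
      apply div_le_div_of_nonneg_right (by norm_num) hℓR.le
    · have e2 := cnt_mid hp3 (univ.image v) (zero_notMem_image v h0 univ) (by
        intro χ hχ1
        rw [card_image_univ v hv, Finset.sum_image (fun x _ y _ h => hv h)]
        have := hχ χ hχ1
        linarith) G hG a (by omega) (by rw [card_image_univ v hv]; omega) c hc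
      rw [card_image_univ v hv] at e2
      have e3 := (abs_le.mp e2).2
      have e4 : (ℓ.choose a : ℝ) * (1 / (p : ℝ) ^ 4) ≤ (ℓ.choose a : ℝ) * (1 / ((p : ℝ) - 1)) :=
        mul_le_mul_of_nonneg_left hp4 (by positivity)
      have e5 : 2 / ((p : ℝ) - 1) * (ℓ.choose a : ℝ) = (ℓ.choose a : ℝ) / (p - 1) +
          (ℓ.choose a : ℝ) * (1 / ((p : ℝ) - 1)) := by ring
      rw [e5]
      linarith
  -- bound for the second product
  have hfb : ∀ S : Finset β, S.card = a → (cnt (Sᶜ.image v) b d : ℝ) ≤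
      bigF p ℓ G b * ((ℓ - a).choose b : ℝ) := by
    intro S hS
    have hcard : (Sᶜ.image v).card = ℓ - a := by
      rw [Finset.card_image_of_injective _ hv, Finset.card_compl, hS]
    have hcR : ((ℓ - a : ℕ) : ℝ) = ℓ - a := by
      rw [Nat.cast_sub (by omega)]
    unfold bigF
    split_ifs with hlt
    · have e2 := cnt_triv (Sᶜ.image v) (zero_notMem_image v h0 _) b (by omega)
        (by rw [hcard]; omega) d hd
      rw [hcard] at e2
      refine e2.trans ?_
      apply mul_le_mul_of_nonneg_right _ (by positivity)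
      rw [hcR, div_le_div_iff₀ (by linarith) hℓR]
      linarith
    · have e2 := cnt_mid hp3 (Sᶜ.image v) (zero_notMem_image v h0 _) (by
        intro χ hχ1
        rw [hcard, Finset.sum_image (fun x _ y _ h => hv h)]
        have h4 := hχ χ hχ1
        have h5 : ∑ i ∈ Sᶜ, χ (v i) = ∑ i, χ (v i) - ∑ i ∈ S, χ (v i) := by
          rw [← Finset.sum_add_sum_compl S (fun i => χ (v i))]; ring
        have h6 : ‖∑ i ∈ S, χ (v i)‖ ≤ a := by
          calc ‖∑ i ∈ S, χ (v i)‖ ≤ ∑ i ∈ S, ‖χ (v i)‖ := norm_sum_le _ _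
            _ ≤ ∑ i ∈ S, 1 := Finset.sum_le_sum (fun i _ => DirichletCharacter.norm_le_one χ _)
            _ = a := by rw [Finset.sum_const, hS]; simp
        rw [h5, hcR]
        have h7 := norm_sub_le (∑ i, χ (v i)) (∑ i ∈ S, χ (v i))
        linarith) G hG b (by omega) (by rw [hcard]; omega) d hd
      rw [hcard] at e2
      have e3 := (abs_le.mp e2).2
      have e4 : ((ℓ - a).choose b : ℝ) * (1 / (p : ℝ) ^ 4) ≤
          ((ℓ - a).choose b : ℝ) * (1 / ((p : ℝ) - 1)) :=
        mul_le_mul_of_nonneg_left hp4 (by positivity)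
      have e5 : 2 / ((p : ℝ) - 1) * ((ℓ - a).choose b : ℝ) = ((ℓ - a).choose b : ℝ) / (p - 1) +
          ((ℓ - a).choose b : ℝ) * (1 / ((p : ℝ) - 1)) := by ring
      rw [e5]
      linarith
  have hch1 : (0 : ℝ) < (ℓ.choose a : ℝ) := by exact_mod_cast Nat.choose_pos (by omega)
  have hch2 : (0 : ℝ) < ((ℓ - a).choose b : ℝ) := by exact_mod_cast Nat.choose_pos (by omega)
  have key := pairCount_eq v I J hIJ c d
  rw [← hℓ, ← ha, ← hb] at key
  have keyR : (pairCount v I J c d : ℝ) * ((ℓ.choose a : ℝ) * ((ℓ - a).choose b : ℝ)) =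
      (ℓ.factorial : ℝ) * ∑ S ∈ ((univ : Finset β).powersetCard a).filter
        (fun S => ∏ i ∈ S, v i = c), (cnt (Sᶜ.image v) b d : ℝ) := by
    have : ∀ S ∈ ((univ : Finset β).powersetCard a).filter (fun S => ∏ i ∈ S, v i = c),
        (((Sᶜ).powersetCard b).filter (fun T => ∏ i ∈ T, v i = d)).card =
          cnt (Sᶜ.image v) b d := fun S _ => img_cnt v hv _ b d
    rw [Finset.sum_congr rfl this] at key
    exact_mod_cast key
  refine le_of_mul_le_mul_right ?_ (mul_pos hch1 hch2)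
  rw [keyR]
  calc (ℓ.factorial : ℝ) * ∑ S ∈ ((univ : Finset β).powersetCard a).filter
        (fun S => ∏ i ∈ S, v i = c), (cnt (Sᶜ.image v) b d : ℝ)
      ≤ (ℓ.factorial : ℝ) * ∑ _S ∈ ((univ : Finset β).powersetCard a).filter
        (fun S => ∏ i ∈ S, v i = c), (bigF p ℓ G b * ((ℓ - a).choose b : ℝ)) := by
        apply mul_le_mul_of_nonneg_left _ (by positivity)
        apply Finset.sum_le_sum
        intro S hS
        rw [Finset.mem_filter, Finset.mem_powersetCard] at hS
        exact hfb S hS.1.2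
    _ = (ℓ.factorial : ℝ) * ((cnt (univ.image v) a c : ℝ) *
        (bigF p ℓ G b * ((ℓ - a).choose b : ℝ))) := by
        rw [Finset.sum_const, nsmul_eq_mul, img_cnt v hv univ a c]
    _ ≤ (ℓ.factorial : ℝ) * ((bigF p ℓ G a * (ℓ.choose a : ℝ)) *
        (bigF p ℓ G b * ((ℓ - a).choose b : ℝ))) := by
        apply mul_le_mul_of_nonneg_left _ (by positivity)
        apply mul_le_mul_of_nonneg_right hfa
        exact mul_nonneg (hF0 b) hch2.le
    _ = _ := by ring

omit hp in
lemma pairCount_comm (v : β → ZMod p) (I J : Finset β) (c d : ZMod p) :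
    pairCount v I J c d = pairCount v J I d c := by
  unfold pairCount
  congr 1
  ext π
  simp only [mem_filter, mem_univ, true_and]
  exact and_comm

/-- exchange with the third set -/
lemma pairCount_third (v : β → ZMod p) (h0 : ∀ i, v i ≠ 0) (I J K : Finset β)
    (hIJ : Disjoint I J) (hK : K = (I ∪ J)ᶜ) (c d : ZMod p) (hc : c ≠ 0) (hd : d ≠ 0) :
    pairCount v I J c d ≤ pairCount v I K c ((∏ i, v i) / (c * d)) := by
  unfold pairCount
  apply Finset.card_le_card
  intro π hπ
  rw [Finset.mem_filter] at hπ ⊢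
  refine ⟨hπ.1, hπ.2.1, ?_⟩
  have h1 : ∏ i, v (π i) = ∏ i, v i := Equiv.prod_comp π v
  have h2 := Finset.prod_mul_prod_compl (I ∪ J) (fun i => v (π i))
  rw [Finset.prod_union hIJ, hπ.2.1, hπ.2.2, ← hK, h1] at h2
  rw [← h2]
  field_simp

/-- **two products** -/
theorem pair_le (hp3 : 3 ≤ p) (v : β → ZMod p) (hv : Function.Injective v)
    (h0 : ∀ i, v i ≠ 0)
    (hχ : ∀ χ : DirichletCharacter ℂ p, χ ≠ 1 → ‖∑ i, χ (v i)‖ ≤ (Fintype.card β : ℝ) / 8)
    (G : ℕ) (hG : 32 * Real.log p ≤ G) (I J K : Finset β) (hIJ : Disjoint I J)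
    (hK : K = (I ∪ J)ᶜ) (hI : 1 ≤ I.card) (hJ : 1 ≤ J.card) (hK1 : 1 ≤ K.card)
    (c d : ZMod p) (hc : c ≠ 0) (hd : d ≠ 0) :
    (pairCount v I J c d : ℝ) ≤ (Fintype.card β).factorial *
      (bigF p (Fintype.card β) G I.card * bigF p (Fintype.card β) G J.card +
       bigF p (Fintype.card β) G I.card * bigF p (Fintype.card β) G K.card +
       bigF p (Fintype.card β) G J.card * bigF p (Fintype.card β) G K.card) := by
  have hF0 : ∀ x, 0 ≤ bigF p (Fintype.card β) G x := fun x => bigF_nonneg hp3 _ G x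
  have hprod : ∏ i, v i ≠ 0 := Finset.prod_ne_zero_iff.mpr (fun i _ => h0 i)
  have he : (∏ i, v i) / (c * d) ≠ 0 := div_ne_zero hprod (mul_ne_zero hc hd)
  have he' : (∏ i, v i) / (d * c) ≠ 0 := div_ne_zero hprod (mul_ne_zero hd hc)
  have hcard : I.card + J.card + K.card = Fintype.card β := by
    rw [hK, ← Finset.card_union_of_disjoint hIJ, Finset.card_compl]
    have := Finset.card_le_univ (I ∪ J)
    omega
  have hIK : Disjoint I K := by
    rw [hK, Finset.disjoint_left]
    intro i hi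
    rw [Finset.mem_compl, Finset.mem_union]
    exact fun h => h (Or.inl hi)
  have hJK : Disjoint J K := by
    rw [hK, Finset.disjoint_left]
    intro i hi
    rw [Finset.mem_compl, Finset.mem_union]
    exact fun h => h (Or.inr hi)
  have hK' : K = (J ∪ I)ᶜ := by rw [Finset.union_comm]; exact hK
  have t1 : (pairCount v I J c d : ℝ) ≤ pairCount v I K c ((∏ i, v i) / (c * d)) := by
    exact_mod_cast pairCount_third v h0 I J K hIJ hK c d hc hd
  have t2 : (pairCount v I J c d : ℝ) ≤ pairCount v J K d ((∏ i, v i) / (d * c)) := by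
    rw [pairCount_comm]
    exact_mod_cast pairCount_third v h0 J I K hIJ.symm hK' d c hd hc
  have hfac : (0 : ℝ) ≤ (Fintype.card β).factorial := by positivity
  have n1 := mul_nonneg (hF0 I.card) (hF0 J.card)
  have n2 := mul_nonneg (hF0 I.card) (hF0 K.card)
  have n3 := mul_nonneg (hF0 J.card) (hF0 K.card)
  -- the largest set
  by_cases hmax3 : I.card ≤ K.card ∧ J.card ≤ K.card
  · have : (pairCount v I J c d : ℝ) ≤ (Fintype.card β).factorial *
        (bigF p (Fintype.card β) G I.card * bigF p (Fintype.card β) G J.card) := by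
      rcases le_total I.card J.card with h | h
      · exact pair_le_aux hp3 v hv h0 hχ G hG I J hIJ hI h (by omega) c d hc hd
      · rw [pairCount_comm, mul_comm (bigF p (Fintype.card β) G I.card)]
        exact pair_le_aux hp3 v hv h0 hχ G hG J I hIJ.symm hJ h (by omega) d c hd hc
    refine this.trans ?_
    apply mul_le_mul_of_nonneg_left _ hfac
    linarith
  · by_cases hmax2 : I.card ≤ J.card ∧ K.card ≤ J.card
    · have : (pairCount v I J c d : ℝ) ≤ (Fintype.card β).factorial *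
          (bigF p (Fintype.card β) G I.card * bigF p (Fintype.card β) G K.card) := by
        refine t1.trans ?_
        rcases le_total I.card K.card with h | h
        · exact pair_le_aux hp3 v hv h0 hχ G hG I K hIK hI h (by omega) c _ hc he
        · rw [pairCount_comm, mul_comm (bigF p (Fintype.card β) G I.card)]
          exact pair_le_aux hp3 v hv h0 hχ G hG K I hIK.symm hK1 h (by omega) _ c he hc
      refine this.trans ?_
      apply mul_le_mul_of_nonneg_left _ hfac
      linarith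
    · have hJI : J.card ≤ I.card ∧ K.card ≤ I.card := by omega
      have : (pairCount v I J c d : ℝ) ≤ (Fintype.card β).factorial *
          (bigF p (Fintype.card β) G J.card * bigF p (Fintype.card β) G K.card) := by
        refine t2.trans ?_
        rcases le_total J.card K.card with h | h
        · exact pair_le_aux hp3 v hv h0 hχ G hG J K hJK hJ h (by omega) d _ hd he'
        · rw [pairCount_comm, mul_comm (bigF p (Fintype.card β) G J.card)]
          exact pair_le_aux hp3 v hv h0 hχ G hG K J hJK.symm hK1 h (by omega) _ d he' hd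
      refine this.trans ?_
      apply mul_le_mul_of_nonneg_left _ hfac
      linarith

end MP1fb.LS
end

section
/-!
MP_1fb68e_nt, local shuffles: the probability of a hit inside one block.
-/
set_option autoImplicit false

namespace MP1fb.LS

open Finset

variable {p : ℕ} [hp : Fact p.Prime]

/-- the first `j` places -/
def fst (ℓ j : ℕ) : Finset (Fin ℓ) := univ.filter (fun i => (i : ℕ) < j)

lemma card_fst (ℓ j : ℕ) (hj : j ≤ ℓ) : (fst ℓ j).card = j := by
  unfold fst
  rw [Fin.card_filter_val_lt]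
  omega

/-- the product over the first `j` places -/
def pre {p : ℕ} {ℓ : ℕ} (v : Fin ℓ → ZMod p) (π : Equiv.Perm (Fin ℓ)) (j : ℕ) : ZMod p :=
  ∏ i ∈ fst ℓ j, v (π i)

/-- pairs of places -/
def prs (ℓ : ℕ) : Finset (ℕ × ℕ) := (Ico 1 ℓ ×ˢ Ico 1 ℓ).filter (fun x => x.1 < x.2)

/-- number of the elements with a property -/
noncomputable def num {Ω : Type*} [Fintype Ω] (P : Ω → Prop) : ℕ :=
  (@Finset.filter Ω P (Classical.decPred P) univ).card

lemma num_eq {Ω : Type*} [Fintype Ω] (P : Ω → Prop) [DecidablePred P] :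
    num P = (univ.filter P).card := by
  unfold num
  congr

/-- indicator of a proposition -/
noncomputable def ind (q : Prop) : ℕ := @ite ℕ q (Classical.propDecidable q) 1 0

lemma ind_pos {q : Prop} (h : q) : ind q = 1 := by
  unfold ind
  exact if_pos h

lemma ind_neg {q : Prop} (h : ¬ q) : ind q = 0 := by
  unfold ind
  exact if_neg h

lemma sum_ind {ι : Type*} (S : Finset ι) (P : ι → Prop) [DecidablePred P] :
    ∑ j ∈ S, ind (P j) = (S.filter P).card := by
  rw [Finset.card_filter]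
  apply Finset.sum_congr rfl
  intro j _
  by_cases h : P j
  · rw [ind_pos h, if_pos h]
  · rw [ind_neg h, if_neg h]

lemma num_sum {Ω : Type*} [Fintype Ω] (P : Ω → Prop) : num P = ∑ w, ind (P w) := by
  classical
  rw [num_eq, sum_ind]

/-- Bonferroni's inequality for the events `E j`, `1 ≤ j < ℓ` -/
lemma bonferroni {Ω : Type*} [Fintype Ω] (ℓ : ℕ) (E : ℕ → Ω → Prop) :
    |(num (fun w : Ω => ∃ j ∈ Ico 1 ℓ, E j w) : ℝ) -
      ∑ j ∈ Ico 1 ℓ, (num (fun w : Ω => E j w) : ℝ)| ≤
      ∑ x ∈ prs ℓ, (num (fun w : Ω => E x.1 w ∧ E x.2 w) : ℝ) := by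
  classical
  have hup : num (fun w : Ω => ∃ j ∈ Ico 1 ℓ, E j w) ≤
      ∑ j ∈ Ico 1 ℓ, num (fun w : Ω => E j w) := by
    simp only [num_sum]
    rw [Finset.sum_comm]
    apply Finset.sum_le_sum
    intro w _
    by_cases hex : ∃ j ∈ Ico 1 ℓ, E j w
    · rw [ind_pos hex]
      obtain ⟨j, hj, hE⟩ := hex
      calc 1 = ind (E j w) := (ind_pos hE).symm
        _ ≤ ∑ j ∈ Ico 1 ℓ, ind (E j w) :=
          Finset.single_le_sum (f := fun j => ind (E j w)) (fun _ _ => Nat.zero_le _) hj
    · rw [ind_neg hex]; exact Nat.zero_le _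
  have hlow : ∑ j ∈ Ico 1 ℓ, num (fun w : Ω => E j w) ≤
      num (fun w : Ω => ∃ j ∈ Ico 1 ℓ, E j w) +
      ∑ x ∈ prs ℓ, num (fun w : Ω => E x.1 w ∧ E x.2 w) := by
    simp only [num_sum]
    rw [Finset.sum_comm, Finset.sum_comm (s := prs ℓ), ← Finset.sum_add_distrib]
    apply Finset.sum_le_sum
    intro w _
    rw [sum_ind, sum_ind]
    by_cases hex : ∃ j ∈ Ico 1 ℓ, E j w
    · rw [ind_pos hex]
      set H := (Ico 1 ℓ).filter (fun j => E j w) with hH
      have hne : H.Nonempty := by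
        obtain ⟨j, hj, hE⟩ := hex
        exact ⟨j, Finset.mem_filter.mpr ⟨hj, hE⟩⟩
      set m := H.min' hne with hm
      have hmH : m ∈ H := H.min'_mem hne
      have h1 : (H.erase m).card ≤ ((prs ℓ).filter (fun x => E x.1 w ∧ E x.2 w)).card := by
        apply Finset.card_le_card_of_injOn (fun j => (m, j))
        · intro j hj
          rw [Finset.mem_coe, Finset.mem_erase] at hj
          rw [Finset.mem_coe, Finset.mem_filter]
          have hjH := hj.2
          have hlt : m < j := lt_of_le_of_ne (H.min'_le j hjH) (Ne.symm hj.1)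
          rw [hH, Finset.mem_filter] at hjH hmH
          refine ⟨?_, hmH.2, hjH.2⟩
          unfold prs
          rw [Finset.mem_filter, Finset.mem_product]
          exact ⟨⟨hmH.1, hjH.1⟩, hlt⟩
        · intro a _ b _ hab
          exact (Prod.mk.inj hab).2
      rw [Finset.card_erase_of_mem hmH] at h1
      omega
    · have : (Ico 1 ℓ).filter (fun j => E j w) = ∅ := by
        rw [Finset.filter_eq_empty_iff]
        intro j hj hE
        exact hex ⟨j, hj, hE⟩
      rw [this]
      simp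
  have hupR : (num (fun w : Ω => ∃ j ∈ Ico 1 ℓ, E j w) : ℝ) ≤
      ∑ j ∈ Ico 1 ℓ, (num (fun w : Ω => E j w) : ℝ) := by exact_mod_cast hup
  have hlowR : ∑ j ∈ Ico 1 ℓ, (num (fun w : Ω => E j w) : ℝ) ≤
      (num (fun w : Ω => ∃ j ∈ Ico 1 ℓ, E j w) : ℝ) +
      ∑ x ∈ prs ℓ, (num (fun w : Ω => E x.1 w ∧ E x.2 w) : ℝ) := by
    exact_mod_cast hlow
  rw [abs_le]
  constructor
  · linarith
  · have : 0 ≤ ∑ x ∈ prs ℓ, (num (fun w : Ω => E x.1 w ∧ E x.2 w) : ℝ) :=
      Finset.sum_nonneg (fun _ _ => by positivity)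
    linarith

/-- a sum over pairs is at most a square -/
lemma prs_sum_le (ℓ : ℕ) (F : ℕ → ℝ) (hF : ∀ a, 0 ≤ F a) (φ : ℕ × ℕ → ℕ × ℕ)
    (hφ : ∀ x ∈ prs ℓ, φ x ∈ Ico 1 ℓ ×ˢ Ico 1 ℓ) (hinj : Set.InjOn φ (prs ℓ)) :
    ∑ x ∈ prs ℓ, F (φ x).1 * F (φ x).2 ≤ (∑ a ∈ Ico 1 ℓ, F a) ^ 2 := by
  classical
  rw [sq, Finset.sum_mul_sum, ← Finset.sum_product']
  rw [← Finset.sum_image (f := fun y : ℕ × ℕ => F y.1 * F y.2) (g := φ) (s := prs ℓ)
    (fun x hx y hy h => hinj hx hy h)]
  apply Finset.sum_le_sum_of_subset_of_nonneg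
  · intro y hy
    rw [Finset.mem_image] at hy
    obtain ⟨x, hx, rfl⟩ := hy
    exact hφ x hx
  · intro y _ _
    exact mul_nonneg (hF _) (hF _)

lemma sum_bigF_le (hp3 : 3 ≤ p) (ℓ G : ℕ) :
    ∑ a ∈ Ico 1 ℓ, bigF p ℓ G a ≤ 3 * G / ℓ + 2 * ℓ / ((p : ℝ) - 1) := by
  have hp3R : (3 : ℝ) ≤ p := by exact_mod_cast hp3
  have h1 : ∀ a ∈ Ico 1 ℓ, bigF p ℓ G a ≤ (if a < G then 3 / (ℓ : ℝ) else 0) +
      2 / ((p : ℝ) - 1) := by
    intro a _
    unfold bigF
    have h2 : (0 : ℝ) ≤ 2 / ((p : ℝ) - 1) := div_nonneg (by norm_num) (by linarith)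
    split_ifs <;> linarith
  refine (Finset.sum_le_sum h1).trans ?_
  rw [Finset.sum_add_distrib, Finset.sum_const, Nat.card_Ico, ← Finset.sum_filter,
    Finset.sum_const, nsmul_eq_mul, nsmul_eq_mul]
  have h3 : ((Ico 1 ℓ).filter (fun a => a < G)).card ≤ G := by
    calc _ ≤ (range G).card := Finset.card_le_card (fun a ha => by
          rw [Finset.mem_filter] at ha; exact Finset.mem_range.mpr ha.2)
      _ = G := Finset.card_range G
  have h3R : (((Ico 1 ℓ).filter (fun a => a < G)).card : ℝ) ≤ G := by exact_mod_cast h3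
  have h4 : ((ℓ - 1 : ℕ) : ℝ) ≤ ℓ := by exact_mod_cast Nat.sub_le ℓ 1
  have h5 : (0 : ℝ) ≤ 3 / (ℓ : ℝ) := by positivity
  have h6 : (0 : ℝ) ≤ 2 / ((p : ℝ) - 1) := div_nonneg (by norm_num) (by linarith)
  calc _ ≤ (G : ℝ) * (3 / ℓ) + ℓ * (2 / ((p : ℝ) - 1)) := by gcongr
    _ = _ := by ring

/-- the number of hits at one place -/
lemma one_place {ℓ' : ℕ} (v : Fin ℓ' → ZMod p) (j : ℕ) (C : Finset (ZMod p)) :
    num (fun π : Equiv.Perm (Fin ℓ') => pre v π j ∈ C) =
      ∑ c ∈ C, oneCount v (fst ℓ' j) c := by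
  classical
  rw [num_eq]
  unfold oneCount
  rw [← Finset.card_biUnion]
  · congr 1
    ext π
    simp only [mem_filter, mem_univ, true_and, mem_biUnion]
    constructor
    · intro h; exact ⟨_, h, rfl⟩
    · rintro ⟨c, hc, h⟩
      unfold pre
      rw [h]; exact hc
  · intro c _ d _ hcd
    rw [Function.onFun, Finset.disjoint_left]
    intro π h1 h2
    rw [Finset.mem_filter] at h1 h2
    exact hcd (h1.2.symm.trans h2.2)

lemma one_place_le {ℓ : ℕ} (v : Fin ℓ → ZMod p) (hv : Function.Injective v)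
    (h0 : ∀ i, v i ≠ 0) (j : ℕ) (hj : 1 ≤ j) (hj' : j + 1 ≤ ℓ) (C : Finset (ZMod p))
    (hC0 : (0 : ZMod p) ∉ C) :
    (num (fun π : Equiv.Perm (Fin ℓ) => pre v π j ∈ C) : ℝ) ≤
      C.card * (2 / (ℓ : ℝ) * (ℓ.factorial : ℝ)) := by
  rw [one_place]
  push_cast
  calc ∑ c ∈ C, (oneCount v (fst ℓ j) c : ℝ) ≤ ∑ _c ∈ C, (2 / (ℓ : ℝ) * (ℓ.factorial : ℝ)) := by
        apply Finset.sum_le_sum
        intro c hc
        have := one_triv v hv h0 (fst ℓ j) (by rw [card_fst ℓ j (by omega)]; exact hj)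
          (by rw [card_fst ℓ j (by omega), Fintype.card_fin]; exact hj') c
          (fun h => hC0 (h ▸ hc))
        rwa [Fintype.card_fin] at this
    _ = _ := by rw [Finset.sum_const, nsmul_eq_mul]

lemma one_place_mid (hp3 : 3 ≤ p) {ℓ : ℕ} (v : Fin ℓ → ZMod p) (hv : Function.Injective v)
    (h0 : ∀ i, v i ≠ 0)
    (hχ : ∀ χ : DirichletCharacter ℂ p, χ ≠ 1 → ‖∑ i, χ (v i)‖ ≤ (ℓ : ℝ) / 8)
    (G : ℕ) (hG : 32 * Real.log p ≤ G) (j : ℕ) (hj : G ≤ j) (hj' : j + G ≤ ℓ)
    (C : Finset (ZMod p)) (hC0 : (0 : ZMod p) ∉ C) :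
    |(num (fun π : Equiv.Perm (Fin ℓ) => pre v π j ∈ C) : ℝ) -
      C.card * ((ℓ.factorial : ℝ) / (p - 1))| ≤
      C.card * ((ℓ.factorial : ℝ) * (1 / (p : ℝ) ^ 4)) := by
  rw [one_place]
  push_cast
  have e1 : (C.card : ℝ) * ((ℓ.factorial : ℝ) / (p - 1)) =
      ∑ _c ∈ C, ((ℓ.factorial : ℝ) / (p - 1)) := by
    rw [Finset.sum_const, nsmul_eq_mul]
  have e2 : (C.card : ℝ) * ((ℓ.factorial : ℝ) * (1 / (p : ℝ) ^ 4)) =
      ∑ _c ∈ C, ((ℓ.factorial : ℝ) * (1 / (p : ℝ) ^ 4)) := by
    rw [Finset.sum_const, nsmul_eq_mul]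
  rw [e1, e2, ← Finset.sum_sub_distrib]
  refine (Finset.abs_sum_le_sum_abs _ _).trans ?_
  apply Finset.sum_le_sum
  intro c hc
  have := one_mid hp3 v hv h0 (by rwa [Fintype.card_fin]) G hG (fst ℓ j)
    (by rw [card_fst ℓ j (by omega)]; exact hj)
    (by rw [card_fst ℓ j (by omega), Fintype.card_fin]; exact hj') c
    (fun h => hC0 (h ▸ hc))
  rwa [Fintype.card_fin] at this

lemma two_places (hp3 : 3 ≤ p) {ℓ : ℕ} (v : Fin ℓ → ZMod p) (hv : Function.Injective v)
    (h0 : ∀ i, v i ≠ 0)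
    (hχ : ∀ χ : DirichletCharacter ℂ p, χ ≠ 1 → ‖∑ i, χ (v i)‖ ≤ (ℓ : ℝ) / 8)
    (G : ℕ) (hG : 32 * Real.log p ≤ G) (j j' : ℕ) (hj : 1 ≤ j) (hjj : j < j') (hj' : j' < ℓ)
    (C C' : Finset (ZMod p)) (hC : C.card ≤ 2) (hC' : C'.card ≤ 2)
    (hC0 : (0 : ZMod p) ∉ C) (hC0' : (0 : ZMod p) ∉ C') :
    (num (fun π : Equiv.Perm (Fin ℓ) => pre v π j ∈ C ∧ pre v π j' ∈ C') : ℝ) ≤
      4 * ((ℓ.factorial : ℝ) * (bigF p ℓ G j * bigF p ℓ G (j' - j) +
        bigF p ℓ G j * bigF p ℓ G (ℓ - j') + bigF p ℓ G (j' - j) * bigF p ℓ G (ℓ - j'))) := by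
  classical
  have hsub : fst ℓ j ⊆ fst ℓ j' := by
    intro i hi
    unfold fst at hi ⊢
    rw [Finset.mem_filter] at hi ⊢
    exact ⟨hi.1, by omega⟩
  have hpre : ∀ π : Equiv.Perm (Fin ℓ), pre v π j' =
      pre v π j * ∏ i ∈ fst ℓ j' \ fst ℓ j, v (π i) := by
    intro π
    unfold pre
    rw [mul_comm, Finset.prod_sdiff hsub]
  have hnat : num (fun π : Equiv.Perm (Fin ℓ) => pre v π j ∈ C ∧ pre v π j' ∈ C') ≤
      ∑ x ∈ C ×ˢ C', pairCount v (fst ℓ j) (fst ℓ j' \ fst ℓ j) x.1 (x.2 / x.1) := by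
    rw [num_eq]
    unfold pairCount
    refine le_trans (Finset.card_le_card ?_) (Finset.card_biUnion_le (s := C ×ˢ C'))
    intro π hπ
    rw [Finset.mem_filter] at hπ
    rw [Finset.mem_biUnion]
    refine ⟨(pre v π j, pre v π j'), Finset.mem_product.mpr hπ.2, ?_⟩
    rw [Finset.mem_filter]
    refine ⟨mem_univ _, rfl, ?_⟩
    have hne : pre v π j ≠ 0 := fun h => hC0 (h ▸ hπ.2.1)
    rw [eq_div_iff hne, hpre π, mul_comm]
  have hcard1 : (fst ℓ j).card = j := card_fst ℓ j (by omega)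
  have hcard2 : (fst ℓ j' \ fst ℓ j).card = j' - j := by
    rw [Finset.card_sdiff_of_subset hsub, card_fst ℓ j' (by omega), hcard1]
  have hunion : fst ℓ j ∪ (fst ℓ j' \ fst ℓ j) = fst ℓ j' := Finset.union_sdiff_of_subset hsub
  have hcard3 : ((fst ℓ j ∪ (fst ℓ j' \ fst ℓ j))ᶜ).card = ℓ - j' := by
    rw [hunion, Finset.card_compl, Fintype.card_fin, card_fst ℓ j' (by omega)]
  set M := (ℓ.factorial : ℝ) * (bigF p ℓ G j * bigF p ℓ G (j' - j) +
        bigF p ℓ G j * bigF p ℓ G (ℓ - j') + bigF p ℓ G (j' - j) * bigF p ℓ G (ℓ - j')) with hM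
  have hb : ∀ x ∈ C ×ˢ C',
      (pairCount v (fst ℓ j) (fst ℓ j' \ fst ℓ j) x.1 (x.2 / x.1) : ℝ) ≤ M := by
    intro x hx
    rw [Finset.mem_product] at hx
    have hx1 : x.1 ≠ 0 := fun h => hC0 (h ▸ hx.1)
    have hx2 : x.2 ≠ 0 := fun h => hC0' (h ▸ hx.2)
    have := pair_le hp3 v hv h0 (by rwa [Fintype.card_fin]) G hG (fst ℓ j)
      (fst ℓ j' \ fst ℓ j) ((fst ℓ j ∪ (fst ℓ j' \ fst ℓ j))ᶜ) Finset.disjoint_sdiff rfl
      (by rw [hcard1]; exact hj) (by rw [hcard2]; omega) (by rw [hcard3]; omega)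
      x.1 (x.2 / x.1) hx1 (div_ne_zero hx2 hx1)
    rw [Fintype.card_fin, hcard1, hcard2, hcard3] at this
    exact this
  have hM0 : 0 ≤ M := by
    have := fun x => bigF_nonneg hp3 ℓ G x
    rw [hM]
    have h1 := mul_nonneg (this j) (this (j' - j))
    have h2 := mul_nonneg (this j) (this (ℓ - j'))
    have h3 := mul_nonneg (this (j' - j)) (this (ℓ - j'))
    positivity
  calc (num (fun π : Equiv.Perm (Fin ℓ) => pre v π j ∈ C ∧ pre v π j' ∈ C') : ℝ)
      ≤ ∑ x ∈ C ×ˢ C', (pairCount v (fst ℓ j) (fst ℓ j' \ fst ℓ j) x.1 (x.2 / x.1) : ℝ) := by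
        exact_mod_cast hnat
    _ ≤ ∑ _x ∈ C ×ˢ C', M := Finset.sum_le_sum hb
    _ = (C.card * C'.card : ℝ) * M := by
        rw [Finset.sum_const, nsmul_eq_mul, Finset.card_product]; push_cast; ring
    _ ≤ 4 * M := by
        apply mul_le_mul_of_nonneg_right _ hM0
        have h1 : (C.card : ℝ) ≤ 2 := by exact_mod_cast hC
        have h2 : (C'.card : ℝ) ≤ 2 := by exact_mod_cast hC'
        have h3 : (0 : ℝ) ≤ C'.card := by positivity
        nlinarith

/-- **One block.** -/
theorem block (hp3 : 3 ≤ p) {ℓ : ℕ} (v : Fin ℓ → ZMod p) (hv : Function.Injective v)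
    (h0 : ∀ i, v i ≠ 0)
    (hχ : ∀ χ : DirichletCharacter ℂ p, χ ≠ 1 → ‖∑ i, χ (v i)‖ ≤ (ℓ : ℝ) / 8)
    (G : ℕ) (hG : 32 * Real.log p ≤ G) (hGℓ : 2 * G ≤ ℓ)
    (C : ℕ → Finset (ZMod p)) (hC : ∀ j, (C j).card ≤ 2) (hC0 : ∀ j, (0 : ZMod p) ∉ C j) :
    |(num (fun π : Equiv.Perm (Fin ℓ) => ∃ j ∈ Ico 1 ℓ, pre v π j ∈ C j) : ℝ) / ℓ.factorial -
      ∑ j ∈ Ico 1 ℓ, ((C j).card : ℝ) / (p - 1)| ≤
      9 * G / ℓ + 12 * (3 * G / ℓ + 2 * ℓ / ((p : ℝ) - 1)) ^ 2 := by
  have hp3R : (3 : ℝ) ≤ p := by exact_mod_cast hp3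
  have hlog : 1 < Real.log p := by
    have h4 : Real.exp 1 < 3 := Real.exp_one_lt_three
    calc (1 : ℝ) = Real.log (Real.exp 1) := by simp
      _ < Real.log 3 := Real.log_lt_log (Real.exp_pos _) h4
      _ ≤ Real.log p := Real.log_le_log (by norm_num) hp3R
  have hG1 : 1 ≤ G := by
    by_contra h
    have : G = 0 := by omega
    rw [this] at hG
    simp only [Nat.cast_zero] at hG
    linarith
  have hG1R : (1 : ℝ) ≤ G := by exact_mod_cast hG1
  have hℓp : ℓ + 1 ≤ p := by
    have h1 : (insert (0 : ZMod p) (univ.image v)).card ≤ Fintype.card (ZMod p) :=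
      Finset.card_le_univ _
    rw [Finset.card_insert_of_notMem (zero_notMem_image v h0 univ), card_image_univ v hv,
      Fintype.card_fin, ZMod.card] at h1
    exact h1
  have hℓ0 : 0 < ℓ := by omega
  have hℓR : (0 : ℝ) < ℓ := by exact_mod_cast hℓ0
  have hℓpR : (ℓ : ℝ) ≤ p - 1 := by
    have : (ℓ : ℝ) + 1 ≤ p := by exact_mod_cast hℓp
    linarith
  have hfac : (0 : ℝ) < ℓ.factorial := by exact_mod_cast Nat.factorial_pos ℓ
  set E : ℕ → Equiv.Perm (Fin ℓ) → Prop := fun j π => pre v π j ∈ C j with hE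
  have hbon := bonferroni ℓ E
  have hF0 : ∀ x, 0 ≤ bigF p ℓ G x := fun x => bigF_nonneg hp3 ℓ G x
  -- pairs
  set Φ := 3 * G / (ℓ : ℝ) + 2 * ℓ / ((p : ℝ) - 1) with hΦ
  have hsumF : ∑ a ∈ Ico 1 ℓ, bigF p ℓ G a ≤ Φ := sum_bigF_le hp3 ℓ G
  have hsumF0 : 0 ≤ ∑ a ∈ Ico 1 ℓ, bigF p ℓ G a := Finset.sum_nonneg (fun a _ => hF0 a)
  have hsq : (∑ a ∈ Ico 1 ℓ, bigF p ℓ G a) ^ 2 ≤ Φ ^ 2 := pow_le_pow_left₀ hsumF0 hsumF 2
  have hprs : ∀ x ∈ prs ℓ, 1 ≤ x.1 ∧ x.1 < x.2 ∧ x.2 < ℓ := by
    intro x hx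
    unfold prs at hx
    rw [Finset.mem_filter, Finset.mem_product, Finset.mem_Ico, Finset.mem_Ico] at hx
    omega
  have hpairs : ∑ x ∈ prs ℓ, (num (fun w => E x.1 w ∧ E x.2 w) : ℝ) ≤
      12 * Φ ^ 2 * ℓ.factorial := by
    have h1 : ∀ x ∈ prs ℓ, (num (fun w => E x.1 w ∧ E x.2 w) : ℝ) ≤
        4 * ((ℓ.factorial : ℝ) * (bigF p ℓ G x.1 * bigF p ℓ G (x.2 - x.1) +
        bigF p ℓ G x.1 * bigF p ℓ G (ℓ - x.2) + bigF p ℓ G (x.2 - x.1) * bigF p ℓ G (ℓ - x.2))) := by
      intro x hx
      obtain ⟨h1, h2, h3⟩ := hprs x hx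
      exact two_places hp3 v hv h0 hχ G hG x.1 x.2 h1 h2 h3 (C x.1) (C x.2) (hC _) (hC _)
        (hC0 _) (hC0 _)
    refine (Finset.sum_le_sum h1).trans ?_
    rw [← Finset.mul_sum, ← Finset.mul_sum, Finset.sum_add_distrib, Finset.sum_add_distrib]
    have s1 : ∑ x ∈ prs ℓ, bigF p ℓ G x.1 * bigF p ℓ G (x.2 - x.1) ≤
        (∑ a ∈ Ico 1 ℓ, bigF p ℓ G a) ^ 2 := by
      apply prs_sum_le ℓ (bigF p ℓ G) hF0 (fun x => (x.1, x.2 - x.1))
      · intro x hx
        obtain ⟨h1, h2, h3⟩ := hprs x hx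
        rw [Finset.mem_product, Finset.mem_Ico, Finset.mem_Ico]
        simp only
        omega
      · intro x hx y hy hxy
        obtain ⟨h1, h2, h3⟩ := hprs x hx
        obtain ⟨h4, h5, h6⟩ := hprs y hy
        simp only [Prod.mk.injEq] at hxy
        exact Prod.ext hxy.1 (by omega)
    have s2 : ∑ x ∈ prs ℓ, bigF p ℓ G x.1 * bigF p ℓ G (ℓ - x.2) ≤
        (∑ a ∈ Ico 1 ℓ, bigF p ℓ G a) ^ 2 := by
      apply prs_sum_le ℓ (bigF p ℓ G) hF0 (fun x => (x.1, ℓ - x.2))
      · intro x hx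
        obtain ⟨h1, h2, h3⟩ := hprs x hx
        rw [Finset.mem_product, Finset.mem_Ico, Finset.mem_Ico]
        simp only
        omega
      · intro x hx y hy hxy
        obtain ⟨h1, h2, h3⟩ := hprs x hx
        obtain ⟨h4, h5, h6⟩ := hprs y hy
        simp only [Prod.mk.injEq] at hxy
        exact Prod.ext hxy.1 (by omega)
    have s3 : ∑ x ∈ prs ℓ, bigF p ℓ G (x.2 - x.1) * bigF p ℓ G (ℓ - x.2) ≤
        (∑ a ∈ Ico 1 ℓ, bigF p ℓ G a) ^ 2 := by
      apply prs_sum_le ℓ (bigF p ℓ G) hF0 (fun x => (x.2 - x.1, ℓ - x.2))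
      · intro x hx
        obtain ⟨h1, h2, h3⟩ := hprs x hx
        rw [Finset.mem_product, Finset.mem_Ico, Finset.mem_Ico]
        simp only
        omega
      · intro x hx y hy hxy
        obtain ⟨h1, h2, h3⟩ := hprs x hx
        obtain ⟨h4, h5, h6⟩ := hprs y hy
        simp only [Prod.mk.injEq] at hxy
        exact Prod.ext (by omega) (by omega)
    nlinarith
  -- single places
  have hsingle : ∀ j ∈ Ico 1 ℓ, |(num (fun w => E j w) : ℝ) -
      ((C j).card : ℝ) * ((ℓ.factorial : ℝ) / (p - 1))| ≤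
      (if j < G ∨ ℓ < j + G then 4 / (ℓ : ℝ) * ℓ.factorial else 0) +
      2 * (ℓ.factorial * (1 / (p : ℝ) ^ 4)) := by
    intro j hj
    rw [Finset.mem_Ico] at hj
    have hCj : ((C j).card : ℝ) ≤ 2 := by exact_mod_cast hC j
    have hCj0 : (0 : ℝ) ≤ ((C j).card : ℝ) := by positivity
    have hp4 : 0 ≤ 1 / (p : ℝ) ^ 4 := by positivity
    split_ifs with hcase
    · have h1 := one_place_le v hv h0 j hj.1 (by omega) (C j) (hC0 j)
      have h2 : (ℓ.factorial : ℝ) / (p - 1) ≤ ℓ.factorial / ℓ :=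
        div_le_div_of_nonneg_left hfac.le hℓR hℓpR
      have h3 : (0 : ℝ) ≤ (ℓ.factorial : ℝ) / (p - 1) := div_nonneg hfac.le (by linarith)
      have h4 : ((C j).card : ℝ) * (2 / (ℓ : ℝ) * (ℓ.factorial : ℝ)) ≤
          4 / (ℓ : ℝ) * ℓ.factorial := by
        calc ((C j).card : ℝ) * (2 / (ℓ : ℝ) * (ℓ.factorial : ℝ))
            ≤ 2 * (2 / (ℓ : ℝ) * (ℓ.factorial : ℝ)) := by gcongr
          _ = _ := by ring
      have h5 : ((C j).card : ℝ) * ((ℓ.factorial : ℝ) / (p - 1)) ≤
          4 / (ℓ : ℝ) * ℓ.factorial := by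
        calc ((C j).card : ℝ) * ((ℓ.factorial : ℝ) / (p - 1))
            ≤ 2 * ((ℓ.factorial : ℝ) / ℓ) := by gcongr
          _ ≤ 4 * ((ℓ.factorial : ℝ) / ℓ) := by
            have : (0 : ℝ) ≤ (ℓ.factorial : ℝ) / ℓ := by positivity
            linarith
          _ = _ := by ring
      have h6 : (0 : ℝ) ≤ (num (fun w => E j w) : ℝ) := by positivity
      have h7 : 0 ≤ ((C j).card : ℝ) * ((ℓ.factorial : ℝ) / (p - 1)) := mul_nonneg hCj0 h3
      have h8 : 0 ≤ 2 * (ℓ.factorial * (1 / (p : ℝ) ^ 4)) := by positivity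
      rw [abs_le]
      constructor
      · linarith
      · linarith
    · push Not at hcase
      have h1 := one_place_mid hp3 v hv h0 hχ G hG j hcase.1 hcase.2 (C j) (hC0 j)
      refine h1.trans ?_
      rw [zero_add]
      gcongr
  have hcount : ((Ico 1 ℓ).filter (fun j => j < G ∨ ℓ < j + G)).card ≤ 2 * G := by
    have hsub : (Ico 1 ℓ).filter (fun j => j < G ∨ ℓ < j + G) ⊆ range G ∪ Ico (ℓ - G) ℓ := by
      intro j hj
      rw [Finset.mem_filter, Finset.mem_Ico] at hj
      rw [Finset.mem_union, Finset.mem_range, Finset.mem_Ico]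
      omega
    calc _ ≤ (range G ∪ Ico (ℓ - G) ℓ).card := Finset.card_le_card hsub
      _ ≤ (range G).card + (Ico (ℓ - G) ℓ).card := Finset.card_union_le _ _
      _ ≤ 2 * G := by rw [Finset.card_range, Nat.card_Ico]; omega
  have hcountR : (((Ico 1 ℓ).filter (fun j => j < G ∨ ℓ < j + G)).card : ℝ) ≤ 2 * G := by
    exact_mod_cast hcount
  have hsingles : |∑ j ∈ Ico 1 ℓ, (num (fun w => E j w) : ℝ) -
      ∑ j ∈ Ico 1 ℓ, ((C j).card : ℝ) * ((ℓ.factorial : ℝ) / (p - 1))| ≤
      9 * G / ℓ * ℓ.factorial := by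
    rw [← Finset.sum_sub_distrib]
    refine (Finset.abs_sum_le_sum_abs _ _).trans ?_
    refine (Finset.sum_le_sum hsingle).trans ?_
    rw [Finset.sum_add_distrib, ← Finset.sum_filter, Finset.sum_const, Finset.sum_const,
      nsmul_eq_mul, nsmul_eq_mul, Nat.card_Ico]
    have h1 : ((ℓ - 1 : ℕ) : ℝ) ≤ ℓ := by exact_mod_cast Nat.sub_le ℓ 1
    have h2 : (ℓ : ℝ) * (2 * (1 / (p : ℝ) ^ 4)) ≤ 1 / ℓ := by
      have hp0 : (0 : ℝ) < p := by linarith
      have h3 : (ℓ : ℝ) ≤ p := by linarith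
      have h4 : (ℓ : ℝ) * (2 * (1 / (p : ℝ) ^ 4)) ≤ p * (2 * (1 / (p : ℝ) ^ 4)) := by gcongr
      have h5 : (p : ℝ) * (2 * (1 / (p : ℝ) ^ 4)) = 2 / (p : ℝ) ^ 3 := by field_simp
      have h6 : 2 / (p : ℝ) ^ 3 ≤ 1 / p := by
        rw [div_le_div_iff₀ (by positivity) hp0]
        nlinarith [pow_pos hp0 2, sq_nonneg ((p : ℝ) - 1)]
      have h7 : 1 / (p : ℝ) ≤ 1 / ℓ := one_div_le_one_div_of_le hℓR h3
      linarith
    calc (((Ico 1 ℓ).filter (fun j => j < G ∨ ℓ < j + G)).card : ℝ) *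
          (4 / (ℓ : ℝ) * ℓ.factorial) + ((ℓ - 1 : ℕ) : ℝ) * (2 * (ℓ.factorial * (1 / (p : ℝ) ^ 4)))
        ≤ (2 * G) * (4 / (ℓ : ℝ) * ℓ.factorial) + ℓ * (2 * (ℓ.factorial * (1 / (p : ℝ) ^ 4))) := by
          gcongr
      _ = 8 * G / ℓ * ℓ.factorial + ((ℓ : ℝ) * (2 * (1 / (p : ℝ) ^ 4))) * ℓ.factorial := by ring
      _ ≤ 8 * G / ℓ * ℓ.factorial + (1 / ℓ) * ℓ.factorial := by gcongr
      _ ≤ 8 * G / ℓ * ℓ.factorial + (G / ℓ) * ℓ.factorial := by gcongr
      _ = _ := by ring
  -- conclusion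
  have e1 : ∑ j ∈ Ico 1 ℓ, ((C j).card : ℝ) * ((ℓ.factorial : ℝ) / (p - 1)) =
      (∑ j ∈ Ico 1 ℓ, ((C j).card : ℝ) / (p - 1)) * ℓ.factorial := by
    rw [Finset.sum_mul]
    apply Finset.sum_congr rfl
    intro j _
    ring
  rw [e1] at hsingles
  have e2 : |(num (fun w => ∃ j ∈ Ico 1 ℓ, E j w) : ℝ) -
      (∑ j ∈ Ico 1 ℓ, ((C j).card : ℝ) / (p - 1)) * ℓ.factorial| ≤
      (9 * G / ℓ + 12 * Φ ^ 2) * ℓ.factorial := by
    have := abs_sub_le (num (fun w => ∃ j ∈ Ico 1 ℓ, E j w) : ℝ)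
      (∑ j ∈ Ico 1 ℓ, (num (fun w => E j w) : ℝ))
      ((∑ j ∈ Ico 1 ℓ, ((C j).card : ℝ) / (p - 1)) * ℓ.factorial)
    linarith
  have e3 : (num (fun w => ∃ j ∈ Ico 1 ℓ, E j w) : ℝ) / ℓ.factorial -
      ∑ j ∈ Ico 1 ℓ, ((C j).card : ℝ) / (p - 1) =
      ((num (fun w => ∃ j ∈ Ico 1 ℓ, E j w) : ℝ) -
      (∑ j ∈ Ico 1 ℓ, ((C j).card : ℝ) / (p - 1)) * ℓ.factorial) / ℓ.factorial := by
    field_simp
  change |(num (fun w => ∃ j ∈ Ico 1 ℓ, E j w) : ℝ) / ℓ.factorial -
      ∑ j ∈ Ico 1 ℓ, ((C j).card : ℝ) / (p - 1)| ≤ 9 * G / ℓ + 12 * Φ ^ 2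
  rw [e3, abs_div, abs_of_pos hfac, div_le_iff₀ hfac]
  exact e2

end MP1fb.LS
end

section
/-!
MP_1fb68e_nt, local shuffles: law of large numbers for independent bounded variables (Hoeffding).
-/
set_option autoImplicit false

namespace MP1fb.LS

open Finset Filter Topology MeasureTheory ProbabilityTheory

universe u

variable {Ω : Type u} [MeasurableSpace Ω] {μ : Measure Ω} [IsProbabilityMeasure μ]

lemma ae_upper (X : ℕ → Ω → ℝ) (hind : iIndepFun X μ) (hm : ∀ i, Measurable (X i))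
    (hb : ∀ i ω, |X i ω| ≤ 1) (h0 : ∀ i, ∫ ω, X i ω ∂μ = 0) (e : ℝ) (he : 0 < e) :
    ∀ᵐ ω ∂μ, ∀ᶠ n : ℕ in atTop, ∑ i ∈ range n, X i ω < e * n := by
  have hsub : ∀ i, HasSubgaussianMGF (X i) 1 μ := by
    intro i
    have h1 : ∀ᵐ ω ∂μ, X i ω ∈ Set.Icc (-1 : ℝ) 1 := by
      apply Filter.Eventually.of_forall
      intro ω
      exact abs_le.mp (hb i ω)
    have h2 := hasSubgaussianMGF_of_mem_Icc_of_integral_eq_zero (hm i).aemeasurable h1 (h0 i)
    have h3 : ((‖(1 : ℝ) - (-1)‖₊ / 2) ^ 2 : NNReal) = 1 := by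
      have h4 : ‖(1 : ℝ) - (-1)‖₊ = 2 := by
        apply NNReal.coe_injective
        rw [coe_nnnorm]
        norm_num
      rw [h4]
      norm_num
    rw [h3] at h2
    exact h2
  have hbound : ∀ n : ℕ, μ {ω | e * n ≤ ∑ i ∈ range n, X i ω} ≤
      ENNReal.ofReal (Real.exp (-(e ^ 2 / 2)) ^ n) := by
    intro n
    have h1 := HasSubgaussianMGF.measure_sum_range_ge_le_of_iIndepFun hind
      (n := n) (c := 1) (fun i _ => hsub i) (show 0 ≤ e * n by positivity)
    have h2 : Real.exp (-(e * n) ^ 2 / (2 * n * ((1 : NNReal) : ℝ))) ≤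
        Real.exp (-(e ^ 2 / 2)) ^ n := by
      rw [← Real.exp_nat_mul]
      apply Real.exp_le_exp.mpr
      rcases Nat.eq_zero_or_pos n with rfl | hn
      · simp
      · have hnR : (0 : ℝ) < n := by exact_mod_cast hn
        apply le_of_eq
        simp only [NNReal.coe_one]
        field_simp
    have h3 : μ.real {ω | e * n ≤ ∑ i ∈ range n, X i ω} ≤ Real.exp (-(e ^ 2 / 2)) ^ n := h1.trans h2
    rw [Measure.real] at h3
    exact (ENNReal.le_ofReal_iff_toReal_le (measure_ne_top _ _) (by positivity)).mpr h3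
  have hsum : ∑' n : ℕ, μ {ω | e * n ≤ ∑ i ∈ range n, X i ω} ≠ ⊤ := by
    have hr : Real.exp (-(e ^ 2 / 2)) < 1 := by
      rw [Real.exp_lt_one_iff]
      have : 0 < e ^ 2 := by positivity
      linarith
    have hs : Summable (fun n : ℕ => Real.exp (-(e ^ 2 / 2)) ^ n) :=
      summable_geometric_of_lt_one (Real.exp_pos _).le hr
    refine ne_top_of_le_ne_top ?_ (ENNReal.tsum_le_tsum hbound)
    rw [← ENNReal.ofReal_tsum_of_nonneg (fun n => by positivity) hs]
    exact ENNReal.ofReal_ne_top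
  have hbc := measure_limsup_atTop_eq_zero hsum
  have h5 := ae_eventually_notMem hsum
  filter_upwards [h5] with ω hω
  filter_upwards [hω] with n hn
  simp only [Set.mem_setOf_eq, not_le] at hn
  exact hn

/-- strong law of large numbers for independent bounded centred variables -/
theorem slln (X : ℕ → Ω → ℝ) (hind : iIndepFun X μ) (hm : ∀ i, Measurable (X i))
    (hb : ∀ i ω, |X i ω| ≤ 1) (h0 : ∀ i, ∫ ω, X i ω ∂μ = 0) :
    ∀ᵐ ω ∂μ, Tendsto (fun n : ℕ => (∑ i ∈ range n, X i ω) / n) atTop (𝓝 0) := by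
  have hneg : iIndepFun (fun i ω => - X i ω) μ :=
    hind.comp (fun _ => fun x : ℝ => -x) (fun _ => measurable_neg)
  have h1 : ∀ k : ℕ, ∀ᵐ ω ∂μ, ∀ᶠ n : ℕ in atTop,
      ∑ i ∈ range n, X i ω < (1 / ((k : ℝ) + 1)) * n ∧
      ∑ i ∈ range n, (- X i ω) < (1 / ((k : ℝ) + 1)) * n := by
    intro k
    have hk : (0 : ℝ) < 1 / ((k : ℝ) + 1) := by positivity
    have a1 := ae_upper X hind hm hb h0 _ hk
    have a2 := ae_upper (fun i ω => - X i ω) hneg (fun i => (hm i).neg)
      (fun i ω => by rw [abs_neg]; exact hb i ω)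
      (fun i => by rw [integral_neg, h0 i, neg_zero]) _ hk
    filter_upwards [a1, a2] with ω h1 h2
    exact h1.and h2
  rw [← ae_all_iff] at h1
  filter_upwards [h1] with ω hω
  rw [Metric.tendsto_atTop]
  intro e he
  obtain ⟨k, hk⟩ := exists_nat_one_div_lt he
  have h2 := hω k
  rw [eventually_atTop] at h2
  obtain ⟨N, hN⟩ := h2
  refine ⟨N + 1, fun n hn => ?_⟩
  obtain ⟨h3, h4⟩ := hN n (by omega)
  rw [Finset.sum_neg_distrib] at h4
  have hnR : (0 : ℝ) < n := by
    have : 0 < n := by omega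
    exact_mod_cast this
  rw [Real.dist_eq, sub_zero, abs_div, abs_of_pos hnR, div_lt_iff₀ hnR]
  have h5 : |∑ i ∈ range n, X i ω| < (1 / ((k : ℝ) + 1)) * n := by
    rw [abs_lt]
    constructor <;> linarith
  have h6 : (1 / ((k : ℝ) + 1)) * n < e * n := by gcongr
  linarith

end MP1fb.LS
end
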