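import Pool.Agent.Lib.MP_1fb68e_nt.LS.LAW
import Pool.Agent.Lib.MP_1fb68e_nt.LS.SLLN
import Pool.Agent.Lib.PntAP.Main

/-!
MP_1fb68e_nt, local shuffles: independent shuffles for all primes.
-/

set_option autoImplicit false

namespace MP1fb.LS

open Finset Filter Topology MeasureTheory ProbabilityTheory

universe u

/-- number of the primes `p ≤ x` with property `P` -/
noncomputable def cntP (P : ℕ → Prop) (x : ℕ) : ℝ :=
  (Nat.card {p : ℕ // p ≤ x ∧ p.Prime ∧ P p} : ℝ)

lemma cntP_eq (P : ℕ → Prop) [DecidablePred P] (x : ℕ) :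
    cntP P x = (((range (x + 1)).filter (fun p => p.Prime ∧ P p)).card : ℝ) := by
  unfold cntP
  congr 1
  have : Nat.card {p : ℕ // p ≤ x ∧ p.Prime ∧ P p} =
      Nat.card ((range (x + 1)).filter (fun p => p.Prime ∧ P p)) := by
    apply Nat.card_congr
    apply Equiv.subtypeEquivRight
    intro p
    rw [Finset.mem_filter, Finset.mem_range]
    constructor
    · rintro ⟨h1, h2⟩; exact ⟨by omega, h2⟩
    · rintro ⟨h1, h2⟩; exact ⟨by omega, h2⟩
  rw [this, Nat.card_eq_fintype_card, Fintype.card_coe]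

/-- the primes up to `x` as the first primes -/
lemma sum_primes (f : ℕ → ℝ) (x : ℕ) :
    ∑ p ∈ (range (x + 1)).filter Nat.Prime, f p =
      ∑ i ∈ range (Nat.primeCounting x), f (Nat.nth Nat.Prime i) := by
  symm
  have hinf := Nat.infinite_setOfPred_prime
  apply Finset.sum_bij (fun i _ => Nat.nth Nat.Prime i)
  · intro i hi
    rw [Finset.mem_range] at hi
    rw [Finset.mem_filter, Finset.mem_range]
    refine ⟨?_, Nat.prime_nth_prime i⟩
    exact Nat.nth_lt_of_lt_count hi
  · intro i _ j _ h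
    exact Nat.nth_injective hinf h
  · intro p hp
    rw [Finset.mem_filter, Finset.mem_range] at hp
    refine ⟨Nat.count Nat.Prime p, ?_, Nat.nth_count hp.2⟩
    rw [Finset.mem_range]
    exact Nat.count_strict_mono hp.2 hp.1
  · intro i _
    rfl

lemma cntP_ind (P : ℕ → Prop) (x : ℕ) :
    cntP P x = ∑ i ∈ range (Nat.primeCounting x), (ind (P (Nat.nth Nat.Prime i)) : ℝ) := by
  classical
  rw [cntP_eq, ← sum_primes (fun p => (ind (P p) : ℝ)) x, ← Nat.cast_sum, sum_ind,
    Finset.filter_filter]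

/-- prime number theorem -/
lemma pnt : Tendsto (fun x : ℕ => (Nat.primeCounting x : ℝ) / ((x : ℝ) / Real.log x)) atTop
    (𝓝 1) := by
  have h := (Pool.Agent.Lib.PntAP.pi_ap (q := 1) (a := 1) isUnit_one).comp
    tendsto_natCast_atTop_atTop
  simp only [Nat.totient_one, Nat.cast_one, div_one] at h
  refine h.congr' ?_
  filter_upwards [eventually_gt_atTop 1] with x hx
  simp only [Function.comp_apply]
  unfold Pool.Agent.Lib.PntAP.piAP
  rw [Nat.floor_natCast]
  have h1 : ((Finset.Icc 1 x).filter (fun p : ℕ => p.Prime ∧ (p : ZMod 1) = 1)).card =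
      Nat.primeCounting x := by
    rw [Nat.primeCounting, Nat.primeCounting', Nat.count_eq_card_filter_range]
    congr 1
    ext p
    rw [Finset.mem_filter, Finset.mem_filter, Finset.mem_Icc, Finset.mem_range]
    constructor
    · rintro ⟨h1, h2, _⟩; exact ⟨by omega, h2⟩
    · rintro ⟨h1, h2⟩
      exact ⟨⟨h2.one_lt.le, by omega⟩, h2, Subsingleton.elim _ _⟩
  rw [h1]
  rw [div_div_eq_mul_div]

/-- the primes `1` modulo `4` -/
lemma pnt4 (Q : ℕ → Prop) (hQ : ∀ p : ℕ, p.Prime → p % 4 = 1 → Q p) (c : ℝ) (hc : c < 1 / 2) :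
    ∀ᶠ x : ℕ in atTop, c ≤ cntP Q x / ((x : ℝ) / Real.log x) := by
  classical
  have h := (Pool.Agent.Lib.PntAP.pi_ap (q := 4) (a := 1) isUnit_one).comp
    tendsto_natCast_atTop_atTop
  have htot : (Nat.totient 4 : ℝ) = 2 := by
    have : Nat.totient 4 = 2 := by decide
    rw [this]; norm_num
  rw [htot] at h
  filter_upwards [h.eventually (lt_mem_nhds hc), eventually_gt_atTop 1] with x hx hx1
  simp only [Function.comp_apply] at hx
  refine hx.le.trans ?_
  unfold Pool.Agent.Lib.PntAP.piAP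
  rw [Nat.floor_natCast, cntP_eq, div_div_eq_mul_div]
  have hxR : (1 : ℝ) < x := by exact_mod_cast hx1
  have hlog : 0 < Real.log x := Real.log_pos hxR
  gcongr
  intro p hp
  rw [Finset.mem_filter, Finset.mem_Icc] at hp
  rw [Finset.mem_filter, Finset.mem_range]
  refine ⟨by omega, hp.2.1, hQ p hp.2.1 ?_⟩
  have h1 : ((p : ℕ) : ZMod 4) = ((1 : ℕ) : ZMod 4) := by rw [hp.2.2]; simp
  rw [ZMod.natCast_eq_natCast_iff'] at h1
  simpa using h1

/-- middle factorial not `-1` -/
def MidOk (p : ℕ) : Prop := (((p / 2).factorial : ℕ) : ZMod p) ≠ -1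

/-- convergence of the probabilities -/
lemma prob_tendsto (L : ℕ → ℕ)
    (hL1 : Tendsto (fun n : ℕ => (L n : ℝ) / (n : ℝ) ^ (2 / 3 : ℝ)) atTop atTop)
    (hL2 : Tendsto (fun n : ℕ => (L n : ℝ) / n) atTop (𝓝 0)) :
    Tendsto (fun i : ℕ => prob (Nat.nth Nat.Prime i) (L (Nat.nth Nat.Prime i)) -
      Real.exp (-(3 / 4)) * (ind (MidOk (Nat.nth Nat.Prime i)) : ℝ)) atTop (𝓝 0) := by
  rw [Metric.tendsto_atTop]
  intro e he
  obtain ⟨K, hK, del, hdel, h⟩ := one_prime (e / 2) (by linarith)
  have hnth : Tendsto (Nat.nth Nat.Prime) atTop atTop :=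
    (Nat.nth_strictMono Nat.infinite_setOfPred_prime).tendsto_atTop
  have h1 := (hnth.eventually (hL1.eventually_ge_atTop K)).and
    (hnth.eventually (hL2.eventually (gt_mem_nhds hdel)))
  rw [eventually_atTop] at h1
  obtain ⟨N, hN⟩ := h1
  refine ⟨N, fun i hi => ?_⟩
  obtain ⟨h2, h3⟩ := hN i hi
  set p := Nat.nth Nat.Prime i with hp
  have hpp : p.Prime := Nat.prime_nth_prime i
  have hp0 : (0 : ℝ) < p := by exact_mod_cast hpp.pos
  have h4 : K * (p : ℝ) ^ (2 / 3 : ℝ) ≤ L p := by
    rwa [le_div_iff₀ (by positivity)] at h2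
  have h5 : (L p : ℝ) ≤ del * p := by
    rw [div_lt_iff₀ hp0] at h3
    exact h3.le
  have h6 := h p hpp (L p) h4 h5
  rw [Real.dist_eq, sub_zero]
  by_cases hm : MidOk p
  · rw [ind_pos hm, Nat.cast_one, mul_one]
    have := h6.1 hm
    linarith
  · rw [ind_neg hm, Nat.cast_zero, mul_zero, sub_zero]
    unfold MidOk at hm
    push Not at hm
    rw [h6.2 hm, abs_zero]
    exact he

section

variable {Ω : Type u} [MeasurableSpace Ω] {μ : Measure Ω} [IsProbabilityMeasure μ]

lemma measure_late (T : ∀ p : ℕ, Ω → Equiv.Perm (Fin (p / 2)))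
    (hT : ∀ p, @Measurable Ω _ _ ⊤ (T p)) (p L : ℕ)
    (hlaw : ∀ τ, μ.real {w | T p w = τ} = law p L τ) :
    μ.real {w | Late p (T p w)} = prob p L := by
  classical
  have h1 : {w | Late p (T p w)} =
      ⋃ τ ∈ (univ : Finset (Equiv.Perm (Fin (p / 2)))).filter (fun τ => Late p τ),
        {w | T p w = τ} := by
    ext w
    simp only [Set.mem_setOf_eq, Set.mem_iUnion, Finset.mem_filter, Finset.mem_univ, true_and,
      exists_prop]
    constructor
    · intro h; exact ⟨_, h, rfl⟩
    · rintro ⟨τ, h, rfl⟩; exact h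
  rw [h1, measureReal_biUnion_finset]
  · rw [← sum_law_late p L, Finset.sum_filter]
    apply Finset.sum_congr rfl
    intro τ _
    by_cases h : Late p τ
    · rw [if_pos h, Set.indicator_of_mem (show τ ∈ {σ | Late p σ} from h), hlaw]
    · rw [if_neg h, Set.indicator_of_notMem (show τ ∉ {σ | Late p σ} from h)]
  · intro τ _ σ _ hne
    rw [Function.onFun, Set.disjoint_left]
    intro w h1 h2
    exact hne (h1.symm.trans h2)
  · intro τ _
    exact hT p (show @MeasurableSet _ ⊤ {τ} from trivial)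

/-- **independent shuffles** -/
theorem almost_sure (L : ℕ → ℕ)
    (hL1 : Tendsto (fun n : ℕ => (L n : ℝ) / (n : ℝ) ^ (2 / 3 : ℝ)) atTop atTop)
    (hL2 : Tendsto (fun n : ℕ => (L n : ℝ) / n) atTop (𝓝 0))
    (T : ∀ p : ℕ, Ω → Equiv.Perm (Fin (p / 2)))
    (hT : ∀ p, @Measurable Ω _ _ ⊤ (T p)) (hind : iIndepFun (m := fun _ => ⊤) T μ)
    (hlaw : ∀ p : ℕ, p.Prime → 0 < L p → ∀ τ, μ.real {w | T p w = τ} = law p (L p) τ) :
    ∀ᵐ w ∂μ, Tendsto (fun x : ℕ => (cntP (fun p => Late p (T p w)) x -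
      Real.exp (-(3 / 4)) * cntP MidOk x) / ((x : ℝ) / Real.log x)) atTop (𝓝 0) := by
  classical
  -- the centred variables
  let q : ℕ → ℕ := Nat.nth Nat.Prime
  have hq : ∀ i, (q i).Prime := fun i => Nat.prime_nth_prime i
  have hqinj : Function.Injective q := Nat.nth_injective Nat.infinite_setOfPred_prime
  let P : ℕ → ℝ := fun i => μ.real {w | Late (q i) (T (q i) w)}
  let g : ∀ i : ℕ, Equiv.Perm (Fin (q i / 2)) → ℝ := fun i τ => (ind (Late (q i) τ) : ℝ) - P i
  let X : ℕ → Ω → ℝ := fun i w => g i (T (q i) w)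
  have hmeas : ∀ i, MeasurableSet {w | Late (q i) (T (q i) w)} := by
    intro i
    exact hT (q i) (show @MeasurableSet _ ⊤ {τ | Late (q i) τ} from trivial)
  have hXm : ∀ i, Measurable (X i) := by
    intro i
    have h1 : @Measurable _ _ ⊤ _ (g i) := fun s _ => trivial
    exact @Measurable.comp Ω _ ℝ _ ⊤ _ (g i) (T (q i)) h1 (hT (q i))
  have hXind : iIndepFun X μ := by
    have h1 : iIndepFun (m := fun _ => ⊤) (fun i => T (q i)) μ := hind.precomp hqinj
    exact h1.comp (fun i => g i) (fun i s _ => trivial)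
  have hP : ∀ i, 0 ≤ P i ∧ P i ≤ 1 := fun i => ⟨measureReal_nonneg, measureReal_le_one⟩
  have hXb : ∀ i w, |X i w| ≤ 1 := by
    intro i w
    change |(ind (Late (q i) (T (q i) w)) : ℝ) - P i| ≤ 1
    have := hP i
    by_cases h : Late (q i) (T (q i) w)
    · rw [ind_pos h, abs_le]; push_cast; constructor <;> linarith
    · rw [ind_neg h, abs_le]; push_cast; constructor <;> linarith
  have hind_eq : ∀ i w, (ind (Late (q i) (T (q i) w)) : ℝ) =
      Set.indicator {w | Late (q i) (T (q i) w)} (fun _ => (1 : ℝ)) w := by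
    intro i w
    by_cases h : Late (q i) (T (q i) w)
    · rw [ind_pos h, Set.indicator_of_mem (show w ∈ {w | Late (q i) (T (q i) w)} from h)]
      simp
    · rw [ind_neg h, Set.indicator_of_notMem (show w ∉ {w | Late (q i) (T (q i) w)} from h)]
      simp
  have hX0 : ∀ i, ∫ w, X i w ∂μ = 0 := by
    intro i
    change ∫ w, ((ind (Late (q i) (T (q i) w)) : ℝ) - P i) ∂μ = 0
    simp only [hind_eq]
    rw [integral_sub ((integrable_const _).indicator (hmeas i)) (integrable_const _),
      integral_indicator_const _ (hmeas i), integral_const]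
    simp [P]
  have hs := slln X hXind hXm hXb hX0
  have hnth : Tendsto q atTop atTop :=
    (Nat.nth_strictMono Nat.infinite_setOfPred_prime).tendsto_atTop
  -- the probabilities
  have hPlim : Tendsto (fun i => P i - Real.exp (-(3 / 4)) * (ind (MidOk (q i)) : ℝ)) atTop
      (𝓝 0) := by
    refine (prob_tendsto L hL1 hL2).congr' ?_
    have hpos : ∀ᶠ n : ℕ in atTop, 0 < L n := by
      filter_upwards [hL1.eventually_ge_atTop 1] with n hn
      by_contra hcon
      have : L n = 0 := by omega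
      rw [this] at hn
      simp at hn
      linarith
    filter_upwards [hnth.eventually hpos] with i hi
    have := measure_late (μ := μ) T hT (q i) (L (q i)) (hlaw (q i) (hq i) hi)
    change prob (q i) (L (q i)) - _ = P i - _
    rw [← this]
  have hces := hPlim.cesaro
  have hpi : Tendsto (fun x : ℕ => Nat.primeCounting x) atTop atTop := by
    have h1 : Tendsto (fun x : ℕ => ((Nat.primeCounting x : ℕ) : ℝ)) atTop atTop := by
      have h2 : Tendsto (fun x : ℕ => (x : ℝ) / Real.log x) atTop atTop := by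
        have h3 := (Real.isLittleO_log_id_atTop.tendsto_div_nhds_zero).comp
          tendsto_natCast_atTop_atTop
        have h4 : Tendsto (fun x : ℕ => (Real.log x / x)⁻¹) atTop atTop := by
          apply Tendsto.inv_tendsto_nhdsGT_zero
          rw [tendsto_nhdsWithin_iff]
          refine ⟨h3, ?_⟩
          filter_upwards [eventually_gt_atTop 1] with x hx
          have hxR : (1 : ℝ) < x := by exact_mod_cast hx
          have := Real.log_pos hxR
          exact div_pos this (by linarith)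
        refine h4.congr (fun x => ?_)
        rw [inv_div]
      have h5 := pnt.pos_mul_atTop one_pos h2
      refine h5.congr' ?_
      filter_upwards [eventually_gt_atTop 1] with x hx
      have hxR : (1 : ℝ) < x := by exact_mod_cast hx
      have := Real.log_pos hxR
      field_simp
    exact tendsto_natCast_atTop_iff.mp h1
  filter_upwards [hs] with w hw
  have h1 := (hw.add hces).comp hpi
  rw [add_zero] at h1
  have h2 := h1.mul pnt
  rw [zero_mul] at h2
  refine h2.congr' ?_
  filter_upwards [eventually_gt_atTop 1, hpi.eventually_gt_atTop 0] with x hx hpix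
  have hxR : (1 : ℝ) < x := by exact_mod_cast hx
  have hlog := Real.log_pos hxR
  have hpiR : (0 : ℝ) < Nat.primeCounting x := by exact_mod_cast hpix
  simp only [Function.comp_apply]
  rw [cntP_ind, cntP_ind]
  have h3 : ∑ i ∈ range (Nat.primeCounting x), X i w =
      ∑ i ∈ range (Nat.primeCounting x), (ind (Late (q i) (T (q i) w)) : ℝ) -
      ∑ i ∈ range (Nat.primeCounting x), P i := by
    rw [← Finset.sum_sub_distrib]
  have h4 : ∑ i ∈ range (Nat.primeCounting x),
      (P i - Real.exp (-(3 / 4)) * (ind (MidOk (q i)) : ℝ)) =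
      ∑ i ∈ range (Nat.primeCounting x), P i -
      Real.exp (-(3 / 4)) * ∑ i ∈ range (Nat.primeCounting x), (ind (MidOk (q i)) : ℝ) := by
    rw [Finset.sum_sub_distrib, Finset.mul_sum]
  rw [h3, h4]
  field_simp
  ring

/-- the model contradicts the assertion of Q1 -/
theorem almost_sure_lower (L : ℕ → ℕ)
    (hL1 : Tendsto (fun n : ℕ => (L n : ℝ) / (n : ℝ) ^ (2 / 3 : ℝ)) atTop atTop)
    (hL2 : Tendsto (fun n : ℕ => (L n : ℝ) / n) atTop (𝓝 0))
    (T : ∀ p : ℕ, Ω → Equiv.Perm (Fin (p / 2)))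
    (hT : ∀ p, @Measurable Ω _ _ ⊤ (T p)) (hind : iIndepFun (m := fun _ => ⊤) T μ)
    (hlaw : ∀ p : ℕ, p.Prime → 0 < L p → ∀ τ, μ.real {w | T p w = τ} = law p (L p) τ) :
    ∀ᵐ w ∂μ, Tendsto (fun x : ℕ => (cntP (fun p => Late p (T p w)) x -
      Real.exp (-(3 / 4)) * cntP MidOk x) / ((x : ℝ) / Real.log x)) atTop (𝓝 0) ∧
      ∀ c : ℝ, c < Real.exp (-(3 / 4)) / 2 → ∀ᶠ x : ℕ in atTop,
        c * ((x : ℝ) / Real.log x) ≤ cntP (fun p => Late p (T p w)) x := by
  filter_upwards [almost_sure L hL1 hL2 T hT hind hlaw] with w hw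
  refine ⟨hw, ?_⟩
  intro c hc
  have hE : 0 < Real.exp (-(3 / 4)) := Real.exp_pos _
  set E := Real.exp (-(3 / 4)) with hEdef
  set d := (E / 2 - c) / 2 with hd
  have hd0 : 0 < d := by linarith
  have h1 : (1 / 2 - d / E) < 1 / 2 := by
    have : 0 < d / E := by positivity
    linarith
  have h2 := pnt4 MidOk (fun p hp h4 => by
    haveI : Fact p.Prime := ⟨hp⟩
    exact half_of_one_mod_four h4) _ h1
  have hneg : -d < 0 := by linarith
  filter_upwards [h2, hw.eventually (lt_mem_nhds hneg), eventually_gt_atTop 1] with x h3 h4 hx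
  have hxR : (1 : ℝ) < x := by exact_mod_cast hx
  have hlog := Real.log_pos hxR
  have hX : 0 < (x : ℝ) / Real.log x := div_pos (by linarith) hlog
  rw [le_div_iff₀ hX] at h3
  rw [lt_div_iff₀ hX] at h4
  have h5 : E * ((1 / 2 - d / E) * ((x : ℝ) / Real.log x)) ≤ E * cntP MidOk x :=
    mul_le_mul_of_nonneg_left h3 hE.le
  have h6 : E * ((1 / 2 - d / E) * ((x : ℝ) / Real.log x)) =
      (E / 2 - d) * ((x : ℝ) / Real.log x) := by
    field_simp
  rw [h6] at h5
  have h7 : c * ((x : ℝ) / Real.log x) = (E / 2 - d) * ((x : ℝ) / Real.log x) -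
      d * ((x : ℝ) / Real.log x) := by
    rw [hd]; ring
  rw [h7]
  linarith

end

/-- the random shuffles exist -/
theorem exist (L : ℕ → ℕ) : ∃ (Ω : Type) (_ : MeasurableSpace Ω) (μ : Measure Ω)
    (T : ∀ p : ℕ, Ω → Equiv.Perm (Fin (p / 2))), IsProbabilityMeasure μ ∧
      (∀ p, @Measurable Ω _ _ ⊤ (T p)) ∧ iIndepFun (m := fun _ => ⊤) T μ ∧
      ∀ p : ℕ, p.Prime → 0 < L p → ∀ τ, μ.real {w | T p w = τ} = law p (L p) τ := by
  classical
  let w : ∀ p : ℕ, Equiv.Perm (Fin (p / 2)) → ℝ := fun p τ =>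
    if 0 < L p then law p (L p) τ else if τ = 1 then 1 else 0
  have hw0 : ∀ p τ, 0 ≤ w p τ := by
    intro p τ
    change 0 ≤ (if 0 < L p then law p (L p) τ else if τ = 1 then 1 else 0)
    split_ifs
    · exact law_nonneg _ _ _
    · norm_num
    · norm_num
  have hw1 : ∀ p, ∑ τ, w p τ = 1 := by
    intro p
    change ∑ τ, (if 0 < L p then law p (L p) τ else if τ = 1 then 1 else 0) = 1
    split_ifs with h
    · exact sum_law_one p (L p) h
    · simp
  letI : ∀ p : ℕ, MeasurableSpace (Equiv.Perm (Fin (p / 2))) := fun _ => ⊤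
  let ν : ∀ p : ℕ, Measure (Equiv.Perm (Fin (p / 2))) := fun p =>
    ∑ τ, ENNReal.ofReal (w p τ) • Measure.dirac τ
  have hν : ∀ p, IsProbabilityMeasure (ν p) := by
    intro p
    constructor
    simp only [ν, Measure.coe_finsetSum, Finset.sum_apply, Measure.smul_apply, measure_univ,
      smul_eq_mul, mul_one]
    rw [← ENNReal.ofReal_sum_of_nonneg (fun τ _ => hw0 p τ), hw1 p, ENNReal.ofReal_one]
  haveI := hν
  refine ⟨∀ p : ℕ, Equiv.Perm (Fin (p / 2)), inferInstance, Measure.infinitePi ν,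
    fun p x => x p, inferInstance, fun p => measurable_pi_apply p, ?_, ?_⟩
  · exact iIndepFun_infinitePi (P := ν) (X := fun p τ => τ) (fun p => measurable_id)
  · intro p _ hLp τ
    have h1 : Measure.infinitePi ν {x | x p = τ} = ν p {τ} := by
      have h2 := Measure.infinitePi_map_eval ν p
      rw [← h2, Measure.map_apply (measurable_pi_apply p) MeasurableSpace.measurableSet_top]
      rfl
    rw [Measure.real, h1]
    simp only [ν, Measure.coe_finsetSum, Finset.sum_apply, Measure.smul_apply, smul_eq_mul]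
    rw [Finset.sum_eq_single τ]
    · rw [Measure.dirac_apply' _ MeasurableSpace.measurableSet_top]
      simp only [Set.indicator_of_mem (Set.mem_singleton τ), Pi.one_apply, mul_one]
      rw [ENNReal.toReal_ofReal (hw0 p τ)]
      change (if 0 < L p then law p (L p) τ else if τ = 1 then 1 else 0) = _
      rw [if_pos hLp]
    · intro σ _ hne
      rw [Measure.dirac_apply' _ MeasurableSpace.measurableSet_top, Set.indicator_of_notMem (by simpa using hne), mul_zero]
    · intro h; exact absurd (Finset.mem_univ τ) h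

end MP1fb.LS
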