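import Pool.Agent.Lib.MP_1fb68e_nt.LS.Defs
import Pool.Agent.Lib.MP_1fb68e_nt.LS.SLLN
import Pool.Agent.Lib.MP_cb27ba_nt.H71.PV

section
/-!
MP_1fb68e_nt, local shuffles: reduction to the first half (reflection and Wilson's theorem).
-/
set_option autoImplicit false

namespace MP1fb.LS

open Finset

variable {p : ℕ}

lemma factor_low (τ : Equiv.Perm (Fin (p / 2))) (k : ℕ) (hk : k < p / 2) :
    factor p τ (k + 1) = ((τ ⟨k, hk⟩ : ℕ) : ZMod p) + 1 := by
  unfold factor
  rw [dif_pos ⟨by omega, by omega⟩]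
  rfl

lemma factor_high (hodd : p % 2 = 1) (τ : Equiv.Perm (Fin (p / 2))) (k : ℕ) (hk : k < p / 2) :
    factor p τ (p - (k + 1)) = -factor p τ (k + 1) := by
  rw [factor_low τ k hk]
  unfold factor
  rw [dif_neg (by omega), dif_pos ⟨by omega, by omega⟩]
  congr 3
  simp only [show p - (p - (k + 1)) - 1 = k by omega]

lemma part_succ (τ : Equiv.Perm (Fin (p / 2))) (n : ℕ) :
    part p τ (n + 1) = part p τ n * factor p τ (n + 1) := by
  unfold part
  rw [Finset.prod_range_succ]

/-- product of the first half -/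
lemma part_half (τ : Equiv.Perm (Fin (p / 2))) :
    part p τ (p / 2) = (((p / 2).factorial : ℕ) : ZMod p) := by
  unfold part
  rw [Finset.prod_range]
  have h1 : ∀ i : Fin (p / 2), factor p τ ((i : ℕ) + 1) = ((τ i : ℕ) : ZMod p) + 1 := by
    intro i
    exact factor_low τ i i.2
  rw [Finset.prod_congr rfl (fun i _ => h1 i)]
  rw [Equiv.prod_comp τ (fun i : Fin (p / 2) => ((i : ℕ) : ZMod p) + 1)]
  rw [← Finset.prod_range (fun i : ℕ => ((i : ℕ) : ZMod p) + 1)]
  rw [← Finset.prod_range_add_one_eq_factorial]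
  push_cast
  rfl

/-- reflection -/
lemma part_reflect (hodd : p % 2 = 1) (τ : Equiv.Perm (Fin (p / 2))) (m : ℕ) (hm : m ≤ p / 2) :
    part p τ (p - 1 - m) * ((-1) ^ m * part p τ m) = part p τ (p - 1) := by
  have h1 : p - 1 = (p - 1 - m) + m := by omega
  conv_rhs => rw [h1]
  unfold part
  rw [Finset.prod_range_add]
  congr 1
  rw [← Finset.prod_range_reflect (fun x => factor p τ (p - 1 - m + x + 1)) m]
  have h2 : ∀ i ∈ range m, factor p τ (p - 1 - m + (m - 1 - i) + 1) =
      (-1) * factor p τ (i + 1) := by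
    intro i hi
    rw [Finset.mem_range] at hi
    have : p - 1 - m + (m - 1 - i) + 1 = p - (i + 1) := by omega
    rw [this, factor_high hodd τ i (by omega)]
    ring
  rw [Finset.prod_congr rfl h2, Finset.prod_mul_distrib, Finset.prod_const, Finset.card_range]

/-- for the identity order the partial products are the factorials. -/
lemma part_one (hodd : p % 2 = 1) (n : ℕ) (hn : n < p) :
    part p 1 n = ((n.factorial : ℕ) : ZMod p) := by
  unfold part
  rw [← Finset.prod_range_add_one_eq_factorial]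
  push_cast
  apply Finset.prod_congr rfl
  intro k hk
  rw [Finset.mem_range] at hk
  rcases lt_or_ge k (p / 2) with h | h
  · rw [factor_low 1 k h]; simp
  · have h1 : k + 1 = p - ((p - k - 2) + 1) := by omega
    rw [h1, factor_high hodd 1 (p - k - 2) (by omega), factor_low 1 (p - k - 2) (by omega)]
    simp only [Equiv.Perm.coe_one, id_eq]
    have h2 : ((p - k - 2 : ℕ) : ZMod p) = -(k : ZMod p) - 2 := by
      have h3 : (p - k - 2) + k + 2 = p := by omega
      have h4 : (((p - k - 2) + k + 2 : ℕ) : ZMod p) = 0 := by rw [h3]; simp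
      push_cast at h4
      linear_combination h4
    rw [h2]
    ring

lemma part_last [hp : Fact p.Prime] (hodd : p % 2 = 1) (τ : Equiv.Perm (Fin (p / 2))) :
    part p τ (p - 1) = -1 := by
  have h1 := part_reflect hodd τ (p / 2) le_rfl
  have h2 := part_reflect hodd 1 (p / 2) le_rfl
  have h3 : p - 1 - p / 2 = p / 2 := by omega
  rw [h3, part_half] at h1 h2
  rw [← h1, h2, part_one hodd (p - 1) (by have := hp.out.pos; omega)]
  exact ZMod.wilsons_lemma p

/-- **Reduction** to the first half. -/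
theorem late_iff [hp : Fact p.Prime] (hodd : p % 2 = 1) (τ : Equiv.Perm (Fin (p / 2))) :
    Late p τ ↔ ∀ k, 1 ≤ k → k ≤ p / 2 → part p τ k ≠ -1 ∧ part p τ k ≠ (-1) ^ k := by
  have hp3 : 3 ≤ p := by
    have := hp.out.two_le
    omega
  have hsq : ∀ m : ℕ, ((-1 : ZMod p) ^ m) * (-1) ^ m = 1 := by
    intro m
    rw [← mul_pow]; simp
  constructor
  · rintro ⟨-, h⟩ k hk1 hk2
    constructor
    · intro hk
      have := h ⟨hk1, hk⟩
      omega
    · intro hk
      have h1 := part_reflect hodd τ k hk2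
      rw [hk, hsq, mul_one, part_last hodd τ] at h1
      have := h (show p - 1 - k ∈ {n : ℕ | 1 ≤ n ∧ part p τ n = -1} from ⟨by omega, h1⟩)
      omega
  · intro h
    refine ⟨⟨by omega, part_last hodd τ⟩, ?_⟩
    rintro n ⟨hn1, hn2⟩
    by_contra hcon
    push Not at hcon
    rcases le_or_gt n (p / 2) with h1 | h1
    · exact (h n hn1 h1).1 hn2
    · set m := p - 1 - n with hm
      have hm1 : 1 ≤ m := by omega
      have hm2 : m ≤ p / 2 := by omega
      have h2 := part_reflect hodd τ m hm2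
      rw [show p - 1 - m = n by omega, hn2, part_last hodd τ] at h2
      apply (h m hm1 hm2).2
      have h3 : (-1 : ZMod p) ^ m * part p τ m = 1 := by linear_combination -h2
      calc part p τ m = ((-1 : ZMod p) ^ m * (-1) ^ m) * part p τ m := by rw [hsq, one_mul]
        _ = (-1) ^ m * ((-1 : ZMod p) ^ m * part p τ m) := by ring
        _ = (-1) ^ m := by rw [h3, mul_one]

end MP1fb.LS
end

section
/-!
MP_1fb68e_nt, local shuffles: a local shuffle is a family of permutations of the blocks.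
-/
set_option autoImplicit false

namespace MP1fb.LS

open Finset

/-- start of block `b` -/
def st (H L u b : ℕ) : ℕ := min H (b * L - u)

/-- length of block `b` -/
def len (H L u b : ℕ) : ℕ := st H L u (b + 1) - st H L u b

lemma st_le (H L u b : ℕ) : st H L u b ≤ H := min_le_left _ _

lemma st_zero (H L u : ℕ) : st H L u 0 = 0 := by unfold st; simp

lemma st_mono (H L u b : ℕ) : st H L u b ≤ st H L u (b + 1) := by
  unfold st
  have : (b + 1) * L = b * L + L := by ring
  omega

lemma st_add_len (H L u b : ℕ) : st H L u b + len H L u b = st H L u (b + 1) := by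
  unfold len
  have := st_mono H L u b
  omega

lemma block_of (H L u b i : ℕ) (hu : u < L) (hi : i < len H L u b) :
    (st H L u b + i + u) / L = b := by
  have h1 : (b + 1) * L = b * L + L := by ring
  have hL : 0 < L := by omega
  unfold len st at hi
  rw [Nat.div_eq_iff hL]
  unfold st
  rcases Nat.eq_zero_or_pos b with rfl | hb
  · simp only [Nat.zero_mul, Nat.zero_sub, Nat.zero_add] at *
    omega
  · have h2 : L ≤ b * L := Nat.le_mul_of_pos_left L hb
    have h3 : (b * L + L - 1 : ℕ) = b * L + (L - 1) := by omega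
    omega

lemma st_le_iff (H L u b x : ℕ) (hu : u < L) (hx : x < H) :
    x < st H L u b ↔ (x + u) / L < b := by
  have hL : 0 < L := by omega
  rw [Nat.div_lt_iff_lt_mul hL]
  unfold st
  omega

lemma len_of (H L u x : ℕ) (hu : u < L) (hx : x < H) :
    st H L u ((x + u) / L) ≤ x ∧ x < st H L u ((x + u) / L + 1) := by
  constructor
  · have := (st_le_iff H L u ((x + u) / L) x hu hx).not
    omega
  · rw [st_le_iff H L u _ x hu hx]; omega

lemma st_last (H L u B : ℕ) (hB : H + u ≤ B * L) : st H L u B = H := by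
  unfold st
  omega

/-- the places as pairs (block, place in the block) -/
def plc (H L u B : ℕ) (hu : u < L) (hB : H + u ≤ B * L) :
    (Σ b : Fin B, Fin (len H L u b)) ≃ Fin H where
  toFun x := ⟨st H L u x.1 + x.2, by
    have h1 := x.2.2
    have h2 := st_add_len H L u x.1
    have h3 := st_le H L u (x.1 + 1)
    omega⟩
  invFun x := ⟨⟨((x : ℕ) + u) / L, by
      rw [Nat.div_lt_iff_lt_mul (by omega)]
      have := x.2
      omega⟩, ⟨x - st H L u (((x : ℕ) + u) / L), by
      have := len_of H L u x hu x.2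
      have h2 := st_add_len H L u (((x : ℕ) + u) / L)
      simp only
      omega⟩⟩
  left_inv x := by
    obtain ⟨b, i⟩ := x
    have h1 := block_of H L u b i hu i.2
    have h2 : (⟨(st H L u b + i + u) / L, by rw [h1]; exact b.2⟩ : Fin B) = b := Fin.ext h1
    simp only
    rw [Sigma.mk.injEq]
    refine ⟨h2, ?_⟩
    rw [Fin.heq_ext_iff (by simp only [h1])]
    simp only [h1]
    omega
  right_inv x := by
    have := len_of H L u x hu x.2
    apply Fin.ext
    simp only
    omega

/-- the local shuffle given by permutations of the blocks -/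
def glue (H L u B : ℕ) (hu : u < L) (hB : H + u ≤ B * L)
    (π : ∀ b : Fin B, Equiv.Perm (Fin (len H L u b))) : Equiv.Perm (Fin H) :=
  (plc H L u B hu hB).symm.trans ((Equiv.sigmaCongrRight π).trans (plc H L u B hu hB))

lemma glue_apply (H L u B : ℕ) (hu : u < L) (hB : H + u ≤ B * L)
    (π : ∀ b : Fin B, Equiv.Perm (Fin (len H L u b))) (b : Fin B) (i : Fin (len H L u b)) :
    glue H L u B hu hB π (plc H L u B hu hB ⟨b, i⟩) = plc H L u B hu hB ⟨b, π b i⟩ := by
  unfold glue
  simp

lemma glue_local (H L u B : ℕ) (hu : u < L) (hB : H + u ≤ B * L)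
    (π : ∀ b : Fin B, Equiv.Perm (Fin (len H L u b))) : Local H L u (glue H L u B hu hB π) := by
  intro x
  obtain ⟨⟨b, i⟩, rfl⟩ := (plc H L u B hu hB).surjective x
  rw [glue_apply]
  change (st H L u b + (π b i : ℕ) + u) / L = (st H L u b + (i : ℕ) + u) / L
  rw [block_of H L u b _ hu (π b i).2, block_of H L u b _ hu i.2]

lemma glue_injective (H L u B : ℕ) (hu : u < L) (hB : H + u ≤ B * L) :
    Function.Injective (glue H L u B hu hB) := by
  intro π π' h
  funext b
  apply Equiv.ext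
  intro i
  have h1 := glue_apply H L u B hu hB π b i
  rw [h, glue_apply] at h1
  have h2 := (plc H L u B hu hB).injective h1
  have h3 := eq_of_heq (Sigma.mk.inj h2).2
  exact h3.symm

lemma glue_surjective (H L u B : ℕ) (hu : u < L) (hB : H + u ≤ B * L)
    (τ : Equiv.Perm (Fin H)) (hτ : Local H L u τ) : ∃ π, glue H L u B hu hB π = τ := by
  have hin : ∀ (b : Fin B) (i : Fin (len H L u b)),
      st H L u b ≤ (τ (plc H L u B hu hB ⟨b, i⟩) : ℕ) ∧
      (τ (plc H L u B hu hB ⟨b, i⟩) : ℕ) < st H L u (b + 1) := by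
    intro b i
    have h1 := hτ (plc H L u B hu hB ⟨b, i⟩)
    have h2 : ((plc H L u B hu hB ⟨b, i⟩ : ℕ) + u) / L = b := block_of H L u b _ hu i.2
    rw [h2] at h1
    have h3 := len_of H L u _ hu (τ (plc H L u B hu hB ⟨b, i⟩)).2
    rw [h1] at h3
    exact h3
  let f : ∀ b : Fin B, Fin (len H L u b) → Fin (len H L u b) := fun b i =>
    ⟨(τ (plc H L u B hu hB ⟨b, i⟩) : ℕ) - st H L u b, by
      have := hin b i
      have h2 := st_add_len H L u b
      omega⟩
  have hf : ∀ b, Function.Injective (f b) := by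
    intro b i j hij
    have h1 : (τ (plc H L u B hu hB ⟨b, i⟩) : ℕ) - st H L u b =
        (τ (plc H L u B hu hB ⟨b, j⟩) : ℕ) - st H L u b := congrArg Fin.val hij
    have h2 := hin b i
    have h3 := hin b j
    have h4 : τ (plc H L u B hu hB ⟨b, i⟩) = τ (plc H L u B hu hB ⟨b, j⟩) :=
      Fin.ext (by omega)
    have h5 := (plc H L u B hu hB).injective (τ.injective h4)
    exact eq_of_heq (Sigma.mk.inj h5).2
  refine ⟨fun b => Equiv.ofBijective (f b) (Finite.injective_iff_bijective.mp (hf b)), ?_⟩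
  apply Equiv.ext
  intro x
  obtain ⟨⟨b, i⟩, rfl⟩ := (plc H L u B hu hB).surjective x
  rw [glue_apply]
  apply Fin.ext
  change st H L u b + ((τ (plc H L u B hu hB ⟨b, i⟩) : ℕ) - st H L u b) = _
  have := hin b i
  omega

/-- counting over local shuffles -/
theorem num_glue (H L u B : ℕ) (hu : u < L) (hB : H + u ≤ B * L)
    (R : Equiv.Perm (Fin H) → Prop) :
    num (fun τ => Local H L u τ ∧ R τ) = num (fun π => R (glue H L u B hu hB π)) := by
  classical
  rw [num_eq, num_eq]
  symm
  apply Finset.card_bij (fun π _ => glue H L u B hu hB π)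
  · intro π hπ
    rw [Finset.mem_filter] at hπ ⊢
    exact ⟨mem_univ _, glue_local H L u B hu hB π, hπ.2⟩
  · intro π _ π' _ h
    exact glue_injective H L u B hu hB h
  · intro τ hτ
    rw [Finset.mem_filter] at hτ
    obtain ⟨π, rfl⟩ := glue_surjective H L u B hu hB τ hτ.2.1
    exact ⟨π, Finset.mem_filter.mpr ⟨mem_univ _, hτ.2.2⟩, rfl⟩

/-- independence -/
lemma num_pi {ι : Type*} [Fintype ι] [DecidableEq ι] {α : ι → Type*} [∀ i, Fintype (α i)]
    (Q : ∀ i, α i → Prop) :
    num (fun f : (∀ i, α i) => ∀ i, Q i (f i)) = ∏ i, num (Q i) := by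
  classical
  rw [num_eq]
  have h1 : (univ.filter (fun f : (∀ i, α i) => ∀ i, Q i (f i))) =
      Fintype.piFinset (fun i => univ.filter (Q i)) := by
    ext f
    simp [Fintype.mem_piFinset]
  rw [h1, Fintype.card_piFinset]
  apply Finset.prod_congr rfl
  intro i _
  rw [num_eq]

lemma num_true {Ω : Type*} [Fintype Ω] : num (fun _ : Ω => True) = Fintype.card Ω := by
  classical
  rw [num_eq, Finset.filter_true, Finset.card_univ]

lemma num_not {Ω : Type*} [Fintype Ω] (P : Ω → Prop) :
    (num (fun w => ¬ P w) : ℝ) = Fintype.card Ω - num P := by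
  classical
  have h1 : num P + num (fun w => ¬ P w) = Fintype.card Ω := by
    rw [num_eq, num_eq, Finset.card_filter_add_card_filter_not, Finset.card_univ]
  have h2 : (num P : ℝ) + num (fun w => ¬ P w) = Fintype.card Ω := by exact_mod_cast h1
  linarith

lemma num_mono {Ω : Type*} [Fintype Ω] (P Q : Ω → Prop) (h : ∀ w, P w → Q w) :
    num P ≤ num Q := by
  classical
  rw [num_eq, num_eq]
  exact Finset.card_le_card (fun w hw => by
    rw [Finset.mem_filter] at hw ⊢
    exact ⟨hw.1, h w hw.2⟩)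

/-- number of all local shuffles -/
theorem num_local (H L u B : ℕ) (hu : u < L) (hB : H + u ≤ B * L) :
    num (fun τ : Equiv.Perm (Fin H) => Local H L u τ) = ∏ b : Fin B, (len H L u b).factorial := by
  have h1 : num (fun τ : Equiv.Perm (Fin H) => Local H L u τ) =
      num (fun τ : Equiv.Perm (Fin H) => Local H L u τ ∧ True) := by
    congr 1
    funext τ
    simp
  rw [h1, num_glue H L u B hu hB, num_true, Fintype.card_pi]
  apply Finset.prod_congr rfl
  intro b _
  rw [Fintype.card_perm, Fintype.card_fin]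

end MP1fb.LS
end

section
/-!
MP_1fb68e_nt, local shuffles: the proportion of the local shuffles with `Late` as a product
over the blocks.
-/
set_option autoImplicit false

namespace MP1fb.LS

open Finset

/-- the values excluded at place `k` -/
def targ (p k : ℕ) : Finset (ZMod p) := {-1, (-1) ^ k}

lemma card_targ_le (p k : ℕ) : (targ p k).card ≤ 2 := Finset.card_le_two

lemma card_targ (p k : ℕ) [hp : Fact p.Prime] (hodd : p % 2 = 1) :
    (targ p k).card = if k % 2 = 0 then 2 else 1 := by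
  have hp2 : 2 < p := by
    have := hp.out.two_le
    omega
  haveI : Fact (2 < p) := ⟨hp2⟩
  have hne : (-1 : ZMod p) ≠ 1 := ZMod.neg_one_ne_one
  unfold targ
  split_ifs with h
  · have : Even k := Nat.even_iff.mpr h
    rw [this.neg_one_pow, Finset.card_pair hne]
  · have : Odd k := Nat.odd_iff.mpr (by omega)
    rw [this.neg_one_pow]
    simp

lemma zero_notMem_targ (p k : ℕ) [hp : Fact p.Prime] : (0 : ZMod p) ∉ targ p k := by
  unfold targ
  rw [Finset.mem_insert, Finset.mem_singleton, not_or]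
  have h1 : (-1 : ZMod p) ≠ 0 := neg_ne_zero.mpr one_ne_zero
  exact ⟨h1.symm, (pow_ne_zero k h1).symm⟩

variable {p : ℕ} [hp : Fact p.Prime]

lemma fac_ne_zero (m : ℕ) (hm : m < p) : ((m.factorial : ℕ) : ZMod p) ≠ 0 := by
  rw [Ne, ZMod.natCast_eq_zero_iff]
  intro h
  have := (hp.out.dvd_factorial).mp h
  omega

omit hp in
lemma prod_range_eq_fin {M : Type*} [CommMonoid M] (H m : ℕ) (hm : m ≤ H) (g : ℕ → M) :
    ∏ k ∈ range m, g k =
      ∏ x ∈ (univ : Finset (Fin H)).filter (fun x : Fin H => (x : ℕ) < m), g (x : ℕ) := by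
  symm
  apply Finset.prod_bij (fun (x : Fin H) _ => (x : ℕ))
  · intro x hx
    rw [Finset.mem_filter] at hx
    exact Finset.mem_range.mpr hx.2
  · intro x _ y _ h
    exact Fin.ext h
  · intro k hk
    rw [Finset.mem_range] at hk
    exact ⟨⟨k, by omega⟩, Finset.mem_filter.mpr ⟨mem_univ _, hk⟩, rfl⟩
  · intro x _
    rfl

/-- at the start of a block the product is a factorial. -/
lemma part_start (L u b : ℕ) (hu : u < L) (τ : Equiv.Perm (Fin (p / 2)))
    (hτ : Local (p / 2) L u τ) :
    part p τ (st (p / 2) L u b) = (((st (p / 2) L u b).factorial : ℕ) : ZMod p) := by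
  set m := st (p / 2) L u b with hm
  have hmH : m ≤ p / 2 := st_le _ _ _ _
  have h1 : part p τ m = ∏ x ∈ (univ : Finset (Fin (p / 2))).filter (fun x : Fin (p / 2) => (x : ℕ) < m),
      (((τ x : ℕ) : ZMod p) + 1) := by
    unfold part
    rw [prod_range_eq_fin (p / 2) m hmH]
    apply Finset.prod_congr rfl
    intro x _
    rw [factor_low τ x x.2]
  have h2 : ∏ x ∈ (univ : Finset (Fin (p / 2))).filter (fun x : Fin (p / 2) => (x : ℕ) < m),
      (((τ x : ℕ) : ZMod p) + 1) =
      ∏ x ∈ (univ : Finset (Fin (p / 2))).filter (fun x : Fin (p / 2) => (x : ℕ) < m),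
      (((x : ℕ) : ZMod p) + 1) := by
    apply Finset.prod_equiv τ
    · intro x
      rw [Finset.mem_filter, Finset.mem_filter]
      have e1 := st_le_iff (p / 2) L u b x hu x.2
      have e2 := st_le_iff (p / 2) L u b (τ x) hu (τ x).2
      rw [← hm] at e1 e2
      rw [e1, e2, hτ x]
      simp
    · intro x _
      rfl
  rw [h1, h2, ← prod_range_eq_fin (p / 2) m hmH (fun k => ((k : ℕ) : ZMod p) + 1),
    ← Finset.prod_range_add_one_eq_factorial]
  push_cast
  rfl

/-- the numbers of a block -/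
def vb (p s ℓ : ℕ) (i : Fin ℓ) : ZMod p := ((s + i + 1 : ℕ) : ZMod p)

/-- inside a block -/
lemma part_block (L u B : ℕ) (hu : u < L) (hB : p / 2 + u ≤ B * L)
    (π : ∀ b : Fin B, Equiv.Perm (Fin (len (p / 2) L u b))) (b : Fin B) (j : ℕ)
    (hj : j ≤ len (p / 2) L u b) :
    part p (glue (p / 2) L u B hu hB π) (st (p / 2) L u b + j) =
      (((st (p / 2) L u b).factorial : ℕ) : ZMod p) *
        pre (vb p (st (p / 2) L u b) (len (p / 2) L u b)) (π b) j := by
  rw [← part_start L u b hu _ (glue_local (p / 2) L u B hu hB π)]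
  unfold part
  rw [Finset.prod_range_add]
  congr 1
  rw [prod_range_eq_fin (len (p / 2) L u b) j hj]
  unfold pre fst
  apply Finset.prod_congr rfl
  intro i _
  have h1 := st_add_len (p / 2) L u b
  have h2 := st_le (p / 2) L u (b + 1)
  have h3 := i.2
  rw [factor_low _ (st (p / 2) L u b + i) (by omega)]
  have h4 := glue_apply (p / 2) L u B hu hB π b i
  have h5 : (plc (p / 2) L u B hu hB ⟨b, i⟩) = ⟨st (p / 2) L u b + i, by omega⟩ := rfl
  rw [← h5, h4]
  unfold vb
  change (((st (p / 2) L u b + (π b i : ℕ) : ℕ)) : ZMod p) + 1 = _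
  push_cast
  ring

/-- excluded products inside a block -/
def ctar (p s j : ℕ) : Finset (ZMod p) :=
  (targ p (s + j)).image (fun t => t * ((s.factorial : ℕ) : ZMod p)⁻¹)

lemma mem_ctar (s j : ℕ) (hs : s < p) (x : ZMod p) :
    x ∈ ctar p s j ↔ ((s.factorial : ℕ) : ZMod p) * x ∈ targ p (s + j) := by
  have h := fac_ne_zero s hs
  unfold ctar
  rw [Finset.mem_image]
  constructor
  · rintro ⟨t, ht, rfl⟩
    rwa [mul_comm t, mul_inv_cancel_left₀ h]
  · intro hx
    exact ⟨_, hx, by field_simp⟩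

lemma card_ctar (s j : ℕ) (hs : s < p) : (ctar p s j).card = (targ p (s + j)).card := by
  unfold ctar
  apply Finset.card_image_of_injective
  intro a b hab
  have h := fac_ne_zero s hs
  simp only at hab
  exact mul_right_cancel₀ (inv_ne_zero h) hab

lemma zero_notMem_ctar (s j : ℕ) (hs : s < p) : (0 : ZMod p) ∉ ctar p s j := by
  rw [mem_ctar s j hs, mul_zero]
  exact zero_notMem_targ p _

/-- no factorial at the end of a block is excluded. -/
def Bd (p L u B : ℕ) : Prop :=
  ∀ b, 1 ≤ b → b ≤ B → (((st (p / 2) L u b).factorial : ℕ) : ZMod p) ∉ targ p (st (p / 2) L u b)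

theorem late_glue (hodd : p % 2 = 1) (L u B : ℕ) (hu : u < L) (hB : p / 2 + u ≤ B * L)
    (π : ∀ b : Fin B, Equiv.Perm (Fin (len (p / 2) L u b))) :
    Late p (glue (p / 2) L u B hu hB π) ↔ Bd p L u B ∧
      ∀ b : Fin B, ¬ ∃ j ∈ Ico 1 (len (p / 2) L u b),
        pre (vb p (st (p / 2) L u b) (len (p / 2) L u b)) (π b) j ∈
          ctar p (st (p / 2) L u b) j := by
  have hp3 : 3 ≤ p := by
    have := hp.out.two_le
    omega
  set τ := glue (p / 2) L u B hu hB π with hτ
  have hloc : Local (p / 2) L u τ := glue_local (p / 2) L u B hu hB π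
  have hstp : ∀ b, st (p / 2) L u b < p := fun b => by
    have := st_le (p / 2) L u b
    omega
  rw [late_iff hodd]
  have hmem : ∀ k, (part p τ k ≠ -1 ∧ part p τ k ≠ (-1) ^ k) ↔ part p τ k ∉ targ p k := by
    intro k
    unfold targ
    rw [Finset.mem_insert, Finset.mem_singleton, not_or]
  simp only [hmem]
  have hlast : st (p / 2) L u B = p / 2 := st_last _ _ _ _ hB
  constructor
  · intro h
    refine ⟨?_, ?_⟩
    · intro b hb1 hb2
      rw [← part_start L u b hu τ hloc]
      apply h _ _ (st_le _ _ _ _)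
      -- `st b ≥ 1`
      by_contra hcon
      have h0 : st (p / 2) L u b = 0 := by omega
      unfold st at h0
      have h1 : L ≤ b * L := Nat.le_mul_of_pos_left L hb1
      omega
    · rintro b ⟨j, hj, hmemj⟩
      rw [Finset.mem_Ico] at hj
      rw [mem_ctar _ _ (hstp b), ← part_block L u B hu hB π b j (by omega), ← hτ] at hmemj
      have h1 := st_add_len (p / 2) L u b
      have h2 := st_le (p / 2) L u (b + 1)
      exact h _ (by omega) (by omega) hmemj
  · rintro ⟨h1, h2⟩ k hk1 hk2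
    rcases Nat.lt_or_ge k (p / 2) with hk | hk
    · have h3 := len_of (p / 2) L u k hu hk
      have hbB : (k + u) / L < B := by
        rw [Nat.div_lt_iff_lt_mul (by omega)]
        omega
      set b : Fin B := ⟨(k + u) / L, hbB⟩ with hb
      have h4 := st_add_len (p / 2) L u b
      change st (p / 2) L u b ≤ k ∧ k < st (p / 2) L u (b + 1) at h3
      rcases Nat.eq_or_lt_of_le h3.1 with h5 | h5
      · rw [← h5, part_start L u b hu τ hloc]
        apply h1 _ _ b.2.le
        by_contra hcon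
        have h0 : (b : ℕ) = 0 := by omega
        rw [h0, st_zero] at h5
        omega
      · intro hmemk
        apply h2 b
        refine ⟨k - st (p / 2) L u b, Finset.mem_Ico.mpr (by omega), ?_⟩
        rw [mem_ctar _ _ (hstp b), ← part_block L u B hu hB π b _ (by omega), ← hτ]
        have h6 : st (p / 2) L u b + (k - st (p / 2) L u b) = k := by omega
        rw [h6]
        exact hmemk
    · have hkk : k = p / 2 := by omega
      have hH0 : 0 < p / 2 := by omega
      have hB1 : 1 ≤ B := by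
        by_contra hcon
        have : B = 0 := by omega
        subst this
        omega
      have := h1 B hB1 le_rfl
      rw [hlast] at this
      rw [hkk, part_half]
      exact this

/-- probability of a hit inside block `b` -/
noncomputable def hit (p L u b : ℕ) : ℝ :=
  (num (fun π : Equiv.Perm (Fin (len (p / 2) L u b)) => ∃ j ∈ Ico 1 (len (p / 2) L u b),
    pre (vb p (st (p / 2) L u b) (len (p / 2) L u b)) π j ∈ ctar p (st (p / 2) L u b) j) : ℝ) /
    (len (p / 2) L u b).factorial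

/-- **the proportion as a product** -/
theorem ratio_eq (hodd : p % 2 = 1) (L u B : ℕ) (hu : u < L) (hB : p / 2 + u ≤ B * L) :
    (num (fun τ => Local (p / 2) L u τ ∧ Late p τ) : ℝ) / num (Local (p / 2) L u) =
      (ind (Bd p L u B) : ℝ) * ∏ b ∈ range B, (1 - hit p L u b) := by
  have hnum : num (fun τ => Local (p / 2) L u τ ∧ Late p τ) =
      ind (Bd p L u B) * ∏ b : Fin B, num (fun π : Equiv.Perm (Fin (len (p / 2) L u b)) =>
        ¬ ∃ j ∈ Ico 1 (len (p / 2) L u b),
        pre (vb p (st (p / 2) L u b) (len (p / 2) L u b)) π j ∈ ctar p (st (p / 2) L u b) j) := by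
    rw [num_glue (p / 2) L u B hu hB]
    rw [← num_pi (fun (b : Fin B) (π : Equiv.Perm (Fin (len (p / 2) L u b))) =>
        ¬ ∃ j ∈ Ico 1 (len (p / 2) L u b),
        pre (vb p (st (p / 2) L u b) (len (p / 2) L u b)) π j ∈ ctar p (st (p / 2) L u b) j)]
    by_cases hBd : Bd p L u B
    · rw [ind_pos hBd, one_mul]
      congr 1
      funext π
      rw [late_glue hodd L u B hu hB π]
      simp [hBd]
    · rw [ind_neg hBd, zero_mul]
      classical
      rw [num_eq, Finset.card_eq_zero, Finset.filter_eq_empty_iff]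
      intro π _ h
      rw [late_glue hodd L u B hu hB π] at h
      exact hBd h.1
  rw [hnum, num_local (p / 2) L u B hu hB]
  push_cast
  rw [mul_div_assoc, ← Finset.prod_div_distrib]
  congr 1
  rw [← Fin.prod_univ_eq_prod_range (fun b => 1 - hit p L u b) B]
  apply Finset.prod_congr rfl
  intro b _
  have hfac : ((len (p / 2) L u b).factorial : ℝ) ≠ 0 := by positivity
  rw [num_not, Fintype.card_perm, Fintype.card_fin]
  unfold hit
  rw [sub_div, div_self hfac]

lemma hit_mem (p L u b : ℕ) : 0 ≤ hit p L u b ∧ hit p L u b ≤ 1 := by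
  unfold hit
  constructor
  · positivity
  · have hfac : (0 : ℝ) < ((len (p / 2) L u b).factorial : ℝ) := by positivity
    rw [div_le_one hfac]
    have h1 := num_mono (fun π : Equiv.Perm (Fin (len (p / 2) L u b)) =>
      ∃ j ∈ Ico 1 (len (p / 2) L u b),
      pre (vb p (st (p / 2) L u b) (len (p / 2) L u b)) π j ∈ ctar p (st (p / 2) L u b) j)
      (fun _ => True) (fun _ _ => trivial)
    rw [num_true, Fintype.card_perm, Fintype.card_fin] at h1
    exact_mod_cast h1

end MP1fb.LS
end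

section
/-!
MP_1fb68e_nt, local shuffles: the proportion for one good offset.
-/
set_option autoImplicit false

namespace MP1fb.LS

open Finset

variable {p : ℕ} [hp : Fact p.Prime]

lemma divisors_prime_card : (Nat.divisors p).card = 2 := by
  rw [hp.out.divisors, Finset.card_pair hp.out.one_lt.ne]

/-- character sums over the numbers of a block -/
lemma vb_sum_le (χ : DirichletCharacter ℂ p) (hχ : χ ≠ 1) (s ℓ : ℕ) :
    ‖∑ i : Fin ℓ, χ (vb p s ℓ i)‖ ≤ 2 * Real.sqrt p * (1 + Real.log p) := by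
  have h := Pool.Agent.Lib.MP_cb27ba_nt.H71.polya_vinogradov hχ ((s : ℤ) + 1) ℓ
  rw [divisors_prime_card] at h
  have e : ∑ i : Fin ℓ, χ (vb p s ℓ i) =
      ∑ i ∈ Finset.range ℓ, χ (((s : ℤ) + 1 + (i : ℤ) : ℤ) : ZMod p) := by
    rw [Finset.sum_range]
    apply Finset.sum_congr rfl
    intro i _
    unfold vb
    congr 1
    push_cast
    ring
  rw [e]
  refine h.trans (le_of_eq ?_)
  push_cast
  ring

lemma vb_ne_zero (s ℓ : ℕ) (h : s + ℓ < p) (i : Fin ℓ) : vb p s ℓ i ≠ 0 := by
  unfold vb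
  rw [Ne, ZMod.natCast_eq_zero_iff]
  intro hd
  have := Nat.le_of_dvd (by omega) hd
  have := i.2
  omega

lemma vb_injective (s ℓ : ℕ) (h : s + ℓ < p) : Function.Injective (vb p s ℓ) := by
  intro i j hij
  unfold vb at hij
  rw [ZMod.natCast_eq_natCast_iff'] at hij
  have h1 := i.2
  have h2 := j.2
  rw [Nat.mod_eq_of_lt (by omega), Nat.mod_eq_of_lt (by omega)] at hij
  exact Fin.ext (by omega)

/-- number of the values excluded at place `k` -/
def wt (k : ℕ) : ℕ := if k % 2 = 0 then 2 else 1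

omit hp in
lemma wt_le (k : ℕ) : wt k ≤ 2 := by unfold wt; split_ifs <;> omega

/-- expected number of hits inside block `b` -/
noncomputable def zz (p L u b : ℕ) : ℝ :=
  ∑ j ∈ Ico 1 (len (p / 2) L u b), (wt (st (p / 2) L u b + j) : ℝ) / ((p : ℝ) - 1)

omit hp in
lemma len_le (H L u b : ℕ) (hu : u < L) : len H L u b ≤ L := by
  unfold len st
  have h1 : (b + 1) * L = b * L + L := by ring
  rcases Nat.eq_zero_or_pos b with rfl | hb
  · simp only [Nat.zero_mul, Nat.zero_sub, Nat.zero_add] at *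
    omega
  · have h2 : L ≤ b * L := Nat.le_mul_of_pos_left L hb
    omega

theorem hit_close (hodd : p % 2 = 1) (L u b G : ℕ) (hu : u < L)
    (hG : 32 * Real.log p ≤ G) (hGl : 2 * G ≤ len (p / 2) L u b)
    (hPV : 16 * Real.sqrt p * (1 + Real.log p) ≤ len (p / 2) L u b) :
    |hit p L u b - zz p L u b| ≤ 9 * G / (len (p / 2) L u b : ℝ) +
      12 * (3 * G / (len (p / 2) L u b : ℝ) + 2 * (len (p / 2) L u b : ℝ) / ((p : ℝ) - 1)) ^ 2 := by
  have hp3 : 3 ≤ p := by
    have := hp.out.two_le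
    omega
  have hs : st (p / 2) L u b + len (p / 2) L u b < p := by
    have h1 := st_add_len (p / 2) L u b
    have h2 := st_le (p / 2) L u (b + 1)
    omega
  have hsp : st (p / 2) L u b < p := by omega
  have h := block hp3 (vb p (st (p / 2) L u b) (len (p / 2) L u b))
    (vb_injective _ _ hs) (vb_ne_zero _ _ hs)
    (by
      intro χ hχ
      have := vb_sum_le χ hχ (st (p / 2) L u b) (len (p / 2) L u b)
      linarith) G hG hGl (fun j => ctar p (st (p / 2) L u b) j)
    (fun j => by rw [card_ctar _ _ hsp]; exact card_targ_le _ _)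
    (fun j => zero_notMem_ctar _ _ hsp)
  unfold hit zz
  have e : ∀ j, ((ctar p (st (p / 2) L u b) j).card : ℝ) = wt (st (p / 2) L u b + j) := by
    intro j
    rw [card_ctar _ _ hsp, card_targ _ _ hodd]
    rfl
  simp only [e] at h
  exact h

omit hp in
lemma zz_nonneg (hp3 : 3 ≤ p) (L u b : ℕ) : 0 ≤ zz p L u b := by
  have hp3R : (3 : ℝ) ≤ p := by exact_mod_cast hp3
  unfold zz
  apply Finset.sum_nonneg
  intro j _
  apply div_nonneg (by positivity)
  linarith

omit hp in
lemma zz_le (hp3 : 3 ≤ p) (L u b : ℕ) (hu : u < L) : zz p L u b ≤ 2 * L / ((p : ℝ) - 1) := by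
  have hp3R : (3 : ℝ) ≤ p := by exact_mod_cast hp3
  have hp1 : (0 : ℝ) < (p : ℝ) - 1 := by linarith
  unfold zz
  calc ∑ j ∈ Ico 1 (len (p / 2) L u b), (wt (st (p / 2) L u b + j) : ℝ) / ((p : ℝ) - 1)
      ≤ ∑ _j ∈ Ico 1 (len (p / 2) L u b), 2 / ((p : ℝ) - 1) := by
        apply Finset.sum_le_sum
        intro j _
        apply div_le_div_of_nonneg_right _ hp1.le
        exact_mod_cast wt_le _
    _ = ((len (p / 2) L u b - 1 : ℕ) : ℝ) * (2 / ((p : ℝ) - 1)) := by
        rw [Finset.sum_const, Nat.card_Ico, nsmul_eq_mul]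
    _ ≤ L * (2 / ((p : ℝ) - 1)) := by
        apply mul_le_mul_of_nonneg_right _ (by positivity)
        have := len_le (p / 2) L u b hu
        exact_mod_cast (by omega : len (p / 2) L u b - 1 ≤ L)
    _ = _ := by ring

omit hp in
lemma sum_wt (n : ℕ) : 2 * ∑ k ∈ range n, wt k = 3 * n + n % 2 := by
  induction n with
  | zero => simp
  | succ n ih =>
    rw [Finset.sum_range_succ, mul_add, ih]
    unfold wt
    split_ifs with h <;> omega

omit hp in
lemma sum_blocks (H L u B : ℕ) (f : ℕ → ℕ) :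
    ∑ b ∈ range B, ∑ j ∈ range (len H L u b), f (st H L u b + j) =
      ∑ k ∈ range (st H L u B), f k := by
  induction B with
  | zero => simp [st_zero]
  | succ B ih =>
    rw [Finset.sum_range_succ, ih, ← st_add_len H L u B, Finset.sum_range_add]

omit hp in
lemma sum_Ico_wt (s ℓ : ℕ) :
    ∑ j ∈ Ico 1 ℓ, wt (s + j) ≤ ∑ j ∈ range ℓ, wt (s + j) ∧
    ∑ j ∈ range ℓ, wt (s + j) ≤ ∑ j ∈ Ico 1 ℓ, wt (s + j) + 2 := by
  rcases Nat.eq_zero_or_pos ℓ with rfl | h
  · simp
  · rw [Finset.range_eq_Ico, Finset.sum_eq_sum_Ico_succ_bot h]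
    have := wt_le (s + 0)
    rw [Nat.zero_add]
    constructor <;> omega

omit hp in
lemma sum_zz (hp3 : 3 ≤ p) (hodd : p % 2 = 1) (L u B : ℕ) (hB : p / 2 + u ≤ B * L) :
    |∑ b ∈ range B, zz p L u b - 3 / 4| ≤ (2 * B + 1) / ((p : ℝ) - 1) := by
  have hp3R : (3 : ℝ) ≤ p := by exact_mod_cast hp3
  have hp1 : (0 : ℝ) < (p : ℝ) - 1 := by linarith
  set T := ∑ b ∈ range B, ∑ j ∈ Ico 1 (len (p / 2) L u b), wt (st (p / 2) L u b + j) with hT
  have h1 : ∑ b ∈ range B, zz p L u b = (T : ℝ) / ((p : ℝ) - 1) := by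
    rw [hT]
    push_cast
    rw [Finset.sum_div]
    apply Finset.sum_congr rfl
    intro b _
    unfold zz
    rw [Finset.sum_div]
  have h2 : T ≤ ∑ k ∈ range (p / 2), wt k := by
    have := sum_blocks (p / 2) L u B wt
    rw [st_last _ _ _ _ hB] at this
    rw [← this]
    exact Finset.sum_le_sum (fun b _ => (sum_Ico_wt _ _).1)
  have h3 : ∑ k ∈ range (p / 2), wt k ≤ T + 2 * B := by
    have := sum_blocks (p / 2) L u B wt
    rw [st_last _ _ _ _ hB] at this
    rw [← this]
    calc _ ≤ ∑ b ∈ range B, (∑ j ∈ Ico 1 (len (p / 2) L u b), wt (st (p / 2) L u b + j) + 2) :=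
          Finset.sum_le_sum (fun b _ => (sum_Ico_wt _ _).2)
      _ = _ := by rw [Finset.sum_add_distrib, Finset.sum_const, Finset.card_range, smul_eq_mul]; ring
  have h4 := sum_wt (p / 2)
  have h5 : 4 * T ≤ 3 * (p - 1) + 2 := by omega
  have h6 : 3 * (p - 1) ≤ 4 * T + 8 * B := by omega
  have h5R : 4 * (T : ℝ) ≤ 3 * ((p : ℝ) - 1) + 2 := by
    have : ((p - 1 : ℕ) : ℝ) = (p : ℝ) - 1 := by rw [Nat.cast_sub (by omega)]; simp
    rw [← this]
    exact_mod_cast h5
  have h6R : 3 * ((p : ℝ) - 1) ≤ 4 * (T : ℝ) + 8 * B := by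
    have : ((p - 1 : ℕ) : ℝ) = (p : ℝ) - 1 := by rw [Nat.cast_sub (by omega)]; simp
    rw [← this]
    exact_mod_cast h6
  have hB0 : (0 : ℝ) ≤ B := by positivity
  rw [h1]
  have e : (T : ℝ) / ((p : ℝ) - 1) - 3 / 4 = (T - 3 / 4 * ((p : ℝ) - 1)) / ((p : ℝ) - 1) := by
    field_simp
  rw [e, abs_div, abs_of_pos hp1]
  apply div_le_div_of_nonneg_right _ hp1.le
  rw [abs_le]
  constructor <;> linarith

omit hp in
lemma prod_close (B : ℕ) (a b : ℕ → ℝ) (ha : ∀ i, 0 ≤ a i ∧ a i ≤ 1)
    (hb : ∀ i, 0 ≤ b i ∧ b i ≤ 1) :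
    |∏ i ∈ range B, a i - ∏ i ∈ range B, b i| ≤ ∑ i ∈ range B, |a i - b i| := by
  induction B with
  | zero => simp
  | succ B ih =>
    rw [Finset.prod_range_succ, Finset.prod_range_succ, Finset.sum_range_succ]
    have h2 : 0 ≤ ∏ i ∈ range B, b i := Finset.prod_nonneg (fun i _ => (hb i).1)
    have h3 : ∏ i ∈ range B, b i ≤ 1 := Finset.prod_le_one (fun i _ => (hb i).1)
      (fun i _ => (hb i).2)
    have e : (∏ i ∈ range B, a i) * a B - (∏ i ∈ range B, b i) * b B =
        (∏ i ∈ range B, a i - ∏ i ∈ range B, b i) * a B +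
        (∏ i ∈ range B, b i) * (a B - b B) := by ring
    rw [e]
    refine (abs_add_le _ _).trans ?_
    rw [abs_mul, abs_mul, abs_of_nonneg (ha B).1, abs_of_nonneg h2]
    have h4 : |∏ i ∈ range B, a i - ∏ i ∈ range B, b i| * a B ≤
        |∏ i ∈ range B, a i - ∏ i ∈ range B, b i| := by
      have := mul_le_mul_of_nonneg_left (ha B).2
        (abs_nonneg (∏ i ∈ range B, a i - ∏ i ∈ range B, b i))
      linarith
    have h5 : (∏ i ∈ range B, b i) * |a B - b B| ≤ |a B - b B| := by
      have := mul_le_mul_of_nonneg_right h3 (abs_nonneg (a B - b B))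
      linarith
    linarith

omit hp in
lemma exp_lip (a b : ℝ) (ha : 0 ≤ a) (hb : 0 ≤ b) :
    |Real.exp (-a) - Real.exp (-b)| ≤ |a - b| := by
  have key : ∀ x y : ℝ, 0 ≤ x → x ≤ y → |Real.exp (-x) - Real.exp (-y)| ≤ |x - y| := by
    intro x y hx hxy
    have h1 : Real.exp (-y) ≤ Real.exp (-x) := Real.exp_le_exp.mpr (by linarith)
    rw [abs_of_nonneg (by linarith), abs_of_nonpos (by linarith)]
    have h2 : Real.exp (-y) = Real.exp (-x) * Real.exp (-(y - x)) := by
      rw [← Real.exp_add]; congr 1; ring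
    have h3 : -(y - x) + 1 ≤ Real.exp (-(y - x)) := Real.add_one_le_exp _
    have h4 : Real.exp (-x) ≤ 1 := Real.exp_le_one_iff.mpr (by linarith)
    have h5 : 0 < Real.exp (-x) := Real.exp_pos _
    rw [h2]
    nlinarith
  rcases le_total a b with h | h
  · exact key a b ha h
  · rw [abs_sub_comm, abs_sub_comm a b]
    exact key b a hb h

/-- **one good offset** -/
theorem good_offset (hodd : p % 2 = 1) (L u B lam G : ℕ) (hu : u < L)
    (hB : p / 2 + u ≤ B * L) (hBd : Bd p L u B)
    (hG : 32 * Real.log p ≤ G) (hGl : 2 * G ≤ lam)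
    (hPV : 16 * Real.sqrt p * (1 + Real.log p) ≤ lam) (hlam : 0 < lam)
    (hlen : ∀ b, b < B → len (p / 2) L u b = 0 ∨ lam ≤ len (p / 2) L u b)
    (hLp : 2 * (L : ℝ) ≤ (p : ℝ) - 1) :
    |(num (fun τ => Local (p / 2) L u τ ∧ Late p τ) : ℝ) / num (Local (p / 2) L u) -
      Real.exp (-(3 / 4))| ≤
      B * (9 * G / (lam : ℝ) + 12 * (3 * G / (lam : ℝ) + 2 * (L : ℝ) / ((p : ℝ) - 1)) ^ 2 +
        (2 * (L : ℝ) / ((p : ℝ) - 1)) ^ 2) + (2 * B + 1) / ((p : ℝ) - 1) := by
  have hp3 : 3 ≤ p := by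
    have := hp.out.two_le
    omega
  have hp3R : (3 : ℝ) ≤ p := by exact_mod_cast hp3
  have hp1 : (0 : ℝ) < (p : ℝ) - 1 := by linarith
  have hlamR : (0 : ℝ) < lam := by exact_mod_cast hlam
  rw [ratio_eq hodd L u B hu hB, ind_pos hBd, Nat.cast_one, one_mul]
  set e1 := 9 * G / (lam : ℝ) + 12 * (3 * G / (lam : ℝ) + 2 * (L : ℝ) / ((p : ℝ) - 1)) ^ 2 with he1
  set e2 := (2 * (L : ℝ) / ((p : ℝ) - 1)) ^ 2 with he2
  have he10 : 0 ≤ e1 := by positivity
  have hclose : ∀ b ∈ range B, |hit p L u b - zz p L u b| ≤ e1 := by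
    intro b hb
    rw [Finset.mem_range] at hb
    rcases hlen b hb with h0 | h0
    · have e3 : zz p L u b = 0 := by
        unfold zz
        rw [h0]
        simp
      have e4 : hit p L u b = 0 := by
        unfold hit
        have : num (fun π : Equiv.Perm (Fin (len (p / 2) L u b)) =>
            ∃ j ∈ Ico 1 (len (p / 2) L u b),
            pre (vb p (st (p / 2) L u b) (len (p / 2) L u b)) π j ∈
              ctar p (st (p / 2) L u b) j) = 0 := by
          classical
          rw [num_eq, Finset.card_eq_zero, Finset.filter_eq_empty_iff]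
          rintro π _ ⟨j, hj, _⟩
          rw [Finset.mem_Ico] at hj
          omega
        rw [this]
        simp
      rw [e3, e4]
      simpa using he10
    · have h1 := hit_close hodd L u b G hu hG (by omega) (by
        have : (lam : ℝ) ≤ (len (p / 2) L u b : ℝ) := by exact_mod_cast h0
        linarith)
      refine h1.trans ?_
      have h2 : (lam : ℝ) ≤ (len (p / 2) L u b : ℝ) := by exact_mod_cast h0
      have h3 : (len (p / 2) L u b : ℝ) ≤ L := by exact_mod_cast len_le (p / 2) L u b hu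
      rw [he1]
      gcongr
  have hz0 : ∀ b, 0 ≤ zz p L u b := fun b => zz_nonneg hp3 L u b
  have hz1 : ∀ b, zz p L u b ≤ 2 * L / ((p : ℝ) - 1) := fun b => zz_le hp3 L u b hu
  have hz2 : ∀ b, zz p L u b ≤ 1 := by
    intro b
    refine (hz1 b).trans ?_
    rw [div_le_one hp1]
    exact hLp
  have hprod : |∏ b ∈ range B, (1 - hit p L u b) - ∏ b ∈ range B, Real.exp (-zz p L u b)| ≤
      B * (e1 + e2) := by
    have hpc := prod_close B (fun b => 1 - hit p L u b) (fun b => Real.exp (-zz p L u b))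
      (fun b => by have := hit_mem p L u b; constructor <;> linarith)
      (fun b => ⟨(Real.exp_pos _).le, Real.exp_le_one_iff.mpr (by have := hz0 b; linarith)⟩)
    refine hpc.trans ?_
    calc ∑ b ∈ range B, |1 - hit p L u b - Real.exp (-zz p L u b)|
        ≤ ∑ _b ∈ range B, (e1 + e2) := by
          apply Finset.sum_le_sum
          intro b hb
          have h1 := hclose b hb
          have h2 : |Real.exp (-zz p L u b) - 1 - -zz p L u b| ≤ (-zz p L u b) ^ 2 := by
            apply Real.abs_exp_sub_one_sub_id_le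
            rw [abs_neg, abs_of_nonneg (hz0 b)]
            exact hz2 b
          have h3 : (-zz p L u b) ^ 2 ≤ e2 := by
            rw [neg_sq, he2]
            exact pow_le_pow_left₀ (hz0 b) (hz1 b) 2
          have e : 1 - hit p L u b - Real.exp (-zz p L u b) =
              -(hit p L u b - zz p L u b) - (Real.exp (-zz p L u b) - 1 - -zz p L u b) := by ring
          rw [e]
          refine (abs_sub _ _).trans ?_
          rw [abs_neg]
          linarith
      _ = B * (e1 + e2) := by rw [Finset.sum_const, Finset.card_range, nsmul_eq_mul]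
  have hexp : ∏ b ∈ range B, Real.exp (-zz p L u b) =
      Real.exp (-∑ b ∈ range B, zz p L u b) := by
    rw [← Real.exp_sum, Finset.sum_neg_distrib]
  have hlast : |Real.exp (-∑ b ∈ range B, zz p L u b) - Real.exp (-(3 / 4))| ≤
      (2 * B + 1) / ((p : ℝ) - 1) := by
    refine (exp_lip _ _ (Finset.sum_nonneg (fun b _ => hz0 b)) (by norm_num)).trans ?_
    exact sum_zz hp3 hodd L u B hB
  rw [hexp] at hprod
  have := abs_sub_le (∏ b ∈ range B, (1 - hit p L u b))
    (Real.exp (-∑ b ∈ range B, zz p L u b)) (Real.exp (-(3 / 4)))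
  linarith

end MP1fb.LS
end

section
/-!
MP_1fb68e_nt, local shuffles: there are few bad offsets.
-/
set_option autoImplicit false

namespace MP1fb.LS

open Finset

variable {p : ℕ} [hp : Fact p.Prime]

/-- proportion of the shuffles with offset `u` for which `-1` is reached at `p - 1` only -/
noncomputable def ratio (p L u : ℕ) : ℝ :=
  (num (fun τ => Local (p / 2) L u τ ∧ Late p τ) : ℝ) / num (Local (p / 2) L u)

omit hp in
lemma ratio_mem (p L u : ℕ) : 0 ≤ ratio p L u ∧ ratio p L u ≤ 1 := by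
  unfold ratio
  constructor
  · positivity
  · apply div_le_one_of_le₀ _ (by positivity)
    have h := num_mono (fun τ => Local (p / 2) L u τ ∧ Late p τ) (Local (p / 2) L u)
      (fun w h => h.1)
    exact_mod_cast h

/-- probability for a random offset -/
noncomputable def prob (p L : ℕ) : ℝ := (∑ u ∈ range L, ratio p L u) / L

omit hp in
lemma prob_mem (p L : ℕ) : 0 ≤ prob p L ∧ prob p L ≤ 1 := by
  unfold prob
  constructor
  · apply div_nonneg _ (by positivity)
    exact Finset.sum_nonneg (fun u _ => (ratio_mem p L u).1)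
  · apply div_le_one_of_le₀ _ (by positivity)
    calc ∑ u ∈ range L, ratio p L u ≤ ∑ _u ∈ range L, (1 : ℝ) :=
          Finset.sum_le_sum (fun u _ => (ratio_mem p L u).2)
      _ = L := by simp

lemma bad1 (L B : ℕ) (hL : 0 < L)
    (hlast : ((((p / 2).factorial : ℕ)) : ZMod p) ∉ targ p (p / 2)) :
    ∀ u ∈ range L, ¬ Bd p L u B →
      u ∈ (facHits p 1 ∪ facHits p (-1)).image (fun k => (L - k % L) % L) := by
  intro u hu hBd
  rw [Finset.mem_range] at hu
  unfold Bd at hBd
  push Not at hBd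
  obtain ⟨b, hb1, _, hb3⟩ := hBd
  set k := st (p / 2) L u b with hk
  have hkH : k ≠ p / 2 := by
    intro h
    rw [h] at hb3
    exact hlast hb3
  have hkH' : k < p / 2 := lt_of_le_of_ne (st_le _ _ _ _) hkH
  have h1 : L ≤ b * L := Nat.le_mul_of_pos_left L hb1
  have hkv : k + u = b * L := by
    rw [hk] at hkH' ⊢
    unfold st at hkH' ⊢
    omega
  rw [Finset.mem_image]
  refine ⟨k, ?_, ?_⟩
  · rw [Finset.mem_union]
    unfold targ at hb3
    rw [Finset.mem_insert, Finset.mem_singleton] at hb3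
    have hk1 : 1 ≤ k := by omega
    have hmem : ∀ a : ZMod p, ((k.factorial : ℕ) : ZMod p) = a → k ∈ facHits p a := by
      intro a ha
      unfold facHits
      rw [Finset.mem_filter, Finset.mem_Ico]
      exact ⟨⟨hk1, by omega⟩, ha⟩
    rcases hb3 with h | h
    · exact Or.inr (hmem _ h)
    · rcases neg_one_pow_eq_or (ZMod p) k with h' | h'
      · rw [h'] at h; exact Or.inl (hmem _ h)
      · rw [h'] at h; exact Or.inr (hmem _ h)
  · have h2 : (k + u) % L = 0 := by rw [hkv]; exact Nat.mul_mod_left b L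
    have h3 : (k % L + u) % L = 0 := by rw [Nat.add_mod, Nat.mod_mod, ← Nat.add_mod]; exact h2
    have h4 : k % L < L := Nat.mod_lt _ hL
    rcases Nat.eq_zero_or_pos (k % L) with h5 | h5
    · rw [h5, Nat.zero_add, Nat.mod_eq_of_lt hu] at h3
      rw [h5, h3, Nat.sub_zero, Nat.mod_self]
    · have h6 : L ∣ k % L + u := Nat.dvd_of_mod_eq_zero h3
      have h7 : k % L + u = L := by
        obtain ⟨c, hc⟩ := h6
        have h8 : c < 2 := by
          by_contra h9
          push Not at h9
          have : L * 2 ≤ L * c := Nat.mul_le_mul_left L h9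
          omega
        have h9 : 0 < c := by
          rcases Nat.eq_zero_or_pos c with h10 | h10
          · rw [h10] at hc; omega
          · exact h10
        have h10 : c = 1 := by omega
        rw [h10] at hc
        omega
      rw [Nat.mod_eq_of_lt (by omega)]
      omega

omit hp in
lemma bad3 (H L lam : ℕ) (hL : 0 < L) :
    ∀ u ∈ range L, (H + u) % L < lam →
      u ∈ (range lam).image (fun r => (r + (L - H % L)) % L) := by
  intro u hu h
  rw [Finset.mem_range] at hu
  rw [Finset.mem_image]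
  refine ⟨(H + u) % L, Finset.mem_range.mpr h, ?_⟩
  have h1 : H % L < L := Nat.mod_lt _ hL
  have h2 : ((H + u) % L + (L - H % L)) % L = ((H % L + u) + (L - H % L)) % L := by
    rw [Nat.add_mod ((H + u) % L), Nat.mod_mod, ← Nat.add_mod,
      Nat.add_mod (H + u), Nat.add_mod H u, Nat.add_mod (H % L + u), Nat.add_mod (H % L) u,
      Nat.mod_mod H L]
  rw [h2]
  have h3 : (H % L + u) + (L - H % L) = u + L := by omega
  rw [h3, Nat.add_mod_right, Nat.mod_eq_of_lt hu]

omit hp in
lemma good_len (H L u lam : ℕ) (hu : u < L) (hlL : lam ≤ L) (hlH : lam ≤ H)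
    (h1 : u + lam ≤ L) (h2 : lam ≤ (H + u) % L) (b : ℕ) :
    len H L u b = 0 ∨ lam ≤ len H L u b := by
  have hL : 0 < L := by omega
  have e1 : (b + 1) * L = b * L + L := by ring
  have hdm := Nat.div_add_mod (H + u) L
  have hmod : (H + u) % L < L := Nat.mod_lt _ hL
  unfold len st
  rcases Nat.eq_zero_or_pos b with rfl | hb
  · simp only [Nat.zero_mul, Nat.zero_sub, Nat.zero_add, Nat.one_mul] at *
    omega
  · have h3 : L ≤ b * L := Nat.le_mul_of_pos_left L hb
    rcases Nat.lt_or_ge (b * L) (H + u) with h4 | h4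
    · -- the block is not empty
      rcases Nat.lt_or_ge ((b + 1) * L) (H + u) with h5 | h5
      · right; omega
      · -- last block
        right
        have h6 : (H + u) / L = b ∨ (H + u) % L = 0 := by
          rcases Nat.lt_or_ge (H + u) ((b + 1) * L) with h7 | h7
          · left
            rw [Nat.div_eq_iff hL]
            constructor
            · omega
            · omega
          · right
            have h8 : H + u = (b + 1) * L := by omega
            rw [h8]
            exact Nat.mul_mod_left _ _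
        rcases h6 with h6 | h6
        · rw [h6, Nat.mul_comm] at hdm
          omega
        · have h7 : lam = 0 := by omega
          omega
    · left; omega

end MP1fb.LS
end

section
/-!
MP_1fb68e_nt, local shuffles: average over the offsets, and the limit.
-/
set_option autoImplicit false

namespace MP1fb.LS

open Finset Filter Topology

variable {p : ℕ} [hp : Fact p.Prime]

omit hp in
/-- average over the offsets -/
lemma avg_close (L : ℕ) (hL : 0 < L) (f : ℕ → ℝ) (hf : ∀ u, 0 ≤ f u ∧ f u ≤ 1) (c E : ℝ)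
    (hc0 : 0 ≤ c) (hc1 : c ≤ 1) (hE : 0 ≤ E) (bad : Finset ℕ)
    (hgood : ∀ u ∈ range L, u ∉ bad → |f u - c| ≤ E) :
    |(∑ u ∈ range L, f u) / L - c| ≤ E + bad.card / L := by
  have hLR : (0 : ℝ) < L := by exact_mod_cast hL
  have e : (∑ u ∈ range L, f u) / L - c = (∑ u ∈ range L, (f u - c)) / L := by
    rw [Finset.sum_sub_distrib, Finset.sum_const, Finset.card_range, nsmul_eq_mul]
    field_simp
  rw [e, abs_div, abs_of_pos hLR, div_le_iff₀ hLR]
  refine (Finset.abs_sum_le_sum_abs _ _).trans ?_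
  have h1 : ∀ u ∈ range L, |f u - c| ≤ E + (if u ∈ bad then 1 else 0) := by
    intro u hu
    split_ifs with h
    · have := hf u
      rw [abs_le]
      constructor <;> linarith
    · have := hgood u hu h
      linarith
  refine (Finset.sum_le_sum h1).trans ?_
  rw [Finset.sum_add_distrib, Finset.sum_const, Finset.card_range, nsmul_eq_mul,
    ← Finset.sum_filter, Finset.sum_const, nsmul_eq_mul, mul_one]
  have h2 : (((range L).filter (fun u => u ∈ bad)).card : ℝ) ≤ bad.card := by
    exact_mod_cast Finset.card_le_card (fun u hu => (Finset.mem_filter.mp hu).2)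
  have h3 : (E + bad.card / L) * L = L * E + bad.card := by
    field_simp
  rw [h3]
  linarith

lemma facHits_union_card (hp3 : 3 ≤ p) :
    (((facHits p 1 ∪ facHits p (-1)).card : ℕ) : ℝ) ≤ 8 * (p : ℝ) ^ (2 / 3 : ℝ) := by
  have hp0 : (0 : ℝ) < p := by
    have : 0 < p := by omega
    exact_mod_cast this
  have hp1 : (1 : ℝ) ≤ p := by
    have : 1 ≤ p := by omega
    exact_mod_cast this
  set x : ℝ := (p : ℝ) ^ (1 / 3 : ℝ) with hx
  have hx1 : 1 ≤ x := Real.one_le_rpow hp1 (by norm_num)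
  have hx0 : 0 < x := by linarith
  have hx2 : (p : ℝ) ^ (2 / 3 : ℝ) = x ^ 2 := by
    rw [hx, ← Real.rpow_natCast, ← Real.rpow_mul hp0.le]
    norm_num
  have hx3 : (p : ℝ) = x ^ 3 := by
    rw [hx, ← Real.rpow_natCast, ← Real.rpow_mul hp0.le]
    norm_num
  set K : ℕ := ⌊x⌋₊ with hK
  have hKx : (K : ℝ) ≤ x := Nat.floor_le hx0.le
  have hKx' : x < (K : ℝ) + 1 := Nat.lt_floor_add_one x
  have hbound : ∀ a : ZMod p, ((facHits p a).card : ℝ) ≤ 3 * x ^ 2 := by
    intro a
    have h1 : ((facHits p a).card : ℝ) ≤ (K : ℝ) ^ 2 + ((p / (K + 1) : ℕ) : ℝ) + 1 := by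
      exact_mod_cast facHits_card_le p a K
    have h2 : ((p / (K + 1) : ℕ) : ℝ) ≤ (p : ℝ) / ((K : ℝ) + 1) := by
      have := @Nat.cast_div_le ℝ _ _ _ p (K + 1)
      push_cast at this
      exact this
    have h3 : (p : ℝ) / ((K : ℝ) + 1) ≤ x ^ 2 := by
      rw [div_le_iff₀ (by positivity), hx3]
      nlinarith [sq_nonneg x]
    have h4 : (K : ℝ) ^ 2 ≤ x ^ 2 := pow_le_pow_left₀ (by positivity) hKx 2
    have h5 : (1 : ℝ) ≤ x ^ 2 := one_le_pow₀ hx1
    linarith
  have h6 : ((facHits p 1 ∪ facHits p (-1)).card : ℝ) ≤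
      (facHits p 1).card + (facHits p (-1)).card := by
    exact_mod_cast Finset.card_union_le _ _
  have h7 := hbound 1
  have h8 := hbound (-1)
  rw [hx2]
  nlinarith [sq_nonneg x]

/-- the bound for the average over the offsets -/
theorem prob_close (hodd : p % 2 = 1) (L lam G : ℕ) (hL : 0 < L)
    (hlast : ((((p / 2).factorial : ℕ)) : ZMod p) ∉ targ p (p / 2))
    (hG : 32 * Real.log p ≤ G) (hGl : 2 * G ≤ lam)
    (hPV : 16 * Real.sqrt p * (1 + Real.log p) ≤ lam) (hlam : 0 < lam)
    (hlL : lam ≤ L) (hLp : 4 * L ≤ p - 1) :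
    |prob p L - Real.exp (-(3 / 4))| ≤
      ((p / 2 / L + 2 : ℕ) : ℝ) * (9 * G / (lam : ℝ) +
        12 * (3 * G / (lam : ℝ) + 2 * (L : ℝ) / ((p : ℝ) - 1)) ^ 2 +
        (2 * (L : ℝ) / ((p : ℝ) - 1)) ^ 2) +
      (2 * ((p / 2 / L + 2 : ℕ) : ℝ) + 1) / ((p : ℝ) - 1) +
      (8 * (p : ℝ) ^ (2 / 3 : ℝ) + 2 * lam) / L := by
  classical
  have hp3 : 3 ≤ p := by
    have := hp.out.two_le
    omega
  have hp3R : (3 : ℝ) ≤ p := by exact_mod_cast hp3
  have hLR : (0 : ℝ) < L := by exact_mod_cast hL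
  have hlamR : (0 : ℝ) < lam := by exact_mod_cast hlam
  have hp1 : (0 : ℝ) < (p : ℝ) - 1 := by linarith
  have hLpR : 2 * (L : ℝ) ≤ (p : ℝ) - 1 := by
    have h1 : ((p - 1 : ℕ) : ℝ) = (p : ℝ) - 1 := by rw [Nat.cast_sub (by omega)]; simp
    rw [← h1]
    exact_mod_cast (by omega : 2 * L ≤ p - 1)
  set B := p / 2 / L + 2 with hB
  have hBL : ∀ u, u < L → p / 2 + u ≤ B * L := by
    intro u hu
    have h1 := Nat.div_add_mod (p / 2) L
    have h2 : p / 2 % L < L := Nat.mod_lt _ hL
    have h3 : B * L = L * (p / 2 / L) + 2 * L := by rw [hB]; ring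
    omega
  set bad := (facHits p 1 ∪ facHits p (-1)).image (fun k => (L - k % L) % L) ∪
    (Ico (L + 1 - lam) L ∪ (range lam).image (fun r => (r + (L - (p / 2) % L)) % L)) with hbad
  set E := ((B : ℕ) : ℝ) * (9 * G / (lam : ℝ) +
        12 * (3 * G / (lam : ℝ) + 2 * (L : ℝ) / ((p : ℝ) - 1)) ^ 2 +
        (2 * (L : ℝ) / ((p : ℝ) - 1)) ^ 2) + (2 * ((B : ℕ) : ℝ) + 1) / ((p : ℝ) - 1) with hE
  have hE0 : 0 ≤ E := by positivity
  have hcardbad : (bad.card : ℝ) ≤ 8 * (p : ℝ) ^ (2 / 3 : ℝ) + 2 * lam := by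
    have h1 : bad.card ≤ (facHits p 1 ∪ facHits p (-1)).card + (lam + lam) := by
      rw [hbad]
      refine (Finset.card_union_le _ _).trans ?_
      apply Nat.add_le_add Finset.card_image_le
      refine (Finset.card_union_le _ _).trans ?_
      apply Nat.add_le_add
      · rw [Nat.card_Ico]; omega
      · refine Finset.card_image_le.trans ?_
        rw [Finset.card_range]
    have h2 : (bad.card : ℝ) ≤ ((facHits p 1 ∪ facHits p (-1)).card : ℝ) + (lam + lam) := by
      exact_mod_cast h1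
    have h3 := facHits_union_card (p := p) hp3
    linarith
  have hexp1 : Real.exp (-(3 / 4)) ≤ 1 := Real.exp_le_one_iff.mpr (by norm_num)
  have hav := avg_close L hL (ratio p L) (ratio_mem p L) (Real.exp (-(3 / 4))) E
    (Real.exp_pos _).le hexp1 hE0 bad (by
      intro u hu hub
      have huL : u < L := Finset.mem_range.mp hu
      have hBd : Bd p L u B := by
        by_contra hcon
        apply hub
        rw [hbad, Finset.mem_union]
        exact Or.inl (bad1 L B hL hlast u hu hcon)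
      have h2 : u + lam ≤ L := by
        by_contra hcon
        apply hub
        rw [hbad, Finset.mem_union, Finset.mem_union, Finset.mem_Ico]
        right; left; omega
      have h3 : lam ≤ (p / 2 + u) % L := by
        by_contra hcon
        apply hub
        rw [hbad, Finset.mem_union, Finset.mem_union]
        right; right
        exact bad3 (p / 2) L lam hL u hu (by omega)
      exact good_offset hodd L u B lam G huL (hBL u huL) hBd hG hGl hPV hlam
        (fun b _ => good_len (p / 2) L u lam huL hlL (by omega) h2 h3 b) hLpR)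
  refine hav.trans ?_
  have h4 : (bad.card : ℝ) / L ≤ (8 * (p : ℝ) ^ (2 / 3 : ℝ) + 2 * lam) / L := by gcongr
  linarith

end MP1fb.LS
end

section
/-!
MP_1fb68e_nt, local shuffles: the probability tends to `exp (-3/4)`.
-/
set_option autoImplicit false

namespace MP1fb.LS

open Finset Filter Topology

/-- the terms of the error -/
lemma err_bound (z eta eps del K L lam G B x : ℝ) (hz : 1 ≤ z) (heta0 : 0 < eta) (heta1 : eta ≤ 1)
    (heps : 0 < eps) (hdel0 : 0 < del) (hx : x = z ^ 12) (hx3 : 3 ≤ x)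
    (hZ : 160000000 / (eta ^ 2 * eps) ≤ z)
    (hK : 32 / eps ≤ K) (hK0 : 0 < K) (hK1 : 1 ≤ K)
    (hL1 : K * z ^ 8 ≤ L) (hL2 : L ≤ del * x) (hdel : 400 * del ≤ eps / 4)
    (heta2 : 2 * eta ≤ eps / 4) (hG0 : 0 ≤ G) (hG : G ≤ 396 * z)
    (hlam1 : eta * L ≤ lam) (hlam2 : lam ≤ eta * L + 1)
    (hB0 : 0 ≤ B) (hB : B ≤ x / L) :
    B * (9 * G / lam + 12 * (3 * G / lam + 2 * L / (x - 1)) ^ 2 + (2 * L / (x - 1)) ^ 2) +
      (2 * B + 1) / (x - 1) + (8 * z ^ 8 + 2 * lam) / L ≤ eps := by
  have hz0 : 0 < z := by linarith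
  have hz8 : 1 ≤ z ^ 8 := one_le_pow₀ hz
  have hL0 : 0 < L := by nlinarith
  have hLz : z ^ 8 ≤ L := by nlinarith
  have hx0 : 0 < x := by linarith
  have hxm : 0 < x - 1 := by linarith
  have hxm2 : x / 2 ≤ x - 1 := by linarith
  have hlam0 : 0 < lam := lt_of_lt_of_le (mul_pos heta0 hL0) hlam1
  have h1 : 2 * L / (x - 1) ≤ 4 * L / x := by
    rw [div_le_div_iff₀ hxm hx0]
    nlinarith
  have h2 : G / lam ≤ 396 * z / (eta * L) := by
    apply div_le_div₀ (by positivity) hG (by positivity) hlam1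
  have hB1 : 0 ≤ x / L := by positivity
  -- first term
  have t1 : B * (9 * G / lam) ≤ 3564 / (eta * z ^ 3) := by
    have e1 : 9 * G / lam = 9 * (G / lam) := by ring
    rw [e1]
    calc B * (9 * (G / lam)) ≤ (x / L) * (9 * (396 * z / (eta * L))) := by gcongr
      _ = 3564 * (x * z) / (eta * L ^ 2) := by field_simp; ring
      _ ≤ 3564 * (x * z) / (eta * (z ^ 8) ^ 2) := by gcongr
      _ = 3564 / (eta * z ^ 3) := by rw [hx]; field_simp
  -- second term
  have t2 : B * (12 * (3 * G / lam + 2 * L / (x - 1)) ^ 2) ≤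
      33872256 / (eta ^ 2 * z ^ 10) + 384 * (L / x) := by
    have e1 : (3 * G / lam + 2 * L / (x - 1)) ^ 2 ≤
        2 * (3 * (396 * z / (eta * L))) ^ 2 + 2 * (4 * L / x) ^ 2 := by
      have e2 : 3 * G / lam = 3 * (G / lam) := by ring
      have e3 : 3 * G / lam + 2 * L / (x - 1) ≤ 3 * (396 * z / (eta * L)) + 4 * L / x := by
        rw [e2]; linarith
      have e4 : 0 ≤ 3 * G / lam + 2 * L / (x - 1) := by positivity
      calc (3 * G / lam + 2 * L / (x - 1)) ^ 2
          ≤ (3 * (396 * z / (eta * L)) + 4 * L / x) ^ 2 := pow_le_pow_left₀ e4 e3 2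
        _ ≤ _ := by nlinarith [sq_nonneg (3 * (396 * z / (eta * L)) - 4 * L / x)]
    calc B * (12 * (3 * G / lam + 2 * L / (x - 1)) ^ 2)
        ≤ (x / L) * (12 * (2 * (3 * (396 * z / (eta * L))) ^ 2 + 2 * (4 * L / x) ^ 2)) := by
          gcongr
      _ = 33872256 * (x * z ^ 2) / (eta ^ 2 * L ^ 3) + 384 * (L / x) := by field_simp; ring
      _ ≤ 33872256 * (x * z ^ 2) / (eta ^ 2 * (z ^ 8) ^ 3) + 384 * (L / x) := by gcongr
      _ = 33872256 / (eta ^ 2 * z ^ 10) + 384 * (L / x) := by
          rw [hx]; congr 1; field_simp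
  -- third term
  have t3 : B * (2 * L / (x - 1)) ^ 2 ≤ 16 * (L / x) := by
    calc B * (2 * L / (x - 1)) ^ 2 ≤ (x / L) * (4 * L / x) ^ 2 := by gcongr
      _ = 16 * (L / x) := by field_simp; ring
  -- fourth term
  have t4 : (2 * B + 1) / (x - 1) ≤ 4 / z ^ 8 + 2 / z ^ 12 := by
    calc (2 * B + 1) / (x - 1) ≤ (2 * (x / L) + 1) / (x / 2) := by gcongr
      _ = 4 / L + 2 / x := by field_simp; ring
      _ ≤ 4 / z ^ 8 + 2 / z ^ 12 := by rw [hx]; gcongr
  -- fifth term
  have t5 : (8 * z ^ 8 + 2 * lam) / L ≤ 8 / K + 2 * eta + 2 / z ^ 8 := by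
    have e1 : (8 * z ^ 8 + 2 * lam) / L ≤ (8 * z ^ 8 + 2 * (eta * L + 1)) / L := by gcongr
    have e2 : (8 * z ^ 8 + 2 * (eta * L + 1)) / L = 8 * (z ^ 8 / L) + 2 * eta + 2 / L := by
      field_simp
      ring
    have e3 : z ^ 8 / L ≤ 1 / K := by
      rw [div_le_div_iff₀ hL0 hK0]; linarith
    have e4 : 2 / L ≤ 2 / z ^ 8 := by gcongr
    have e5 : 8 * (1 / K) = 8 / K := by ring
    linarith
  have hLx : L / x ≤ del := by rw [div_le_iff₀ hx0]; exact hL2
  have h8K : 8 / K ≤ eps / 4 := by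
    rw [div_le_iff₀ heps] at hK
    rw [div_le_div_iff₀ hK0 (by norm_num)]
    linarith
  -- the remaining terms
  have hrest : 3564 / (eta * z ^ 3) + 33872256 / (eta ^ 2 * z ^ 10) + 4 / z ^ 8 + 2 / z ^ 12 +
      2 / z ^ 8 ≤ eps / 4 := by
    have key : ∀ c : ℝ, 0 ≤ c → ∀ n : ℕ, 1 ≤ n → c / z ^ n ≤ c / (eta ^ 2 * z) := by
      intro c hc n hn
      apply div_le_div_of_nonneg_left hc (by positivity)
      have e1 : z ≤ z ^ n := le_self_pow₀ hz (by omega)
      have e2 : eta ^ 2 ≤ 1 := pow_le_one₀ heta0.le heta1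
      nlinarith
    have k1 : 3564 / (eta * z ^ 3) ≤ 3564 / (eta ^ 2 * z) := by
      apply div_le_div_of_nonneg_left (by norm_num) (by positivity)
      have e1 : z ≤ z ^ 3 := le_self_pow₀ hz (by norm_num)
      have e2 : eta ^ 2 ≤ eta := by nlinarith
      calc eta ^ 2 * z ≤ eta * z := by gcongr
        _ ≤ eta * z ^ 3 := by gcongr
    have k2 : 33872256 / (eta ^ 2 * z ^ 10) ≤ 33872256 / (eta ^ 2 * z) := by
      apply div_le_div_of_nonneg_left (by norm_num) (by positivity)
      have e1 : z ≤ z ^ 10 := le_self_pow₀ hz (by norm_num)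
      gcongr
    have k3 := key 4 (by norm_num) 8 (by norm_num)
    have k4 := key 2 (by norm_num) 12 (by norm_num)
    have k5 := key 2 (by norm_num) 8 (by norm_num)
    have k6 : 40000000 / (eta ^ 2 * z) ≤ eps / 4 := by
      rw [div_le_iff₀ (by positivity)] at hZ
      rw [div_le_div_iff₀ (by positivity) (by norm_num)]
      nlinarith
    have k7 : 3564 / (eta ^ 2 * z) + 33872256 / (eta ^ 2 * z) + 4 / (eta ^ 2 * z) +
        2 / (eta ^ 2 * z) + 2 / (eta ^ 2 * z) ≤ 40000000 / (eta ^ 2 * z) := by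
      rw [← add_div, ← add_div, ← add_div, ← add_div]
      gcongr
      norm_num
    linarith
  have hsum : B * (9 * G / lam + 12 * (3 * G / lam + 2 * L / (x - 1)) ^ 2 +
      (2 * L / (x - 1)) ^ 2) = B * (9 * G / lam) +
      B * (12 * (3 * G / lam + 2 * L / (x - 1)) ^ 2) + B * (2 * L / (x - 1)) ^ 2 := by ring
  rw [hsum]
  linarith

/-- **Limit.** -/
theorem prob_lim (eps : ℝ) (heps : 0 < eps) :
    ∃ K : ℝ, 0 < K ∧ ∃ del : ℝ, 0 < del ∧ ∀ p : ℕ, p.Prime → ∀ L : ℕ,
      K * (p : ℝ) ^ (2 / 3 : ℝ) ≤ L → (L : ℝ) ≤ del * p →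
      ((((p / 2).factorial : ℕ)) : ZMod p) ∉ targ p (p / 2) →
      |prob p L - Real.exp (-(3 / 4))| ≤ eps := by
  set eta : ℝ := min 1 (eps / 8) with heta
  have heta0 : 0 < eta := lt_min one_pos (by positivity)
  have heta1 : eta ≤ 1 := min_le_left _ _
  have heta2 : 2 * eta ≤ eps / 4 := by
    have := min_le_right (1 : ℝ) (eps / 8)
    rw [← heta] at this
    linarith
  set del : ℝ := min (1 / 8) (eps / 1600) with hdel
  have hdel0 : 0 < del := lt_min (by norm_num) (by positivity)
  have hdel1 : del ≤ 1 / 8 := min_le_left _ _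
  have hdel2 : 400 * del ≤ eps / 4 := by
    have := min_le_right (1 / 8 : ℝ) (eps / 1600)
    rw [← hdel] at this
    linarith
  set Z : ℝ := 160000000 / (eta ^ 2 * eps) + 800 / eta + 1 with hZ
  have hZ1 : 1 ≤ Z := by
    have h1 : 0 ≤ 160000000 / (eta ^ 2 * eps) := by positivity
    have h2 : 0 ≤ 800 / eta := by positivity
    linarith
  set K : ℝ := 32 / eps + Z ^ 4 with hK
  have hK1 : 1 ≤ K := by
    have h1 : 0 ≤ 32 / eps := by positivity
    have h2 : 1 ≤ Z ^ 4 := one_le_pow₀ hZ1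
    linarith
  have hK0 : 0 < K := by linarith
  refine ⟨K, hK0, del, hdel0, ?_⟩
  intro p hp L hL1 hL2 hlast
  haveI : Fact p.Prime := ⟨hp⟩
  have hp0 : (0 : ℝ) < p := by exact_mod_cast hp.pos
  have hp1 : (1 : ℝ) ≤ p := by exact_mod_cast hp.one_lt.le
  set z : ℝ := (p : ℝ) ^ (1 / 12 : ℝ) with hz
  have hz1 : 1 ≤ z := Real.one_le_rpow hp1 (by norm_num)
  have hz0 : 0 < z := by linarith
  have hz12 : (p : ℝ) = z ^ 12 := by
    rw [hz, ← Real.rpow_natCast, ← Real.rpow_mul hp0.le]
    norm_num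
  have hz8 : (p : ℝ) ^ (2 / 3 : ℝ) = z ^ 8 := by
    rw [hz, ← Real.rpow_natCast, ← Real.rpow_mul hp0.le]
    norm_num
  have hz6 : Real.sqrt p = z ^ 6 := by
    rw [Real.sqrt_eq_rpow, hz, ← Real.rpow_natCast, ← Real.rpow_mul hp0.le]
    norm_num
  rw [hz8] at hL1
  have hzbig : Z ≤ z := by
    have h1 : K * z ^ 8 ≤ z ^ 12 := by
      rw [← hz12]
      calc K * z ^ 8 ≤ L := hL1
        _ ≤ del * p := hL2
        _ ≤ 1 * p := by gcongr; linarith
        _ = p := one_mul _
    have h2 : K ≤ z ^ 4 := by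
      have h3 : z ^ 12 = z ^ 4 * z ^ 8 := by ring
      rw [h3] at h1
      exact le_of_mul_le_mul_right h1 (by positivity)
    have h4 : Z ^ 4 ≤ z ^ 4 := by
      have : 0 ≤ 32 / eps := by positivity
      linarith
    exact le_of_pow_le_pow_left₀ (by norm_num) hz0.le h4
  have hzA : 160000000 / (eta ^ 2 * eps) ≤ z := by
    have : 0 ≤ 800 / eta := by positivity
    linarith
  have hzB : 800 ≤ eta * z := by
    have h1 : 0 ≤ 160000000 / (eta ^ 2 * eps) := by positivity
    have h2 : 800 / eta ≤ z := by linarith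
    rw [div_le_iff₀ heta0] at h2
    linarith
  have hz800 : 800 ≤ z := by nlinarith
  have hpbig : (800 : ℝ) ≤ p := by
    rw [hz12]
    calc (800 : ℝ) ≤ z := hz800
      _ ≤ z ^ 12 := le_self_pow₀ hz1 (by norm_num)
  have hpN : 800 ≤ p := by exact_mod_cast hpbig
  have hodd : p % 2 = 1 := by
    rcases hp.eq_two_or_odd with h | h
    · omega
    · exact h
  have hlog1 : 1 ≤ Real.log p := by
    have h4 : Real.exp 1 < 3 := Real.exp_one_lt_three
    calc (1 : ℝ) = Real.log (Real.exp 1) := by simp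
      _ ≤ Real.log p := Real.log_le_log (Real.exp_pos _) (by linarith)
  have hlog : Real.log p ≤ 12 * z := by
    have := Real.log_le_rpow_div hp0.le (show (0 : ℝ) < 1 / 12 by norm_num)
    rw [← hz] at this
    linarith
  have hLpos : 0 < L := by
    have h1 : (0 : ℝ) < L := lt_of_lt_of_le (by positivity) hL1
    exact_mod_cast h1
  have hLR : (0 : ℝ) < L := by exact_mod_cast hLpos
  have hLz : z ^ 8 ≤ L := by
    calc z ^ 8 = 1 * z ^ 8 := (one_mul _).symm
      _ ≤ K * z ^ 8 := by gcongr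
      _ ≤ L := hL1
  set G : ℕ := ⌈32 * Real.log p⌉₊ with hG
  have hG1 : 32 * Real.log p ≤ G := Nat.le_ceil _
  have hG2 : (G : ℝ) ≤ 33 * Real.log p := by
    have := Nat.ceil_lt_add_one (show 0 ≤ 32 * Real.log p by linarith)
    linarith
  have hG3 : (G : ℝ) ≤ 396 * z := by linarith
  set lam : ℕ := ⌈eta * L⌉₊ with hlam
  have hlam1 : eta * L ≤ lam := Nat.le_ceil _
  have hlam2 : (lam : ℝ) ≤ eta * L + 1 := by
    have := Nat.ceil_lt_add_one (show 0 ≤ eta * L by positivity)
    linarith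
  have hlamL : lam ≤ L := by
    rw [hlam, Nat.ceil_le]
    calc eta * L ≤ 1 * L := by gcongr
      _ = L := one_mul _
  have hlamR : (0 : ℝ) < lam := lt_of_lt_of_le (by positivity) hlam1
  have hlam0 : 0 < lam := by exact_mod_cast hlamR
  have hbase : 800 * z ^ 7 ≤ eta * L := by
    calc 800 * z ^ 7 ≤ (eta * z) * z ^ 7 := by gcongr
      _ = eta * z ^ 8 := by ring
      _ ≤ eta * L := by gcongr
  have hzz7 : z ≤ z ^ 7 := le_self_pow₀ hz1 (by norm_num)
  have hz67 : z ^ 6 ≤ z ^ 7 := pow_le_pow_right₀ hz1 (by norm_num)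
  have hGl : 2 * G ≤ lam := by
    have h1 : (2 * G : ℝ) ≤ lam := by linarith
    exact_mod_cast h1
  have hPV : 16 * Real.sqrt p * (1 + Real.log p) ≤ lam := by
    rw [hz6]
    calc 16 * z ^ 6 * (1 + Real.log p) ≤ 16 * z ^ 6 * (1 + 12 * z) := by gcongr
      _ = 16 * z ^ 6 + 192 * z ^ 7 := by ring
      _ ≤ 800 * z ^ 7 := by linarith [pow_pos hz0 7]
      _ ≤ lam := by linarith
  have hLp : 4 * L ≤ p - 1 := by
    have h1 : (L : ℝ) ≤ 1 / 8 * p := hL2.trans (by gcongr)
    have h2 : (8 * L : ℝ) ≤ p := by linarith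
    have h3 : 8 * L ≤ p := by exact_mod_cast h2
    omega
  have hmain := prob_close hodd L lam G hLpos hlast hG1 hGl hPV hlam0 hlamL hLp
  rw [hz8] at hmain
  refine hmain.trans ?_
  have hB : ((p / 2 / L + 2 : ℕ) : ℝ) ≤ (p : ℝ) / L := by
    push_cast
    have h1 : ((p / 2 / L : ℕ) : ℝ) ≤ (p : ℝ) / 2 / L := by
      have h2 : ((p / 2 / L : ℕ) : ℝ) ≤ ((p / 2 : ℕ) : ℝ) / L := Nat.cast_div_le
      have h3 : ((p / 2 : ℕ) : ℝ) ≤ (p : ℝ) / 2 := by
        have := @Nat.cast_div_le ℝ _ _ _ p 2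
        simpa using this
      refine h2.trans ?_
      gcongr
    have h4 : (2 : ℝ) ≤ (p : ℝ) / 2 / L := by
      rw [div_div, le_div_iff₀ (by positivity)]
      have h5 : (L : ℝ) ≤ 1 / 8 * p := hL2.trans (by gcongr)
      linarith
    have h6 : (p : ℝ) / L = (p : ℝ) / 2 / L + (p : ℝ) / 2 / L := by field_simp; ring
    rw [h6]
    linarith
  exact err_bound z eta eps del K L lam G ((p / 2 / L + 2 : ℕ) : ℝ) p hz1 heta0 heta1 heps hdel0
    hz12 (by linarith) hzA (by
      have : 1 ≤ Z ^ 4 := one_le_pow₀ hZ1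
      linarith) hK0 hK1 hL1 hL2 hdel2 heta2 (by positivity) hG3 hlam1 hlam2 (by positivity) hB

end MP1fb.LS
end
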