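import Pool.Agent.Lib.MP_1fb68e_nt.LS.LIM

/-!
MP_1fb68e_nt, local shuffles: the law of a random local shuffle, and the theorem for one prime.
-/

set_option autoImplicit false

namespace MP1fb.LS

open Finset Filter Topology

/-- The law of a random local shuffle: an offset `u ∈ {0, .., L - 1}` is chosen uniformly, then
`τ` uniformly among the permutations which map the blocks of length `L` with offset `u` to
themselves. -/
noncomputable def law (p L : ℕ) (τ : Equiv.Perm (Fin (p / 2))) : ℝ :=
  (∑ u ∈ range L, (Set.indicator {σ | Local (p / 2) L u σ}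
    (fun _ => 1 / (Nat.card {σ : Equiv.Perm (Fin (p / 2)) // Local (p / 2) L u σ} : ℝ)) τ)) / L

lemma natCard_eq {Ω : Type*} [Fintype Ω] (P : Ω → Prop) : Nat.card {w // P w} = num P := by
  classical
  rw [Nat.card_eq_fintype_card, Fintype.card_subtype, num_eq]

lemma num_local_pos (p L u : ℕ) : 0 < num (Local (p / 2) L u) := by
  classical
  rw [num_eq, Finset.card_pos]
  refine ⟨1, ?_⟩
  rw [Finset.mem_filter]
  refine ⟨mem_univ _, ?_⟩
  intro i
  rfl

lemma law_nonneg (p L : ℕ) (τ : Equiv.Perm (Fin (p / 2))) : 0 ≤ law p L τ := by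
  unfold law
  apply div_nonneg _ (by positivity)
  apply Finset.sum_nonneg
  intro u _
  apply Set.indicator_nonneg
  intro _ _
  positivity

/-- the probability of an event -/
lemma sum_law (p L : ℕ) (P : Equiv.Perm (Fin (p / 2)) → Prop) :
    ∑ τ, Set.indicator {σ | P σ} (law p L) τ =
      (∑ u ∈ range L, (num (fun τ => Local (p / 2) L u τ ∧ P τ) : ℝ) /
        num (Local (p / 2) L u)) / L := by
  classical
  have h1 : ∀ τ, Set.indicator {σ | P σ} (law p L) τ =
      (∑ u ∈ range L, if (Local (p / 2) L u τ ∧ P τ) then 1 / (num (Local (p / 2) L u) : ℝ)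
        else 0) / L := by
    intro τ
    by_cases hP : P τ
    · rw [Set.indicator_of_mem (show τ ∈ {σ | P σ} from hP)]
      unfold law
      congr 1
      apply Finset.sum_congr rfl
      intro u _
      rw [natCard_eq]
      by_cases hl : Local (p / 2) L u τ
      · rw [Set.indicator_of_mem (show τ ∈ {σ | Local (p / 2) L u σ} from hl), if_pos ⟨hl, hP⟩]
      · rw [Set.indicator_of_notMem (show τ ∉ {σ | Local (p / 2) L u σ} from hl),
          if_neg (fun h => hl h.1)]
    · rw [Set.indicator_of_notMem (show τ ∉ {σ | P σ} from hP)]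
      have : ∀ u, ¬ (Local (p / 2) L u τ ∧ P τ) := fun u h => hP h.2
      simp [this]
  rw [Finset.sum_congr rfl (fun τ _ => h1 τ), ← Finset.sum_div, Finset.sum_comm]
  congr 1
  apply Finset.sum_congr rfl
  intro u _
  rw [← Finset.sum_filter, Finset.sum_const, nsmul_eq_mul, num_eq (fun τ => Local (p / 2) L u τ ∧ P τ)]
  ring

lemma sum_law_one (p L : ℕ) (hL : 0 < L) : ∑ τ, law p L τ = 1 := by
  have h := sum_law p L (fun _ => True)
  have h1 : ∀ τ, Set.indicator {σ : Equiv.Perm (Fin (p / 2)) | True} (law p L) τ = law p L τ :=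
    fun τ => Set.indicator_of_mem (show τ ∈ {σ : Equiv.Perm (Fin (p / 2)) | True} from trivial) _
  simp only [h1] at h
  rw [h]
  have h2 : ∀ u, (num (fun τ => Local (p / 2) L u τ ∧ True) : ℝ) / num (Local (p / 2) L u) = 1 := by
    intro u
    have h3 : (fun τ => Local (p / 2) L u τ ∧ True) = Local (p / 2) L u := by
      funext τ; simp
    rw [h3]
    have := num_local_pos p L u
    exact div_self (by exact_mod_cast this.ne')
  simp only [h2]
  rw [Finset.sum_const, Finset.card_range, nsmul_eq_mul, mul_one]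
  exact div_self (by exact_mod_cast hL.ne')

lemma sum_law_late (p L : ℕ) : ∑ τ, Set.indicator {σ | Late p σ} (law p L) τ = prob p L := by
  rw [sum_law]
  rfl

variable {p : ℕ} [hp : Fact p.Prime]

/-- the middle factorial -/
lemma half_sq (hodd : p % 2 = 1) :
    (((p / 2).factorial : ℕ) : ZMod p) * ((-1) ^ (p / 2) * (((p / 2).factorial : ℕ) : ZMod p)) =
      -1 := by
  have h1 := part_reflect hodd 1 (p / 2) le_rfl
  have h3 : p - 1 - p / 2 = p / 2 := by omega
  rw [h3, part_half, part_last hodd] at h1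
  exact h1

lemma half_notMem (hodd : p % 2 = 1) (h : (((p / 2).factorial : ℕ) : ZMod p) ≠ -1) :
    (((p / 2).factorial : ℕ) : ZMod p) ∉ targ p (p / 2) := by
  have hp2 : 2 < p := by
    have := hp.out.two_le
    omega
  haveI : Fact (2 < p) := ⟨hp2⟩
  have hne : (-1 : ZMod p) ≠ 1 := ZMod.neg_one_ne_one
  unfold targ
  rw [Finset.mem_insert, Finset.mem_singleton, not_or]
  refine ⟨h, ?_⟩
  intro h2
  have h3 := half_sq hodd
  rcases neg_one_pow_eq_or (ZMod p) (p / 2) with h4 | h4
  · rw [h4] at h2 h3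
    rw [h2] at h3
    apply hne
    rw [← h3]
    ring
  · rw [h4] at h2
    exact h h2

lemma half_of_one_mod_four (h4 : p % 4 = 1) : (((p / 2).factorial : ℕ) : ZMod p) ≠ -1 := by
  have hodd : p % 2 = 1 := by omega
  have hp2 : 2 < p := by
    have := hp.out.two_le
    omega
  haveI : Fact (2 < p) := ⟨hp2⟩
  have hne : (-1 : ZMod p) ≠ 1 := ZMod.neg_one_ne_one
  intro h
  have h3 := half_sq hodd
  have heven : Even (p / 2) := Nat.even_iff.mpr (by omega)
  rw [heven.neg_one_pow, h] at h3
  apply hne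
  rw [← h3]
  ring

lemma prob_zero (hodd : p % 2 = 1) (L : ℕ) (h : (((p / 2).factorial : ℕ) : ZMod p) = -1) :
    prob p L = 0 := by
  classical
  have hp2 : 2 < p := by
    have := hp.out.two_le
    omega
  unfold prob ratio
  have h1 : ∀ u, num (fun τ => Local (p / 2) L u τ ∧ Late p τ) = 0 := by
    intro u
    rw [num_eq, Finset.card_eq_zero, Finset.filter_eq_empty_iff]
    rintro τ _ ⟨_, hl⟩
    rw [late_iff hodd] at hl
    have := (hl (p / 2) (by omega) le_rfl).1
    rw [part_half] at this
    exact this h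
  simp [h1]

omit hp in
/-- **the theorem for one prime** -/
theorem one_prime (eps : ℝ) (heps : 0 < eps) :
    ∃ K : ℝ, 0 < K ∧ ∃ del : ℝ, 0 < del ∧ ∀ p : ℕ, p.Prime → ∀ L : ℕ,
      K * (p : ℝ) ^ (2 / 3 : ℝ) ≤ L → (L : ℝ) ≤ del * p →
      ((((p / 2).factorial : ℕ) : ZMod p) ≠ -1 →
        |prob p L - Real.exp (-(3 / 4))| ≤ eps) ∧
      ((((p / 2).factorial : ℕ) : ZMod p) = -1 → prob p L = 0) := by
  obtain ⟨K, hK, del, hdel, h⟩ := prob_lim eps heps
  refine ⟨K, hK, min del (1 / 4), lt_min hdel (by norm_num), ?_⟩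
  intro p hp L hL1 hL2
  haveI : Fact p.Prime := ⟨hp⟩
  have hp0 : (0 : ℝ) < p := by exact_mod_cast hp.pos
  have hodd : p % 2 = 1 := by
    rcases hp.eq_two_or_odd with h2 | h2
    · exfalso
      subst h2
      have h3 : (L : ℝ) ≤ 1 / 4 * 2 := by
        refine hL2.trans ?_
        have := min_le_right del (1 / 4)
        push_cast
        linarith
      have h4 : (0 : ℝ) < L := lt_of_lt_of_le (by positivity) hL1
      have h5 : (1 : ℝ) ≤ L := by exact_mod_cast (by exact_mod_cast h4 : 0 < L)
      linarith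
    · exact h2
  refine ⟨fun h1 => ?_, fun h1 => prob_zero hodd L h1⟩
  apply h p hp L hL1 _ (half_notMem hodd h1)
  refine hL2.trans ?_
  have := min_le_left del (1 / 4)
  gcongr

end MP1fb.LS
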