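import Mathlib

/-!
MP_1fb68e_nt, local shuffles: definitions.
-/

set_option autoImplicit false

namespace MP1fb.LS

open Finset

/-- The factor at place `k` (`1 ≤ k ≤ p - 1`, `p` odd) of the rearranged product `(p - 1)!`:
the places `1, .., (p-1)/2` carry the numbers `1, .., (p-1)/2` in the order given by `τ`, and the
factor at place `p - k` is minus the factor at place `k`. For `τ = 1` the factor at place `k` is
`k` modulo `p`. -/
def factor (p : ℕ) (τ : Equiv.Perm (Fin (p / 2))) (k : ℕ) : ZMod p :=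
  if h : 1 ≤ k ∧ k ≤ p / 2 then ((τ ⟨k - 1, by omega⟩ : ℕ) : ZMod p) + 1
  else if h : p / 2 < k ∧ k < p then -(((τ ⟨p - k - 1, by omega⟩ : ℕ) : ZMod p) + 1)
  else 1

/-- The product of the first `n` factors; for `τ = 1` this is `n!` modulo `p`. -/
def part (p : ℕ) (τ : Equiv.Perm (Fin (p / 2))) (n : ℕ) : ZMod p :=
  ∏ k ∈ range n, factor p τ (k + 1)

/-- `-1` is reached for the first time at `p - 1`. -/
def Late (p : ℕ) (τ : Equiv.Perm (Fin (p / 2))) : Prop :=
  IsLeast {n : ℕ | 1 ≤ n ∧ part p τ n = -1} (p - 1)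

/-- Cut `0, 1, .., H - 1` into blocks `{i : (i + u) / L = b}`; `τ` maps each block to itself. -/
def Local (H L u : ℕ) (τ : Equiv.Perm (Fin H)) : Prop :=
  ∀ i : Fin H, ((τ i : ℕ) + u) / L = ((i : ℕ) + u) / L

end MP1fb.LS
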